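import Pool.Agent.H4.T4.Sep
import Pool.Agent.H44.V0F.Evd

/-!
# The direction of the first place is free given the exact point

`fr_law`: digits of a direction and of an own velocity over a closed function of the time. `fr_cls`:
from the free velocities of a class. `fr_of`: the field `fr` of `RowH`.
-/

set_option autoImplicit false

namespace Pool.T4J

open Finset Real MvPolynomial
open Pool.Agent.H49.Ent Pool.Agent.H32.Dense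
open Pool.STK hiding pr2
open Pool.KA Pool.KSAT Pool.K2S Pool.PB Pool.S6C
open Pool.GEN Pool.CHT Pool.CHX Pool.ISO
open Pool.RCD
open Pool.GRD (LbP)
open Pool.AJW (CfB)
open Pool.V0F (cR FrI mx_cR qj_fam cfb_of)
open Pool.LA91 (ojet bd_le jet jet_congr jet_X jet_sub qG)

variable {m : ℕ}

/-- A closed code is a function of the record of a later window. -/
theorem cR_cd {J : ℕ} {F : Fam m J} {A : F.Ω → Prop} {v j : ℝ} (hvj : v ≤ j) (hj : j ≤ 1)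
    {V : Type} {z : PtT F → V} {z' : LnT F → V}
    (h : ∀ ω, A ω → z (ptr F J ω) = z' (slam F ⌊v * J⌋₊ ω)) {ω ω' : F.Ω}
    (e : cR F A j ω = cR F A j ω') :
    z' (slam F ⌊v * J⌋₊ ω) = z' (slam F ⌊v * J⌋₊ ω') := by
  obtain ⟨χ, hχ⟩ := vg_mono hvj hj J F
  have hc : Cl2 (ptr F J) (vg j J F) A (fun ν => z' (slam F ⌊v * J⌋₊ ν)) := by
    refine ⟨⟨z, fun ν hν => (h ν hν).symm⟩, fun x => z' (χ x), fun ν _ => ?_⟩
    have e1 := hχ ν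
    show z' (slam F ⌊v * J⌋₊ ν) = z' (χ (vg j J F ν))
    rw [← e1]
    rfl
  have h1 := congrFun e ⟨fun ν => z' (slam F ⌊v * J⌋₊ ν) = z' (slam F ⌊v * J⌋₊ ω),
    hc.comp fun x => x = z' (slam F ⌊v * J⌋₊ ω)⟩
  have h2 : (z' (slam F ⌊v * J⌋₊ ω) = z' (slam F ⌊v * J⌋₊ ω)) =
      (z' (slam F ⌊v * J⌋₊ ω') = z' (slam F ⌊v * J⌋₊ ω)) := h1
  exact (h2.mp rfl).symm

/-- The record of an earlier window. -/
theorem cR_mn {J : ℕ} {F : Fam m J} {A : F.Ω → Prop} {j j' : ℝ} (hj : j ≤ j') (hj' : j' ≤ 1)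
    {ω ω' : F.Ω} (e : cR F A j' ω = cR F A j' ω') : cR F A j ω = cR F A j ω' := by
  obtain ⟨χ, hχ⟩ := vg_mono hj hj' J F
  funext D
  exact congrFun e ⟨D.1, D.2.mono ⟨fun x => x, fun _ _ => rfl⟩ ⟨χ, fun ν _ => hχ ν⟩⟩

/-- The record is a function of the exact point. -/
theorem cR_pt {J : ℕ} {F : Fam m J} {A : F.Ω → Prop} {j : ℝ} {ω ω' : F.Ω} (hω : A ω)
    (hω' : A ω') (e : ptr F J ω = ptr F J ω') : cR F A j ω = cR F A j ω' := by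
  funext D
  obtain ⟨φ, hφ⟩ := D.2.1
  show D.1 ω = D.1 ω'
  rw [hφ ω hω, hφ ω' hω', e]

/-- The record is a function of the line with its window. -/
theorem cR_ln {J : ℕ} {F : Fam m J} {A : F.Ω → Prop} {j : ℝ} {ω ω' : F.Ω} (hω : A ω)
    (hω' : A ω') (e : slam F ⌊j * J⌋₊ ω = slam F ⌊j * J⌋₊ ω') : cR F A j ω = cR F A j ω' := by
  funext D
  obtain ⟨φ, hφ⟩ := D.2.2
  show D.1 ω = D.1 ω'
  rw [hφ ω hω, hφ ω' hω', show vg j J F ω = vg j J F ω' from e]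

theorem rp_fl {x : ℝ} (hx : 0 ≤ x) : (2 : ℝ) ^ ⌊x⌋₊ ≤ 2 ^ x ∧ (2 : ℝ) ^ x ≤ 2 * 2 ^ ⌊x⌋₊ := by
  have h1 := Nat.floor_le hx
  have h2 := Nat.lt_floor_add_one x
  constructor
  · rw [← Real.rpow_natCast]
    exact Real.rpow_le_rpow_of_exponent_le (by norm_num) h1
  · have e1 : (2 : ℝ) * 2 ^ ⌊x⌋₊ = 2 ^ ((⌊x⌋₊ : ℝ) + 1) := by
      rw [Real.rpow_add (by norm_num), Real.rpow_one, Real.rpow_natCast]
      ring
    rw [e1]
    exact Real.rpow_le_rpow_of_exponent_le (by norm_num) h2.le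

/-- One integer which is known up to `K`. -/
theorem ch_one {Ω T : Type} [Fintype Ω] {q : Ω → ℝ} (hq : IsLaw q) {K : ℕ} (X : Ω → ℤ) (Z : Ω → T)
    (h : ∀ ω ω', 0 < q ω → 0 < q ω' → Z ω = Z ω' → |(X ω : ℝ) - X ω'| ≤ K) :
    CH q X Z ≤ Real.log (2 * K + 1) := by
  have h1 := ch_near (d := 1) (K := K) hq (fun ω _ => X ω) Z (fun ω ω' a b e _ => h ω ω' a b e)
  have h2 : CH q X Z = CH q (fun ω (_ : Fin 1) => X ω) Z := by
    refine CH_congr hq.nonneg ?_ ?_ (fun _ _ _ _ h => h) (fun _ _ _ _ h => h)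
    · intro ω ω' _ _ e
      funext _
      exact (Prod.ext_iff.1 e).1
    · intro ω ω' _ _ e
      exact congrFun (Prod.ext_iff.1 e).1 0
  rw [h2]
  refine h1.trans (le_of_eq ?_)
  push_cast
  ring

/-- **The digits of a direction and of an own velocity.** -/
theorem fr_law {J : ℕ} {F : Fam m J} {p : F.Ω → ℝ} (hp : IsLaw p) {k : Fin m} {x : ℝ} (hx : 0 ≤ x)
    {T₁ T₂ : Type} {Z₁ : F.Ω → T₁} {Z₂ : F.Ω → T₂} {o : F.Ω → ℝ}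
    (h1 : ∀ ω ω', 0 < p ω → 0 < p ω' → Z₁ ω = Z₁ ω' → o ω - o ω' = F.d ω k - F.d ω' k)
    (h2 : ∀ ω ω', 0 < p ω → 0 < p ω' → Z₂ ω = Z₂ ω' → o ω - o ω' = F.d ω k - F.d ω' k) {κ : ℝ}
    (h : CH p (fun ω => ⌊(2 : ℝ) ^ x * o ω⌋) Z₁ ≤ CH p (fun ω => ⌊(2 : ℝ) ^ x * o ω⌋) Z₂ + κ) :
    CH p (fun ω => ⌊(2 : ℝ) ^ ⌊x⌋₊ * F.d ω k⌋) Z₁ ≤
      CH p (fun ω => ⌊(2 : ℝ) ^ ⌊x⌋₊ * F.d ω k⌋) Z₂ + κ + Real.log 5 + Real.log 7 := by
  obtain ⟨hx1, hx2⟩ := rp_fl hx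
  have hp1 : (0 : ℝ) < 2 ^ ⌊x⌋₊ := by positivity
  have hp2 : (0 : ℝ) < 2 ^ x := Real.rpow_pos_of_pos (by norm_num) x
  -- the direction from the velocity
  have s1 : CH p (fun ω => ⌊(2 : ℝ) ^ ⌊x⌋₊ * F.d ω k⌋)
      (fun ω => (⌊(2 : ℝ) ^ x * o ω⌋, Z₁ ω)) ≤ Real.log 5 := by
    refine (ch_one (K := 2) hp _ _ fun ω ω' a b e => ?_).trans (le_of_eq (by norm_num))
    have e1 : ⌊(2 : ℝ) ^ x * o ω⌋ = ⌊(2 : ℝ) ^ x * o ω'⌋ := (Prod.ext_iff.1 e).1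
    have e2 := h1 ω ω' a b (Prod.ext_iff.1 e).2
    have e3 : |(2 : ℝ) ^ x * o ω - 2 ^ x * o ω'| ≤ 1 := by
      have g1 := Int.floor_le ((2 : ℝ) ^ x * o ω)
      have g2 := Int.lt_floor_add_one ((2 : ℝ) ^ x * o ω)
      have g3 := Int.floor_le ((2 : ℝ) ^ x * o ω')
      have g4 := Int.lt_floor_add_one ((2 : ℝ) ^ x * o ω')
      rw [e1] at g1 g2
      rw [abs_le]
      constructor <;> linarith only [g1, g2, g3, g4]
    have e4 : |(2 : ℝ) ^ ⌊x⌋₊ * F.d ω k - 2 ^ ⌊x⌋₊ * F.d ω' k| ≤ 1 := by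
      rw [← mul_sub, ← e2, abs_mul, abs_of_pos hp1]
      rw [← mul_sub, abs_mul, abs_of_pos hp2] at e3
      exact (mul_le_mul_of_nonneg_right hx1 (abs_nonneg _)).trans e3
    refine (fl_sub e4).trans (by norm_num)
  -- the velocity from the direction
  have s2 : CH p (fun ω => ⌊(2 : ℝ) ^ x * o ω⌋)
      (fun ω => (⌊(2 : ℝ) ^ ⌊x⌋₊ * F.d ω k⌋, Z₂ ω)) ≤ Real.log 7 := by
    refine (ch_one (K := 3) hp _ _ fun ω ω' a b e => ?_).trans (le_of_eq (by norm_num))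
    have e1 : ⌊(2 : ℝ) ^ ⌊x⌋₊ * F.d ω k⌋ = ⌊(2 : ℝ) ^ ⌊x⌋₊ * F.d ω' k⌋ := (Prod.ext_iff.1 e).1
    have e2 := h2 ω ω' a b (Prod.ext_iff.1 e).2
    have e3 := floor_near e1
    have e4 : |(2 : ℝ) ^ x * o ω - 2 ^ x * o ω'| ≤ 2 := by
      rw [← mul_sub, e2, abs_mul, abs_of_pos hp2]
      rw [le_div_iff₀ hp1] at e3
      calc (2 : ℝ) ^ x * |F.d ω k - F.d ω' k| ≤ 2 * 2 ^ ⌊x⌋₊ * |F.d ω k - F.d ω' k| :=
            mul_le_mul_of_nonneg_right hx2 (abs_nonneg _)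
        _ = 2 * (|F.d ω k - F.d ω' k| * 2 ^ ⌊x⌋₊) := by ring
        _ ≤ 2 * 1 := by linarith
        _ = 2 := by norm_num
    refine (fl_sub e4).trans (by norm_num)
  have s3 := CH_le_add hp.nonneg (fun ω => ⌊(2 : ℝ) ^ ⌊x⌋₊ * F.d ω k⌋)
    (fun ω => ⌊(2 : ℝ) ^ x * o ω⌋) Z₁
  have s4 := CH_le_add hp.nonneg (fun ω => ⌊(2 : ℝ) ^ x * o ω⌋)
    (fun ω => ⌊(2 : ℝ) ^ ⌊x⌋₊ * F.d ω k⌋) Z₂
  linarith

/-- The own velocity of a coordinate over a function of the time. -/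
theorem ojet_time {J : ℕ} {F : Fam m J} {k : Fin m} {G : MvPolynomial (Option (Fin m)) ℝ}
    (hG : ∀ b b' : Option (Fin m) → ℝ, b none = b' none →
      (∀ i ∈ (∅ : Finset (Fin m)), b (some i) = b' (some i)) → eval b G = eval b' G)
    {ω ω' : F.Ω} (ht : F.T ω = F.T ω') :
    ojet F k 1 G ω - ojet F k 1 G ω' = F.d ω k - F.d ω' k := by
  have h0 : F.t ω = F.t ω' := by
    unfold Fam.t
    rw [ht]
  have h1 : jet 1 G (bt F ω) (bd F ω) = jet 1 G (bt F ω') (bd F ω') :=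
    jet_congr hG 1 h0 (fun i hi => absurd hi (by simp)) rfl fun i hi => absurd hi (by simp)
  unfold ojet
  rw [jet_sub, jet_sub, h1, (jet_X (some k) _ _).2.1, (jet_X (some k) _ _).2.1]
  show F.d ω k - _ - (F.d ω' k - _) = _
  ring

/-- **The direction of the first place is free**: from the free velocities of a class. -/
theorem fr_cls {S : PCl m}
    (hpos : ∀ (τ : ℝ) (J : ℕ) (F : Fam m J) (A : F.Ω → Prop), S.St τ J F A → 0 < Pe F.p A)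
    {c : ℕ → Fin m} {sp : ℕ → ℝ → ℝ} {b P w₁ x' κf : ℝ} (hb0 : 0 ≤ b) (hb1 : b ≤ 1) (hP : 0 ≤ P)
    (hbw : b ≤ w₁) (hwx : w₁ ≤ x') (hx1 : x' ≤ 1)
    (hF : FrI S c 1 sp b (fun _ => P) w₁ x' κf) (D : ℕ) (E : ℝ) :
    Bas S (fun J F A => ∀ (V : Type) (z : PtT F → V) (z' : LnT F → V)
      (G : V → MvPolynomial (Option (Fin m)) ℝ) (Pn : ℕ),
      LbP F ∅ (c 0) D J ⌊b * J⌋₊ Pn A z z' G → CfB F ⌊b * J⌋₊ E (c 0) A z' G →
      ⌊sp 0 b * J⌋₊ ≤ Pn →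
      CH (Pool.Agent.H49.Ent.cond F.p A True) (fun ω => ⌊(2 : ℝ) ^ ⌊P * J⌋₊ * F.d ω (c 0)⌋)
        (fun ω => (cR F A w₁ ω, F.W ω)) ≤
      CH (Pool.Agent.H49.Ent.cond F.p A True) (fun ω => ⌊(2 : ℝ) ^ ⌊P * J⌋₊ * F.d ω (c 0)⌋)
        (fun ω => (cR F A x' ω, F.W ω)) + κf * J + Real.log 5 + Real.log 7) := by
  obtain ⟨k₂, hk₂, e₀, he₀, H⟩ := hF
  obtain ⟨M, J₁, hM⟩ := qj_fam m D 1 1 (fun _ => P) (w := b) (E := E) hb0 hb1
  have hp : Bas S (fun _ F A => 0 < Pe F.p A) := ⟨1, one_pos, 0, fun J _ F A hA => hpos 1 J F A hA⟩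
  refine Bas.mono J₁ ((H M).and hp) ?_
  rintro J hJ F A ⟨h1, hA⟩ V z z' G Pn hl hc hPn
  have hJ0 : (0 : ℝ) ≤ J := Nat.cast_nonneg J
  have hq := isLaw_cond F.isLaw hA
  have z1 : Pool.LA91.Mx (fun J F => ptr F J) (vg w₁) k₂ F A (cR F A w₁) := mx_cR hA w₁ hk₂.le
  have z2 : Pool.LA91.Mx (fun J F => ptr F J) (vg x') k₂ F A (cR F A x') := mx_cR hA x' hk₂.le
  have hqj := hM M le_rfl J hJ 0 one_pos F ∅ (c 0) A V z z' G Pn (sp 0 b) e₀ hl hc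
    ((Nat.floor_le_floor (mul_le_mul_of_nonneg_right (by linarith) hJ0)).trans hPn)
  have h2 := h1 _ _ _ _ z1 z2 (fun ω _ => ⌊(2 : ℝ) ^ (P * J) *
    ojet F (c 0) 1 (G (z' (slam F ⌊b * J⌋₊ ω))) ω⌋) (fun i => by
      have e1 : (i : ℕ) = 0 := by omega
      have e2 : (range (i : ℕ)).image c = ∅ := by
        rw [e1]
        simp
      show (Pool.LA91.qJet m ((range (i : ℕ)).image c) (c i) 1 b (sp i b) P).P M e₀ J F A
        (fun ω => ⌊(2 : ℝ) ^ (P * J) * ojet F (c 0) 1 (G (z' (slam F ⌊b * J⌋₊ ω))) ω⌋)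
      rw [e2, e1]
      exact hqj)
  -- one integer
  have hone : ∀ {T : Type} (Z : F.Ω → T), CH (Pool.Agent.H49.Ent.cond F.p A True)
      (fun ω (_ : Fin 1) => ⌊(2 : ℝ) ^ (P * J) * ojet F (c 0) 1 (G (z' (slam F ⌊b * J⌋₊ ω))) ω⌋)
      Z = CH (Pool.Agent.H49.Ent.cond F.p A True)
      (fun ω => ⌊(2 : ℝ) ^ (P * J) * ojet F (c 0) 1 (G (z' (slam F ⌊b * J⌋₊ ω))) ω⌋) Z := by
    intro T Z
    refine CH_congr hq.nonneg ?_ ?_ (fun _ _ _ _ h => h) (fun _ _ _ _ h => h)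
    · intro ω ω' _ _ e
      exact congrFun (Prod.ext_iff.1 e).1 0
    · intro ω ω' _ _ e
      funext _
      exact (Prod.ext_iff.1 e).1
  rw [hone, hone] at h2
  have key : ∀ j : ℝ, b ≤ j → j ≤ 1 → ∀ ω ω', 0 < Pool.Agent.H49.Ent.cond F.p A True ω →
      0 < Pool.Agent.H49.Ent.cond F.p A True ω' →
      (cR F A j ω, F.W ω) = (cR F A j ω', F.W ω') →
      ojet F (c 0) 1 (G (z' (slam F ⌊b * J⌋₊ ω))) ω -
        ojet F (c 0) 1 (G (z' (slam F ⌊b * J⌋₊ ω'))) ω' = F.d ω (c 0) - F.d ω' (c 0) := by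
    intro j hbj hj1 ω ω' _ _ e
    have e1 : cR F A j ω = cR F A j ω' := (Prod.ext_iff.1 e).1
    have e2 : F.W ω = F.W ω' := (Prod.ext_iff.1 e).2
    have e3 : F.T ω = F.T ω' := (Prod.ext_iff.1 e2).1
    have e4 := cR_cd hbj hj1 hl.cls e1
    rw [e4]
    exact ojet_time (hl.dep _) e3
  exact fr_law hq (by positivity) (key w₁ hbw (hwx.trans hx1)) (key x' (hbw.trans hwx) hx1) h2

/-- **The field `fr`**, from the deep record: `Z₁`, `Z₂`: the two records, `A₁`: the condition of the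
left side, `Fp`: the exact point. -/
theorem fr_of {Ω X T₁ T₂ T₃ T₄ : Type} [Fintype Ω] {p : Ω → ℝ} (hp : IsLaw p) {cx : Ω → X}
    {A₁ : Ω → T₁} {Z₁ : Ω → T₂} {Z₂ : Ω → T₃} {Fp : Ω → T₄} {e e₂ : ℝ}
    (hA : ∀ ω ω', 0 < p ω → 0 < p ω' → A₁ ω = A₁ ω' → Z₁ ω = Z₁ ω')
    (h : CH p cx Z₁ ≤ CH p cx Z₂ + e) (hF : CH p Fp Z₂ ≤ e₂) :
    CH p cx A₁ - (e + e₂) ≤ CH p cx Fp := by
  have h0 := hp.nonneg
  have s1 : CH p cx A₁ ≤ CH p cx Z₁ := CH_mono_cond h0 fun ω ω' a b e => hA ω ω' a b e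
  have s2 := CH_le_add h0 cx Fp Z₂
  have s3 : CH p cx (fun ω => (Fp ω, Z₂ ω)) ≤ CH p cx Fp := CH_mono_cond h0 fun ω ω' _ _ e =>
    (Prod.ext_iff.1 e).1
  linarith

end Pool.T4J
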