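import Pool.Agent.H4.T4.Vec
import Pool.Agent.H63.T4.Okg

/-!
# The label at the exact point

`jj`: the velocities over the labels of the first window from the labels of the second one. `jj_self`,
`jj_two`: the same line, another line with the same labels. `j1_of`, `j2_of`, `cc_one`, `cc_of`,
`hkz_of`, `affX_of`: the fields of `T4Ok`.
-/

set_option autoImplicit false

namespace Pool.T4J

open Finset Real MvPolynomial
open Pool.Agent.H49.Ent Pool.Agent.H32.Dense Pool.STK Pool.KA Pool.KSAT Pool.K2S Pool.PB Pool.S6C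
open Pool.GEN Pool.CHT Pool.CHX Pool.ISO
open Pool.D2R Pool.GF64
open Pool.D2F2 (hgp vlp ojet_hgp ojet_vlp)
open Pool.LA91 (ojet bd_le)
open Pool.T4G (wD AffX)
open Pool.AVG57 (upw upw_slam)
open Pool.T4H (Tau)
open Pool.PR46 (P1 P1_law)

variable {m J : ℕ}

theorem pe_nul {A : Type} [Fintype A] {q : A → ℝ} (h0 : ∀ a, 0 ≤ q a) {B : A → Prop}
    (h : ∀ a, 0 < q a → ¬ B a) : Pe q B ≤ 0 := by
  rw [Pool.DIR21.Pe_ci]
  refine Finset.sum_nonpos fun a _ => ?_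
  rcases (h0 a).eq_or_lt with h1 | h1
  · rw [← h1, zero_mul]
  · rw [Pool.DIR21.ci0 (h a h1), mul_zero]

/-! ### Lines -/

/-- The direction of a line. -/
noncomputable def ldr {F : Fam m J} (s : LnT F) : Option (Fin m) → ℝ
  | none => 1
  | some j => s.1.2 j

/-- The point of a line at the beginning of the window. -/
noncomputable def lpt {F : Fam m J} (a : ℕ) (s : LnT F) : Option (Fin m) → ℝ
  | none => (s.2.2 : ℝ) / 2 ^ a
  | some j => s.1.1 j + (s.2.2 : ℝ) / 2 ^ a * s.1.2 j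

theorem ldr_slam (F : Fam m J) (a : ℕ) (ω : F.Ω) : ldr (slam F a ω) = bd F ω := by
  funext o
  cases o with
  | none => rfl
  | some j => rfl

theorem bt_lpt (F : Fam m J) (a : ℕ) (ω : F.Ω) (o : Option (Fin m)) :
    bt F ω o = lpt a (slam F a ω) o + (F.t ω - (F.T1 a ω : ℝ) / 2 ^ a) * bd F ω o := by
  cases o with
  | none =>
    show F.t ω = (F.T1 a ω : ℝ) / 2 ^ a + (F.t ω - (F.T1 a ω : ℝ) / 2 ^ a) * 1
    ring
  | some j =>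
    show F.u ω j + F.t ω * F.d ω j = F.u ω j + (F.T1 a ω : ℝ) / 2 ^ a * F.d ω j +
      (F.t ω - (F.T1 a ω : ℝ) / 2 ^ a) * F.d ω j
    ring

/-- The velocity of a line over a polynomial. -/
noncomputable def vls {F : Fam m J} (k : Fin m) (Q : MvPolynomial (Option (Fin m)) ℝ)
    (s : LnT F) : ℝ := s.1.2 k - dd Q 0 (ldr s)

/-- The height of a line over a polynomial, at the beginning of the window. -/
noncomputable def hls {F : Fam m J} (a : ℕ) (k : Fin m) (Q : MvPolynomial (Option (Fin m)) ℝ)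
    (s : LnT F) : ℝ := lpt a s (some k) - eval (lpt a s) Q

theorem vls_slam {F : Fam m J} (k : Fin m) {Q : MvPolynomial (Option (Fin m)) ℝ}
    (hQ : Q.totalDegree ≤ 1) (a : ℕ) (ω : F.Ω) : vls k Q (slam F a ω) = vlp F k Q ω := by
  unfold vls vlp
  rw [ldr_slam, dd_aff hQ 0 (bt F ω)]
  rfl

theorem dd_smul' {G : MvPolynomial (Option (Fin m)) ℝ} (x V : Option (Fin m) → ℝ) (k : ℝ) :
    dd G x (fun o => k * V o) = k * dd G x V := by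
  unfold dd
  rw [Finset.mul_sum]
  exact Finset.sum_congr rfl fun o _ => by ring

/-- **The heights over affine labels are affine in the window.** -/
theorem affX_of {F : Fam m J} {p : F.Ω → ℝ} {n w a : ℕ} (hwa : w ≤ a) (ha : a ≤ J)
    {c : Fin n → Fin m} {GN : PtT F → Fin n → MvPolynomial (Option (Fin m)) ℝ}
    {HN : LnT F → Fin n → MvPolynomial (Option (Fin m)) ℝ}
    (hd : ∀ y i, (GN y i).totalDegree ≤ 1)
    (hcls : ∀ ω, 0 < p ω → ∀ i, GN (ptr F J ω) i = HN (slam F w ω) i) :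
    AffX p a (fun ω i => hgp F (c i) (GN (ptr F J ω) i) ω)
      (fun s i => hls a (c i) (HN (upw w a s) i) s)
      (fun s i => vls (c i) (HN (upw w a s) i) s) := by
  intro ω hω i
  have e1 := hcls ω hω i
  have e2 := hd (ptr F J ω) i
  show hgp F (c i) (GN (ptr F J ω) i) ω = hls a (c i) (HN (upw w a (slam F a ω)) i) (slam F a ω) +
    vls (c i) (HN (upw w a (slam F a ω)) i) (slam F a ω) * (F.t ω - (F.T1 a ω : ℝ) / 2 ^ a)
  rw [upw_slam F hwa ha, ← e1, vls_slam (c i) e2]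
  obtain ⟨Q, hQ⟩ : ∃ Q, Q = GN (ptr F J ω) i := ⟨_, rfl⟩
  rw [← hQ] at e2 ⊢
  unfold hgp hls vlp
  have h1 := ev_aff e2 (lpt a (slam F a ω)) (bt F ω)
  have h2 : (fun o => bt F ω o - lpt a (slam F a ω) o) =
      fun o => (F.t ω - (F.T1 a ω : ℝ) / 2 ^ a) * bd F ω o := by
    funext o
    rw [bt_lpt F a ω o]
    ring
  rw [h2, dd_smul', dd_aff e2 _ (bt F ω)] at h1
  have h3 : F.x ω (c i) = lpt a (slam F a ω) (some (c i)) +
      (F.t ω - (F.T1 a ω : ℝ) / 2 ^ a) * F.d ω (c i) := bt_lpt F a ω (some (c i))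
  rw [h3]
  linear_combination -h1

/-! ### The coefficients -/

/-- The value to `E` digits. -/
noncomputable def dfl (E : ℕ) (x : ℝ) : ℝ := (⌊(2 : ℝ) ^ E * x⌋ : ℝ) / 2 ^ E

theorem dfl_near (E : ℕ) (x : ℝ) : 0 ≤ x - dfl E x ∧ x - dfl E x ≤ 1 / 2 ^ E := by
  have hp : (0 : ℝ) < 2 ^ E := by positivity
  have h2 := Int.floor_le ((2 : ℝ) ^ E * x)
  have h3 := Int.lt_floor_add_one ((2 : ℝ) ^ E * x)
  have e1 : x - dfl E x = (2 ^ E * x - (⌊(2 : ℝ) ^ E * x⌋ : ℝ)) / 2 ^ E := by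
    unfold dfl
    field_simp
  rw [e1]
  exact ⟨div_nonneg (by linarith) hp.le, div_le_div_of_nonneg_right (by linarith) hp.le⟩

theorem dfl_one {E : ℕ} {x : ℝ} (h : |x| ≤ 1) : |dfl E x| ≤ 1 := by
  have hp : (0 : ℝ) < 2 ^ E := by positivity
  rw [abs_le] at h
  have h1 : (⌊(2 : ℝ) ^ E * x⌋ : ℝ) ≤ 2 ^ E := by
    refine (Int.floor_le _).trans ?_
    nlinarith
  have h2 : (-(2 : ℝ) ^ E) ≤ (⌊(2 : ℝ) ^ E * x⌋ : ℝ) := by
    have h3 : -((2 : ℤ) ^ E) ≤ ⌊(2 : ℝ) ^ E * x⌋ := by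
      rw [Int.le_floor]
      push_cast
      nlinarith
    have h4 : ((-((2 : ℤ) ^ E) : ℤ) : ℝ) ≤ (⌊(2 : ℝ) ^ E * x⌋ : ℝ) := by exact_mod_cast h3
    push_cast at h4
    exact h4
  unfold dfl
  rw [abs_le, le_div_iff₀ hp, div_le_iff₀ hp]
  constructor <;> linarith

section

variable {F : Fam m J} {n a a₂ E : ℕ} {g : Fin n → ℕ} {c : ℕ → Fin m}
  {HA HB : LnT F → ℕ → MvPolynomial (Option (Fin m)) ℝ} {Vs Vs₂ : LnT F → Fin n → ℝ}

/-- The coefficient of the direction. -/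
noncomputable def rj (c : ℕ → Fin m) (a : ℕ) (g : Fin n → ℕ)
    (HA HB : LnT F → ℕ → MvPolynomial (Option (Fin m)) ℝ) (s : LnT F) (i : Fin n) : ℝ :=
  2 ^ g i / 2 ^ a * ncp c (i + 1) (frA n (HB s)) (HB s (i + 1) - HA s (i + 1)) 0 0

/-- **The coefficients of the label at the exact point.** -/
noncomputable def jj (c : ℕ → Fin m) (a E : ℕ) (g : Fin n → ℕ)
    (HA HB : LnT F → ℕ → MvPolynomial (Option (Fin m)) ℝ) (Vs₂ : LnT F → Fin n → ℝ) (s : LnT F)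
    (i : Fin n) (k : Fin 2) : ℝ :=
  if k = 0 then 2 ^ g i / 2 ^ a * Vs₂ s i - dfl E (s.1.2 (c 0)) * rj c a g HA HB s i
  else rj c a g HA HB s i

/-- The line of the coefficients. -/
theorem jj_self {ω : F.Ω} (hV : Vs₂ (slam F a₂ ω) = Vs (slam F a ω)) (i : Fin n) :
    |(wD Vs a g (slam F a ω) i : ℝ) - (jj c a E g HA HB Vs₂ (slam F a₂ ω) i 0 +
      dfl E (F.d ω (c 0)) * jj c a E g HA HB Vs₂ (slam F a₂ ω) i 1)| ≤ 1 := by
  unfold jj wD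
  rw [if_pos rfl, if_neg (by norm_num), hV]
  have e1 : (slam F a₂ ω).1.2 (c 0) = F.d ω (c 0) := rfl
  rw [e1]
  obtain ⟨X, hX⟩ : ∃ X : ℝ, X = 2 ^ g i / 2 ^ a * Vs (slam F a ω) i := ⟨_, rfl⟩
  rw [← hX]
  have h2 := Int.floor_le X
  have h3 := Int.lt_floor_add_one X
  rw [abs_le]
  constructor <;> linarith

/-- **Another line with the same labels.** -/
theorem jj_two {ω ω' : F.Ω} {U e τ : ℕ} {γ gb : ℕ → ℕ} {GA GB : ℕ → MvPolynomial (Option (Fin m)) ℝ}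
    {x : Option (Fin m) → ℝ} (hc : Set.InjOn c (Set.Iio (n + 1)))
    (hA : ∀ l, 1 ≤ l → l ≤ n → (GA l).totalDegree ≤ 1 ∧ DepC c l (GA l))
    (hB : ∀ l, 1 ≤ l → l ≤ n → (GB l).totalDegree ≤ 1 ∧ DepC c l (GB l))
    (hHA : ∀ l, 1 ≤ l → l ≤ n → HA (slam F a₂ ω) l = GA l)
    (hHB : ∀ l, 1 ≤ l → l ≤ n → HB (slam F a₂ ω) l = GB l)
    (hV : ∀ i : Fin n, Vs₂ (slam F a₂ ω) i = vlp F (c (i + 1)) (GA (i + 1)) ω)
    (hV' : ∀ i : Fin n, Vs (slam F a ω') i = vlp F (c (i + 1)) (GA (i + 1)) ω')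
    (hρ : ∀ i, 1 ≤ i → i ≤ n → ∀ j < i, |ncp c i (frA n GB) (GB i - GA i) x j| ≤
      2 ^ U * (2 ^ γ j / 2 ^ γ i))
    (hg : ∀ j, 1 ≤ j → j ≤ n → γ j + e ≤ gb j)
    (hω : ∀ j, 1 ≤ j → j ≤ n → |vlp F (c j) (GB j) ω| ≤ 2 ^ τ / 2 ^ gb j)
    (hω' : ∀ j, 1 ≤ j → j ≤ n → |vlp F (c j) (GB j) ω'| ≤ 2 ^ τ / 2 ^ gb j)
    {M y : ℕ} (hyM : y + 2 ≤ M)
    (h1 : ∀ i : Fin n, y + g i + U + n + τ + 3 ≤ M + a + γ (i + 1) + e)
    (h2 : ∀ i : Fin n, y + g i + U + γ 0 + 2 ≤ M + a + γ (i + 1) + E) (i : Fin n) :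
    (2 : ℝ) ^ y * |(wD Vs a g (slam F a ω') i : ℝ) - (jj c a E g HA HB Vs₂ (slam F a₂ ω) i 0 +
      dfl E (F.d ω' (c 0)) * jj c a E g HA HB Vs₂ (slam F a₂ ω) i 1)| ≤ 2 ^ M := by
  have hi := i.2
  have hn1 : (1 : ℕ) ≤ i + 1 := by omega
  have hn2 : (i : ℕ) + 1 ≤ n := by omega
  -- the coefficient of the direction
  obtain ⟨R, hR⟩ : ∃ R : ℝ, R = ncp c (i + 1) (frA n GB) (GB (i + 1) - GA (i + 1)) x 0 := ⟨_, rfl⟩
  have hfr : frA n (HB (slam F a₂ ω)) = frA n GB := by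
    funext l
    unfold frA
    split_ifs with h
    · exact hHB l h.1 h.2
    · rfl
  have hRj : rj c a g HA HB (slam F a₂ ω) i = 2 ^ g i / 2 ^ a * R := by
    unfold rj
    rw [hfr, hHB _ hn1 hn2, hHA _ hn1 hn2, hR]
    congr 1
    refine ncp_aff (hc.mono fun y hy => ?_) (frA_dep fun l h3 h4 => (hB l h3 h4).2)
      (frA_deg fun l h3 h4 => (hB l h3 h4).1) (fun b b' h3 h4 => ?_) ?_ _ _ _
    · rw [Set.mem_Iio] at hy ⊢
      omega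
    · rw [map_sub, map_sub, (hB _ hn1 hn2).2 b b' h3 h4, (hA _ hn1 hn2).2 b b' h3 h4]
    · exact (totalDegree_sub _ _).trans (max_le (hB _ hn1 hn2).1 (hA _ hn1 hn2).1)
  have hvel := vel_nat (r := n) (x := x) (i := i + 1) hc hA hB (T := 2 ^ τ) (by positivity) hn1 hn2
    (hρ (i + 1) hn1 hn2) (fun j h3 h4 => hg j h3 (by omega)) (fun j h3 h4 => hω j h3 (by omega))
    (fun j h3 h4 => hω' j h3 (by omega))
  rw [← hR] at hvel
  have hR0 : |R| ≤ 2 ^ U * (2 ^ γ 0 / 2 ^ γ (i + 1)) := by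
    rw [hR]
    exact hρ (i + 1) hn1 hn2 0 (by omega)
  obtain ⟨q, hq⟩ : ∃ q : ℝ, q = 2 ^ g i / 2 ^ a := ⟨_, rfl⟩
  have hq0 : 0 < q := by
    rw [hq]
    positivity
  have e1 : (slam F a₂ ω).1.2 (c 0) = F.d ω (c 0) := rfl
  have e2 : jj c a E g HA HB Vs₂ (slam F a₂ ω) i 0 + dfl E (F.d ω' (c 0)) *
      jj c a E g HA HB Vs₂ (slam F a₂ ω) i 1 = q * (vlp F (c (i + 1)) (GA (i + 1)) ω +
        (dfl E (F.d ω' (c 0)) - dfl E (F.d ω (c 0))) * R) := by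
    unfold jj
    rw [if_pos rfl, if_neg (by norm_num), hRj, e1, hV i, ← hq]
    ring
  rw [e2]
  have e3 : |(wD Vs a g (slam F a ω') i : ℝ) - q * vlp F (c (i + 1)) (GA (i + 1)) ω'| ≤ 1 := by
    unfold wD
    rw [hV' i, ← hq]
    obtain ⟨X, hX⟩ : ∃ X : ℝ, X = q * vlp F (c (i + 1)) (GA (i + 1)) ω' := ⟨_, rfl⟩
    rw [← hX]
    have h2 := Int.floor_le X
    have h3 := Int.lt_floor_add_one X
    rw [abs_le]
    constructor <;> linarith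
  have d1 := dfl_near E (F.d ω (c 0))
  have d2 := dfl_near E (F.d ω' (c 0))
  have e4 : |(F.d ω' (c 0) - F.d ω (c 0)) - (dfl E (F.d ω' (c 0)) - dfl E (F.d ω (c 0)))| ≤
      1 / 2 ^ E := by
    rw [abs_le]
    constructor <;> linarith [d1.1, d1.2, d2.1, d2.2]
  obtain ⟨P1, hP1⟩ : ∃ P1 : ℝ, P1 = 2 ^ (U + n + 1) * 2 ^ τ / 2 ^ (γ (i + 1) + e) := ⟨_, rfl⟩
  obtain ⟨P2, hP2⟩ : ∃ P2 : ℝ, P2 = 2 ^ U * (2 ^ γ 0 / 2 ^ γ (i + 1)) * (1 / 2 ^ E) := ⟨_, rfl⟩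
  have e5 : |R * ((F.d ω' (c 0) - F.d ω (c 0)) -
      (dfl E (F.d ω' (c 0)) - dfl E (F.d ω (c 0))))| ≤ P2 := by
    rw [abs_mul, hP2]
    exact mul_le_mul hR0 e4 (abs_nonneg _) (by positivity)
  rw [← hP1] at hvel
  have e6 : |(wD Vs a g (slam F a ω') i : ℝ) - q * (vlp F (c (i + 1)) (GA (i + 1)) ω +
      (dfl E (F.d ω' (c 0)) - dfl E (F.d ω (c 0))) * R)| ≤ 1 + q * (P1 + P2) := by
    have e7 : (wD Vs a g (slam F a ω') i : ℝ) - q * (vlp F (c (i + 1)) (GA (i + 1)) ω +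
        (dfl E (F.d ω' (c 0)) - dfl E (F.d ω (c 0))) * R) =
        ((wD Vs a g (slam F a ω') i : ℝ) - q * vlp F (c (i + 1)) (GA (i + 1)) ω') +
        q * ((vlp F (c (i + 1)) (GA (i + 1)) ω' - vlp F (c (i + 1)) (GA (i + 1)) ω -
          R * (F.d ω' (c 0) - F.d ω (c 0))) + R * ((F.d ω' (c 0) - F.d ω (c 0)) -
          (dfl E (F.d ω' (c 0)) - dfl E (F.d ω (c 0))))) := by ring
    rw [e7]
    refine (abs_add_le _ _).trans (add_le_add e3 ?_)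
    rw [abs_mul, abs_of_pos hq0]
    exact mul_le_mul_of_nonneg_left ((abs_add_le _ _).trans (add_le_add hvel e5)) hq0.le
  refine (mul_le_mul_of_nonneg_left e6 (by positivity)).trans ?_
  have f1 : (2 : ℝ) ^ y * 1 ≤ 2 ^ M / 4 := by
    rw [mul_one, le_div_iff₀ (by norm_num)]
    calc (2 : ℝ) ^ y * 4 = 2 ^ (y + 2) := by
          rw [pow_add]
          norm_num
      _ ≤ 2 ^ M := pow_le_pow_right₀ (by norm_num) hyM
  have f2 : (2 : ℝ) ^ y * (q * P1) ≤ 2 ^ M / 4 := by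
    rw [hq, hP1, le_div_iff₀ (by norm_num)]
    have g1 : (2 : ℝ) ^ y * (2 ^ g i / 2 ^ a * (2 ^ (U + n + 1) * 2 ^ τ / 2 ^ (γ (i + 1) + e))) * 4 =
        2 ^ (y + g i + U + n + τ + 3) / 2 ^ (a + γ (i + 1) + e) := by
      obtain ⟨V, hV⟩ : ∃ V : ℕ, V = U + n + 1 := ⟨_, rfl⟩
      rw [show y + g i + U + n + τ + 3 = y + g i + V + τ + 2 by omega, ← hV,
        show a + γ (i + 1) + e = a + (γ (i + 1) + e) by ring, pow_add _ _ 2, pow_add _ _ τ,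
        pow_add _ _ V, pow_add _ y, pow_add _ a]
      field_simp
      norm_num
    rw [g1, div_le_iff₀ (by positivity), ← pow_add]
    exact pow_le_pow_right₀ (by norm_num) (by have := h1 i; omega)
  have f3 : (2 : ℝ) ^ y * (q * P2) ≤ 2 ^ M / 4 := by
    rw [hq, hP2, le_div_iff₀ (by norm_num)]
    have g1 : (2 : ℝ) ^ y * (2 ^ g i / 2 ^ a * (2 ^ U * (2 ^ γ 0 / 2 ^ γ (i + 1)) * (1 / 2 ^ E))) *
        4 = 2 ^ (y + g i + U + γ 0 + 2) / 2 ^ (a + γ (i + 1) + E) := by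
      rw [pow_add _ _ 2, pow_add _ _ (γ 0), pow_add _ _ U, pow_add _ y, pow_add _ _ E,
        pow_add _ a]
      field_simp
      norm_num
    rw [g1, div_le_iff₀ (by positivity), ← pow_add]
    exact pow_le_pow_right₀ (by norm_num) (by have := h2 i; omega)
  have f4 : (2 : ℝ) ^ y * (1 + q * (P1 + P2)) =
      2 ^ y * 1 + 2 ^ y * (q * P1) + 2 ^ y * (q * P2) := by ring
  have f5 : (0 : ℝ) < 2 ^ M := by positivity
  rw [f4]
  linarith only [f1, f2, f3, f5]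

/-- **The field `J1`.** -/
theorem j1_of {p : F.Ω → ℝ} (hp : IsLaw p) {Φ : Type} {Fp : F.Ω → Φ}
    (hV : ∀ ω, 0 < p ω → Vs₂ (slam F a₂ ω) = Vs (slam F a ω)) {M y : ℕ} (hyM : y + 2 ≤ M) {δ : ℝ}
    (hδ : 0 ≤ δ) :
    Pe (Tau p Fp) (fun v => ∃ i, (2 : ℝ) ^ M < 2 ^ y * |(wD Vs a g (slam F a v.1) i : ℝ) -
      (jj c a E g HA HB Vs₂ (slam F a₂ v.1) i 0 +
        dfl E (F.d v.1 (c 0)) * jj c a E g HA HB Vs₂ (slam F a₂ v.1) i 1)|) ≤ δ := by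
  refine (pe_nul (fun v => (P1_law hp Fp).nonneg v) fun v hv => ?_).trans hδ
  rintro ⟨i, hi⟩
  have h1 := Pool.PR46.P1_pos hp Fp hv
  have h2 := jj_self (a := a) (E := E) (g := g) (c := c) (HA := HA) (HB := HB) (hV v.1 h1.1) i
  have h3 := mul_le_mul_of_nonneg_left h2 (by positivity : (0 : ℝ) ≤ 2 ^ y)
  have h4 : (2 : ℝ) ^ y * 1 ≤ 2 ^ M := by
    rw [mul_one]
    exact pow_le_pow_right₀ (by norm_num) (by omega)
  linarith only [hi, h3, h4]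

/-- **The field `J2`.** -/
theorem j2_of {p : F.Ω → ℝ} (hp : IsLaw p) {Φ : Type} {Fp : F.Ω → Φ} {U e τ : ℕ} {γ gb : ℕ → ℕ}
    {GA GB : PtT F → ℕ → MvPolynomial (Option (Fin m)) ℝ}
    (hc : Set.InjOn c (Set.Iio (n + 1)))
    (hA : ∀ y l, 1 ≤ l → l ≤ n → (GA y l).totalDegree ≤ 1 ∧ DepC c l (GA y l))
    (hB : ∀ y l, 1 ≤ l → l ≤ n → (GB y l).totalDegree ≤ 1 ∧ DepC c l (GB y l))
    (hHA : ∀ ω, 0 < p ω → ∀ l, 1 ≤ l → l ≤ n → HA (slam F a₂ ω) l = GA (ptr F J ω) l)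
    (hHB : ∀ ω, 0 < p ω → ∀ l, 1 ≤ l → l ≤ n → HB (slam F a₂ ω) l = GB (ptr F J ω) l)
    (hV : ∀ ω, 0 < p ω → ∀ i : Fin n, Vs (slam F a ω) i =
      vlp F (c (i + 1)) (GA (ptr F J ω) (i + 1)) ω)
    (hVV : ∀ ω, 0 < p ω → Vs₂ (slam F a₂ ω) = Vs (slam F a ω))
    (hρ : ∀ ω, 0 < p ω → ∀ i, 1 ≤ i → i ≤ n → ∀ j < i,
      |ncp c i (frA n (GB (ptr F J ω))) (GB (ptr F J ω) i - GA (ptr F J ω) i) (bt F ω) j| ≤
        2 ^ U * (2 ^ γ j / 2 ^ γ i))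
    (hg : ∀ j, 1 ≤ j → j ≤ n → γ j + e ≤ gb j)
    (hvel : ∀ ω, 0 < p ω → ∀ j, 1 ≤ j → j ≤ n →
      |vlp F (c j) (GB (ptr F J ω) j) ω| ≤ 2 ^ τ / 2 ^ gb j)
    -- the codes of the labels are functions of `Fp`
    (hFp : ∀ ω ω', 0 < p ω → 0 < p ω' → Fp ω = Fp ω' → ∀ l, 1 ≤ l → l ≤ n →
      GA (ptr F J ω) l = GA (ptr F J ω') l ∧ GB (ptr F J ω) l = GB (ptr F J ω') l)
    {M y : ℕ} (hyM : y + 2 ≤ M)
    (h1 : ∀ i : Fin n, y + g i + U + n + τ + 3 ≤ M + a + γ (i + 1) + e)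
    (h2 : ∀ i : Fin n, y + g i + U + γ 0 + 2 ≤ M + a + γ (i + 1) + E) {δ : ℝ} (hδ : 0 ≤ δ) :
    Pe (Tau p Fp) (fun v => ∃ i, (2 : ℝ) ^ M < 2 ^ y * |(wD Vs a g (slam F a v.2) i : ℝ) -
      (jj c a E g HA HB Vs₂ (slam F a₂ v.1) i 0 +
        dfl E (F.d v.2 (c 0)) * jj c a E g HA HB Vs₂ (slam F a₂ v.1) i 1)|) ≤ δ := by
  refine (pe_nul (fun v => (P1_law hp Fp).nonneg v) fun v hv => ?_).trans hδ
  rintro ⟨i, hi⟩
  obtain ⟨k1, k2, k3⟩ := Pool.PR46.P1_pos hp Fp hv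
  have k4 := hFp v.1 v.2 k1 k2 k3
  have h3 := jj_two (HA := HA) (HB := HB) (Vs := Vs) (Vs₂ := Vs₂) (g := g) (a := a) (a₂ := a₂)
    (E := E) (ω := v.1) (ω' := v.2) (GA := GA (ptr F J v.1)) (GB := GB (ptr F J v.1))
    (x := bt F v.1) hc (hA _) (hB _) (hHA v.1 k1) (hHB v.1 k1)
    (fun i => by rw [congrFun (hVV v.1 k1) i, hV v.1 k1 i])
    (fun i => by rw [hV v.2 k2 i, (k4 _ (by omega) (by have := i.2; omega)).1])
    (hρ v.1 k1) hg (hvel v.1 k1) (fun j a1 a2 => by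
      rw [(k4 j a1 a2).2]
      exact hvel v.2 k2 j a1 a2) hyM h1 h2 i
  linarith only [hi, h3]

end

/-! ### The side path -/

section

variable {F : Fam m J} {n a : ℕ} {g : Fin n → ℕ} {c : ℕ → Fin m}

/-- The side path: the position of `k` at the beginning of the window to `P` digits, the direction
to `E` digits. -/
noncomputable def cyq (k : Fin m) (a P E : ℕ) (s : LnT F) : ℤ × ℤ :=
  (⌊(2 : ℝ) ^ P * lpt a s (some k)⌋, ⌊(2 : ℝ) ^ E * s.1.2 k⌋)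

theorem cyq_dfl {k : Fin m} {P E : ℕ} {ω ω' : F.Ω}
    (h : cyq k a P E (slam F a ω) = cyq k a P E (slam F a ω')) :
    dfl E (F.d ω k) = dfl E (F.d ω' k) := by
  have h1 : ⌊(2 : ℝ) ^ E * F.d ω k⌋ = ⌊(2 : ℝ) ^ E * F.d ω' k⌋ := (Prod.ext_iff.1 h).2
  unfold dfl
  rw [h1]

theorem floor_near {P : ℕ} {x y : ℝ} (h : ⌊(2 : ℝ) ^ P * x⌋ = ⌊(2 : ℝ) ^ P * y⌋) :
    |x - y| ≤ 1 / 2 ^ P := by
  have h1 := dfl_near P x
  have h2 := dfl_near P y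
  have h3 : dfl P x = dfl P y := by
    unfold dfl
    rw [h]
  rw [h3] at h1
  rw [abs_le]
  constructor <;> linarith [h1.1, h1.2, h2.1, h2.2]

/-- The time since the beginning of the window. -/
theorem win_len (ha : a ≤ J) (ω : F.Ω) : |F.t ω - (F.T1 a ω : ℝ) / 2 ^ a| ≤ 1 / 2 ^ a := by
  have h3 : F.t ω - (F.T1 a ω : ℝ) / 2 ^ a =
      (Pool.T4E.vtf F a ω : ℝ) / 2 ^ (J - a) / 2 ^ a := by
    rw [Pool.T4E.vtf_rt ha ω, add_div, add_sub_cancel_left]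
  have h5 : (0 : ℝ) ≤ Pool.T4E.vtf F a ω := by exact_mod_cast Pool.T4E.vtf_nonneg ω
  have h6 : (Pool.T4E.vtf F a ω : ℝ) ≤ 2 ^ (J - a) := by
    exact_mod_cast (Pool.T4E.vtf_lt (a := a) ω).le
  have h7 : (Pool.T4E.vtf F a ω : ℝ) / 2 ^ (J - a) ≤ 1 := (div_le_one (by positivity)).2 h6
  rw [h3, abs_of_nonneg (by positivity)]
  exact div_le_div_of_nonneg_right h7 (by positivity)

/-- **The side path knows the position**, given the time: the error of the direction is multiplied by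
the window. -/
theorem cyq_pos (ha : a ≤ J) {k : Fin m} {P E : ℕ} {ω ω' : F.Ω} (ht : F.T ω = F.T ω')
    (h : cyq k a P E (slam F a ω) = cyq k a P E (slam F a ω')) :
    |F.x ω k - F.x ω' k| ≤ 1 / 2 ^ P + 1 / 2 ^ (E + a) := by
  have h1 : |lpt a (slam F a ω) (some k) - lpt a (slam F a ω') (some k)| ≤ 1 / 2 ^ P :=
    floor_near (Prod.ext_iff.1 h).1
  have h2 : |F.d ω k - F.d ω' k| ≤ 1 / 2 ^ E := floor_near (Prod.ext_iff.1 h).2
  have e1 : F.x ω k = lpt a (slam F a ω) (some k) + (F.t ω - (F.T1 a ω : ℝ) / 2 ^ a) * F.d ω k :=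
    bt_lpt F a ω (some k)
  have e2 : F.x ω' k = lpt a (slam F a ω') (some k) +
      (F.t ω' - (F.T1 a ω' : ℝ) / 2 ^ a) * F.d ω' k := bt_lpt F a ω' (some k)
  have e3 : F.t ω' = F.t ω := by
    unfold Fam.t
    rw [ht]
  have e4 : F.T1 a ω' = F.T1 a ω := by
    unfold Fam.T1
    rw [ht]
  rw [e3, e4] at e2
  have hσ1 := win_len ha ω
  obtain ⟨σ, hσ⟩ : ∃ σ : ℝ, σ = F.t ω - (F.T1 a ω : ℝ) / 2 ^ a := ⟨_, rfl⟩
  rw [← hσ] at e1 e2 hσ1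
  rw [e1, e2]
  have e5 : lpt a (slam F a ω) (some k) + σ * F.d ω k -
      (lpt a (slam F a ω') (some k) + σ * F.d ω' k) =
      (lpt a (slam F a ω) (some k) - lpt a (slam F a ω') (some k)) +
        σ * (F.d ω k - F.d ω' k) := by ring
  rw [e5]
  refine (abs_add_le _ _).trans (add_le_add h1 ?_)
  rw [abs_mul]
  calc |σ| * |F.d ω k - F.d ω' k| ≤ 1 / 2 ^ a * (1 / 2 ^ E) :=
        mul_le_mul hσ1 h2 (abs_nonneg _) (by positivity)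
    _ = 1 / 2 ^ (E + a) := by
        rw [pow_add]
        field_simp

/-- **The heights of two samples with the same labels**, at the same time, with near first
coordinates. -/
theorem hkz_pt {ω ω' : F.Ω} {U e τ : ℕ} {γ gb : ℕ → ℕ} {GA GB : ℕ → MvPolynomial (Option (Fin m)) ℝ}
    {x : Option (Fin m) → ℝ} (hc : Set.InjOn c (Set.Iio (n + 1)))
    (hA : ∀ l, 1 ≤ l → l ≤ n → (GA l).totalDegree ≤ 1 ∧ DepC c l (GA l))
    (hB : ∀ l, 1 ≤ l → l ≤ n → (GB l).totalDegree ≤ 1 ∧ DepC c l (GB l))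
    (hρ : ∀ i, 1 ≤ i → i ≤ n → ∀ j < i, |ncp c i (frA n GB) (GB i - GA i) x j| ≤
      2 ^ U * (2 ^ γ j / 2 ^ γ i))
    (hg : ∀ j, 1 ≤ j → j ≤ n → γ j + e ≤ gb j) (ht : F.T ω = F.T ω')
    (hω : ∀ j, 1 ≤ j → j ≤ n → |hgp F (c j) (GB j) ω| ≤ 2 ^ τ / 2 ^ gb j)
    (hω' : ∀ j, 1 ≤ j → j ≤ n → |hgp F (c j) (GB j) ω'| ≤ 2 ^ τ / 2 ^ gb j)
    {E : ℕ} (hy : |F.x ω (c 0) - F.x ω' (c 0)| ≤ 1 / 2 ^ E)
    (h1 : ∀ i : Fin n, g i + U + n + τ + 2 ≤ γ (i + 1) + e)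
    (h2 : ∀ i : Fin n, g i + U + γ 0 + 1 ≤ γ (i + 1) + E) (i : Fin n) :
    |2 ^ g i * hgp F (c (i + 1)) (GA (i + 1)) ω -
      2 ^ g i * hgp F (c (i + 1)) (GA (i + 1)) ω'| ≤ 1 := by
  have hi := i.2
  have hn1 : (1 : ℕ) ≤ i + 1 := by omega
  have hn2 : (i : ℕ) + 1 ≤ n := by omega
  have h3 := pos_nat (r := n) (x := x) (i := i + 1) hc hA hB (T := 2 ^ τ) (by positivity) hn1 hn2
    (hρ (i + 1) hn1 hn2) (fun j h3 h4 => hg j h3 (by omega)) ht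
    (fun j h3 h4 => hω j h3 (by omega)) (fun j h3 h4 => hω' j h3 (by omega))
  obtain ⟨R, hR⟩ : ∃ R : ℝ, R = ncp c (i + 1) (frA n GB) (GB (i + 1) - GA (i + 1)) x 0 := ⟨_, rfl⟩
  have hR0 : |R| ≤ 2 ^ U * (2 ^ γ 0 / 2 ^ γ (i + 1)) := by
    rw [hR]
    exact hρ (i + 1) hn1 hn2 0 (by omega)
  rw [← hR] at h3
  have h4 : |R * (F.x ω' (c 0) - F.x ω (c 0))| ≤ 2 ^ U * (2 ^ γ 0 / 2 ^ γ (i + 1)) * (1 / 2 ^ E) := by
    rw [abs_mul, abs_sub_comm (F.x ω' (c 0))]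
    exact mul_le_mul hR0 hy (abs_nonneg _) (by positivity)
  have h5 : |hgp F (c (i + 1)) (GA (i + 1)) ω' - hgp F (c (i + 1)) (GA (i + 1)) ω| ≤
      2 ^ (U + n + 1) * 2 ^ τ / 2 ^ (γ (i + 1) + e) +
        2 ^ U * (2 ^ γ 0 / 2 ^ γ (i + 1)) * (1 / 2 ^ E) := by
    rw [abs_le] at h3 h4 ⊢
    constructor <;> linarith only [h3.1, h3.2, h4.1, h4.2]
  rw [← mul_sub, abs_mul, abs_of_pos (by positivity : (0 : ℝ) < 2 ^ g i), abs_sub_comm]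
  refine (mul_le_mul_of_nonneg_left h5 (by positivity)).trans ?_
  have f1 : (2 : ℝ) ^ g i * (2 ^ (U + n + 1) * 2 ^ τ / 2 ^ (γ (i + 1) + e)) ≤ 1 / 2 := by
    rw [le_div_iff₀ (by norm_num)]
    have g1 : (2 : ℝ) ^ g i * (2 ^ (U + n + 1) * 2 ^ τ / 2 ^ (γ (i + 1) + e)) * 2 =
        2 ^ (g i + U + n + τ + 2) / 2 ^ (γ (i + 1) + e) := by
      obtain ⟨V, hV⟩ : ∃ V : ℕ, V = U + n + 1 := ⟨_, rfl⟩
      rw [show g i + U + n + τ + 2 = g i + V + τ + 1 by omega, ← hV, pow_succ, pow_add _ _ τ,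
        pow_add _ (g i)]
      ring
    rw [g1, div_le_one (by positivity)]
    exact pow_le_pow_right₀ (by norm_num) (h1 i)
  have f2 : (2 : ℝ) ^ g i * (2 ^ U * (2 ^ γ 0 / 2 ^ γ (i + 1)) * (1 / 2 ^ E)) ≤ 1 / 2 := by
    rw [le_div_iff₀ (by norm_num)]
    have g1 : (2 : ℝ) ^ g i * (2 ^ U * (2 ^ γ 0 / 2 ^ γ (i + 1)) * (1 / 2 ^ E)) * 2 =
        2 ^ (g i + U + γ 0 + 1) / 2 ^ (γ (i + 1) + E) := by
      rw [pow_add _ _ 1, pow_add _ _ (γ 0), pow_add _ (g i), pow_add _ _ E, pow_one]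
      field_simp
    rw [g1, div_le_one (by positivity)]
    exact pow_le_pow_right₀ (by norm_num) (h2 i)
  rw [mul_add]
  linarith only [f1, f2]

end

end Pool.T4J
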