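import Pool.Agent.H4.T4.Lbn

/-!
# Natural affine labels at finitely many windows

`Lbw`: affine closed labels of one window with natural relative gradients over the labels of the first
window, and a closed label of `c 0`. `lbw_one`, `lbw_ex`: on a part of every large event.
-/

set_option autoImplicit false

namespace Pool.T4J

open Finset Real MvPolynomial
open Pool.Agent.H49.Ent Pool.Agent.H32.Dense Pool.STK Pool.KA Pool.KSAT Pool.K2S Pool.PB Pool.S6C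
open Pool.GEN Pool.CHT Pool.CHX Pool.ISO
open Pool.D2R Pool.GF64
open Pool.RCD Pool.LA91
open Pool.GRD (LbP)
open Pool.GRW (tmc_bas)
open Pool.CDX (AffL)

variable {m : ℕ}

/-- A closed label of the place `c 0` of the degree `D`. -/
def Lb0 {J : ℕ} (F : Fam m J) (c : ℕ → Fin m) (D w P : ℕ) (B : F.Ω → Prop) : Prop :=
  ∃ (V : Type) (z : PtT F → V) (z' : LnT F → V) (G : V → MvPolynomial (Option (Fin m)) ℝ),
    LbP F ∅ (c 0) D J w P B z z' G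

/-- **Natural affine labels of the window `v`** over the labels `GA` of the window `t`, and a closed
label of `c 0`. `ε`: the loss. -/
structure Lbw {J : ℕ} (F : Fam m J) (c : ℕ → Fin m) (n D : ℕ) (sn : ℕ → ℝ → ℝ) (t ε : ℝ)
    (GA : PtT F → ℕ → MvPolynomial (Option (Fin m)) ℝ) (B : F.Ω → Prop) (v : ℝ) : Prop where
  lb : ∃ (GB : PtT F → ℕ → MvPolynomial (Option (Fin m)) ℝ)
    (HB : LnT F → ℕ → MvPolynomial (Option (Fin m)) ℝ),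
    LbN F c n B v (fun l => sn l t) (fun l => sn l v) ε GA GB HB
  l0 : Lb0 F c D ⌊v * J⌋₊ ⌊(sn 0 v - ε) * J⌋₊ B

theorem Lb0.sub {J : ℕ} {F : Fam m J} {c : ℕ → Fin m} {D w P : ℕ} {B B' : F.Ω → Prop}
    (h : Lb0 F c D w P B) (hB : Sub B' B) : Lb0 F c D w P B' := by
  obtain ⟨V, z, z', G, hl⟩ := h
  exact ⟨V, z, z', G, hl.sub hB⟩

theorem Lbw.sub {J : ℕ} {F : Fam m J} {c : ℕ → Fin m} {n D : ℕ} {sn : ℕ → ℝ → ℝ} {t ε v : ℝ}
    {GA : PtT F → ℕ → MvPolynomial (Option (Fin m)) ℝ} {B B' : F.Ω → Prop}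
    (h : Lbw F c n D sn t ε GA B v) (hB : Sub B' B) : Lbw F c n D sn t ε GA B' v := by
  obtain ⟨⟨GB, HB, h1⟩, h2⟩ := h
  exact ⟨⟨GB, HB, h1.sub hB⟩, h2.sub hB⟩

theorem Lbw.le {J : ℕ} {F : Fam m J} {c : ℕ → Fin m} {n D : ℕ} {sn : ℕ → ℝ → ℝ} {t ε ε' v : ℝ}
    {GA : PtT F → ℕ → MvPolynomial (Option (Fin m)) ℝ} {B : F.Ω → Prop}
    (h : Lbw F c n D sn t ε GA B v) (hε : ε ≤ ε') : Lbw F c n D sn t ε' GA B v := by
  obtain ⟨⟨GB, HB, h1⟩, V, z, z', G, h2⟩ := h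
  exact ⟨⟨GB, HB, h1.le hε⟩, V, z, z', G, h2.mono (Finset.Subset.refl _) le_rfl
    (Nat.floor_le_floor (mul_le_mul_of_nonneg_right (by linarith) (Nat.cast_nonneg J)))⟩

/-- The given labels of the window `t`, of the windows `bl l` and the precisions `pl l - e₀`. -/
def LbA {J : ℕ} (F : Fam m J) (c : ℕ → Fin m) (n : ℕ) (bl pl : ℕ → ℝ) (e₀ : ℝ) (A : F.Ω → Prop)
    (GA : PtT F → ℕ → MvPolynomial (Option (Fin m)) ℝ)
    (HA : LnT F → ℕ → MvPolynomial (Option (Fin m)) ℝ) : Prop :=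
  ∀ l, 1 ≤ l → l ≤ n → LbQ F c l ⌊bl l * J⌋₊ ⌊(pl l - e₀) * J⌋₊ A (fun y => GA y l) (fun s => HA s l)

theorem LbA.mono {J : ℕ} {F : Fam m J} {c : ℕ → Fin m} {n : ℕ} {bl pl : ℕ → ℝ} {e₀ e₁ : ℝ}
    {A : F.Ω → Prop} {GA : PtT F → ℕ → MvPolynomial (Option (Fin m)) ℝ}
    {HA : LnT F → ℕ → MvPolynomial (Option (Fin m)) ℝ} (h : LbA F c n bl pl e₀ A GA HA)
    (he : e₀ ≤ e₁) : LbA F c n bl pl e₁ A GA HA := by
  intro l h1 h2
  obtain ⟨V, z, z', G, hl, h3, h4⟩ := h l h1 h2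
  exact ⟨V, z, z', G, hl.mono (Finset.Subset.refl _) le_rfl
    (Nat.floor_le_floor (mul_le_mul_of_nonneg_right (by linarith) (Nat.cast_nonneg J))), h3, h4⟩

/-- **The levels between two windows.** `φ₀`: the gaps of the windows; `φ₁`: the errors of the
increments of the levels; `s'`: the largest slope; `θ`: the defect of the labels. -/
structure Lvl (S : PCl m) (c : ℕ → Fin m) (n : ℕ) (sn : ℕ → ℝ → ℝ) (G : Set ℝ) (t v φ₀ φ₁ s' θ : ℝ)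
    (bl pl : ℕ → ℝ) : Prop where
  tm : ∃ C₀, TmC S C₀
  ch : ∃ d, n ≤ d ∧ ChG S c d sn G
  inj : Set.InjOn c (Set.Iio (n + 1))
  tG : t ∈ G
  vG : v ∈ G
  tv : t ≤ v
  φ₀0 : 0 < φ₀
  φ₁0 : 0 ≤ φ₁
  s0 : 0 ≤ s'
  θ0 : 0 ≤ θ
  gap : ∀ x, t ≤ x → x ≤ v → ∃ w ∈ G, |w - x| ≤ φ₀
  inc : ∀ i, 1 ≤ i → i ≤ n → ∀ l < i, ∀ x ∈ G, ∀ x' ∈ G, t ≤ x → x ≤ x' → x' ≤ v →
    sn l x' - sn l x ≤ sn i x' - sn i x + φ₁
  slp : ∀ l < n, ∀ x ∈ G, ∀ x' ∈ G, t ≤ x → x ≤ x' → x' ≤ v → sn l x' - sn l x ≤ s' * (x' - x) + φ₁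
  fr : ∀ l, 1 ≤ l → l ≤ n → bl l ≤ t ∧ sn l t - θ ≤ pl l
  lab : ∀ w ∈ G, t ≤ w → w ≤ v → ∃ bl' pl' : ℕ → ℝ, ∀ l, 1 ≤ l → l ≤ n →
    bl' l ≤ w ∧ sn l w - θ ≤ pl' l ∧ AffL S ((range l).image c) (c l) (bl' l) (pl' l)

/-- **Natural affine labels of one window.** -/
theorem lbw_one {S : PCl m} {c : ℕ → Fin m} {n D : ℕ} {sn : ℕ → ℝ → ℝ} {G : Set ℝ}
    {t v φ₀ φ₁ s' θ : ℝ} {bl pl : ℕ → ℝ} (L : Lvl S c n sn G t v φ₀ φ₁ s' θ bl pl)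
    (h0 : ∀ e : ℝ, 0 < e → Bas S (fun J F A => Lb0 F c D ⌊v * J⌋₊ ⌊(sn 0 v - e) * J⌋₊ A))
    {ε : ℝ} (hε : 0 < ε) {η : ℝ} (hη : 0 < η) :
    ∃ e₀ : ℝ, 0 < e₀ ∧ Bas S (fun J F A => ∀ (GA : PtT F → ℕ → MvPolynomial (Option (Fin m)) ℝ)
      (HA : LnT F → ℕ → MvPolynomial (Option (Fin m)) ℝ), LbA F c n bl pl e₀ A GA HA →
      ∃ B : F.Ω → Prop, Sub B A ∧ (1 - η) * Pe F.p A ≤ Pe F.p B ∧
        Lbw F c n D sn t (ε + n * ((n + 1) * θ + (3 * s' * φ₀ + 2 * φ₁))) GA B v) := by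
  classical
  obtain ⟨C₀, htm⟩ := L.tm
  obtain ⟨d, hnd, hch⟩ := L.ch
  have hφ := L.φ₀0
  -- the windows
  obtain ⟨N₀, hN₀⟩ := exists_nat_ge ((v - t) / φ₀)
  obtain ⟨R, b, hb0, hbR, hb, hbs⟩ := gseq L.tG (show 2 * φ₀ < 3 * φ₀ by linarith) N₀ v L.vG L.tv
    (by
      rw [div_le_iff₀ hφ] at hN₀
      linarith) L.gap
  obtain ⟨z, hz⟩ : ∃ z : ℕ → ℝ, z = fun r => b (R - r) := ⟨_, rfl⟩
  have hz0 : z 0 = t := by
    rw [hz]
    simpa using hbR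
  have hzR : z R = v := by
    rw [hz]
    simpa using hb0
  have hzG : ∀ r ≤ R, z r ∈ G ∧ t ≤ z r ∧ z r ≤ v := fun r hr => by
    rw [hz]
    exact hb (R - r) (by omega)
  have hzs : ∀ r < R, z r ≤ z (r + 1) ∧ z (r + 1) ≤ z r + 3 * φ₀ := fun r hr => by
    have h1 := hbs (R - (r + 1)) (by omega)
    have e1 : R - (r + 1) + 1 = R - r := by omega
    rw [e1] at h1
    rw [hz]
    exact h1
  -- the labels
  have hex : ∀ w : ℝ, ∃ bl' pl' : ℕ → ℝ, w ∈ G → t ≤ w → w ≤ v → ∀ l, 1 ≤ l → l ≤ n →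
      bl' l ≤ w ∧ sn l w - θ ≤ pl' l ∧ AffL S ((range l).image c) (c l) (bl' l) (pl' l) := by
    intro w
    by_cases h : w ∈ G ∧ t ≤ w ∧ w ≤ v
    · obtain ⟨bl', pl', h1⟩ := L.lab w h.1 h.2.1 h.2.2
      exact ⟨bl', pl', fun _ _ _ => h1⟩
    · exact ⟨fun _ => 0, fun _ => 0, fun a b c => absurd ⟨a, b, c⟩ h⟩
  choose fb fp hf using hex
  obtain ⟨BL, hBL⟩ : ∃ BL : ℕ → ℕ → ℝ, BL = fun r => if r = 0 then bl else fb (z r) := ⟨_, rfl⟩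
  obtain ⟨PL, hPL⟩ : ∃ PL : ℕ → ℕ → ℝ, PL = fun r => if r = 0 then pl else fp (z r) := ⟨_, rfl⟩
  have hBL0 : BL 0 = bl := by
    rw [hBL]
    exact if_pos rfl
  have hPL0 : PL 0 = pl := by
    rw [hPL]
    exact if_pos rfl
  have hBL1 : ∀ r, 1 ≤ r → BL r = fb (z r) := fun r hr => by
    rw [hBL]
    exact if_neg (by omega)
  have hPL1 : ∀ r, 1 ≤ r → PL r = fp (z r) := fun r hr => by
    rw [hPL]
    exact if_neg (by omega)
  have hall : ∀ r ≤ R, ∀ l, 1 ≤ l → l ≤ n → BL r l ≤ z r ∧ sn l (z r) - θ ≤ PL r l := by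
    intro r hr l h1 h2
    rcases Nat.eq_zero_or_pos r with h3 | h3
    · subst h3
      rw [hBL0, hPL0, hz0]
      exact L.fr l h1 h2
    · rw [hBL1 r h3, hPL1 r h3]
      obtain ⟨k1, k2, k3⟩ := hzG r hr
      have k4 := hf (z r) k1 k2 k3 l h1 h2
      exact ⟨k4.1, k4.2.1⟩
  have hs' := L.s0
  have hφ1 := L.φ₁0
  have key := lab_cls htm hch hnd L.inj (R := R) (z := z) (fun r hr => (hzG r hr).1)
    (fun r hr => (hzs r hr).1) (bl := BL) (pl := PL) (fun r hr l a b => (hall r hr l a b).1)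
    (fun r h1 hr l a b => by
      rw [hBL1 r h1, hPL1 r h1]
      obtain ⟨k1, k2, k3⟩ := hzG r hr
      exact (hf (z r) k1 k2 k3 l a b).2.2) (θ := θ) (Y := 3 * s' * φ₀ + 2 * φ₁) L.θ0
    (by positivity) (fun r hr l a b => (hall r hr l a b).2) (by
      intro r hr q hq1 hq2 i h1 h2 l hl
      obtain ⟨k1, k2, k3⟩ := hzG 0 (Nat.zero_le _)
      obtain ⟨a1, a2, a3⟩ := hzG (r + 1) (by omega)
      obtain ⟨b1, b2, b3⟩ := hzG r (by omega)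
      obtain ⟨c1, c2⟩ := hzs r hr
      have hY0 : 0 ≤ 3 * s' * φ₀ := by positivity
      have e1 := L.inc i h1 h2 l hl (z 0) k1 (z (r + 1)) a1 k2 (by rw [hz0]; exact a2) a3
      have e2 := L.inc i h1 h2 l hl (z 0) k1 (z r) b1 k2 (by rw [hz0]; exact b2) b3
      have e3 := L.slp l (by omega) (z r) b1 (z (r + 1)) a1 b2 c1 a3
      have e4 : s' * (z (r + 1) - z r) ≤ s' * (3 * φ₀) :=
        mul_le_mul_of_nonneg_left (by linarith) hs'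
      rcases Nat.eq_or_lt_of_le hq1 with h3 | h3
      · subst h3
        linarith
      · have e5 : q = r + 1 := by omega
        subst e5
        linarith) hε hη
  obtain ⟨e₀, he₀, H⟩ := key
  have hεt : 0 < ε + n * ((n + 1) * θ + (3 * s' * φ₀ + 2 * φ₁)) := by
    have := L.θ0
    positivity
  refine ⟨e₀, he₀, Bas.mono 0 (H.and (h0 _ hεt)) ?_⟩
  rintro J - F A ⟨H, hl0⟩ GA HA hA
  rw [hBL0, hPL0] at H
  obtain ⟨B, GB, HB, hB, hmass, -, -, hl⟩ := H GA HA hA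
  have h1 := hl R le_rfl
  rw [hz0, hzR] at h1
  exact ⟨B, hB, hmass, ⟨_, _, h1⟩, hl0.sub hB⟩

/-- **Natural affine labels at finitely many windows.** -/
theorem lbw_ex {S : PCl m} {c : ℕ → Fin m} {n D : ℕ} {sn : ℕ → ℝ → ℝ} {G : Set ℝ}
    {t φ₀ φ₁ s' θ : ℝ} {bl pl : ℕ → ℝ} (hpos : ∀ (τ : ℝ) (J : ℕ) (F : Fam m J) (A : F.Ω → Prop),
      S.St τ J F A → 0 < Pe F.p A) {K : ℕ} {vs : ℕ → ℝ}
    (L : ∀ k < K, Lvl S c n sn G t (vs k) φ₀ φ₁ s' θ bl pl)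
    (h0 : ∀ k < K, ∀ e : ℝ, 0 < e →
      Bas S (fun J F A => Lb0 F c D ⌊vs k * J⌋₊ ⌊(sn 0 (vs k) - e) * J⌋₊ A))
    {ε : ℝ} (hε : 0 < ε) {η : ℝ} (hη : 0 < η) :
    ∃ e₀ : ℝ, 0 < e₀ ∧ Bas S (fun J F A => ∀ (GA : PtT F → ℕ → MvPolynomial (Option (Fin m)) ℝ)
      (HA : LnT F → ℕ → MvPolynomial (Option (Fin m)) ℝ), LbA F c n bl pl e₀ A GA HA →
      ∃ B : F.Ω → Prop, Sub B A ∧ (1 - η) * Pe F.p A ≤ Pe F.p B ∧ ∀ k < K,
        Lbw F c n D sn t (ε + n * ((n + 1) * θ + (3 * s' * φ₀ + 2 * φ₁))) GA B (vs k)) := by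
  classical
  obtain ⟨η', hη'⟩ : ∃ η' : ℝ, η' = η / (K + 1) := ⟨_, rfl⟩
  have hη0 : 0 < η' := by
    rw [hη']
    positivity
  have key : ∀ k' ≤ K, ∃ e₀ : ℝ, 0 < e₀ ∧ Bas S (fun J F A =>
      ∀ (GA : PtT F → ℕ → MvPolynomial (Option (Fin m)) ℝ)
      (HA : LnT F → ℕ → MvPolynomial (Option (Fin m)) ℝ), LbA F c n bl pl e₀ A GA HA →
      ∃ B : F.Ω → Prop, Sub B A ∧ (1 - k' * η') * Pe F.p A ≤ Pe F.p B ∧ ∀ k < k',
        Lbw F c n D sn t (ε + n * ((n + 1) * θ + (3 * s' * φ₀ + 2 * φ₁))) GA B (vs k)) := by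
    intro k'
    induction k' with
    | zero =>
      intro _
      refine ⟨1, one_pos, 1, one_pos, 0, fun J _ F A _ GA HA _ => ⟨A, fun _ h => h, ?_,
        fun k hk => absurd hk (Nat.not_lt_zero k)⟩⟩
      rw [Nat.cast_zero, zero_mul, sub_zero, one_mul]
    | succ k' ih =>
      intro hk
      obtain ⟨e₁, he₁, H₁⟩ := ih (by omega)
      obtain ⟨e₂, he₂, H₂⟩ := lbw_one (L k' (by omega)) (h0 k' (by omega)) hε hη0
      refine ⟨min e₁ e₂, lt_min he₁ he₂, Bas.mono 0 ((H₁.and H₂).and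
        ⟨1, one_pos, 0, fun J _ F A hA => hpos 1 J F A hA⟩) ?_⟩
      rintro J - F A ⟨⟨h1, h2⟩, hA⟩ GA HA hl
      obtain ⟨B₁, a1, a2, a3⟩ := h1 GA HA (hl.mono (min_le_left _ _))
      obtain ⟨B₂, b1, b2, b3⟩ := h2 GA HA (hl.mono (min_le_right _ _))
      refine ⟨fun ω => B₁ ω ∧ B₂ ω, fun ω h => a1 ω h.1, ?_, fun k hk' => ?_⟩
      · have e1 := Pe_parts (p := F.p) (B := A) (B' := B₁) a1
        have e2 := Pe_parts (p := F.p) (B := A) (B' := B₂) b1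
        have e3 := Pe_parts (p := F.p) (B := A) (B' := fun ω => B₁ ω ∧ B₂ ω) fun ω h => a1 ω h.1
        have e4 : Pe F.p (fun ω => A ω ∧ ¬ (B₁ ω ∧ B₂ ω)) ≤
            Pe F.p (fun ω => A ω ∧ ¬ B₁ ω) + Pe F.p (fun ω => A ω ∧ ¬ B₂ ω) := by
          rw [Pool.DIR21.Pe_ci, Pool.DIR21.Pe_ci, Pool.DIR21.Pe_ci, ← Finset.sum_add_distrib]
          refine Finset.sum_le_sum fun ω _ => ?_
          have h0 := F.isLaw.nonneg ω
          have k1 := Pool.DIR21.ci_nonneg (A ω ∧ ¬ B₁ ω)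
          have k2 := Pool.DIR21.ci_nonneg (A ω ∧ ¬ B₂ ω)
          rw [← mul_add]
          refine mul_le_mul_of_nonneg_left ?_ h0
          by_cases hc : A ω ∧ ¬ (B₁ ω ∧ B₂ ω)
          · rw [Pool.DIR21.ci1 hc]
            by_cases hc1 : B₁ ω
            · have hc2 : A ω ∧ ¬ B₂ ω := ⟨hc.1, fun h => hc.2 ⟨hc1, h⟩⟩
              rw [Pool.DIR21.ci1 hc2]
              linarith
            · rw [Pool.DIR21.ci1 (show A ω ∧ ¬ B₁ ω from ⟨hc.1, hc1⟩)]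
              linarith
          · rw [Pool.DIR21.ci0 hc]
            linarith
        push_cast
        linarith
      · rcases Nat.lt_or_ge k k' with h | h
        · exact (a3 k h).sub fun ω h => h.1
        · rw [show k = k' by omega]
          exact b3.sub fun ω h => h.2
  obtain ⟨e₀, he₀, H⟩ := key K le_rfl
  refine ⟨e₀, he₀, Bas.mono 0 H ?_⟩
  intro J _ F A h GA HA hl
  obtain ⟨B, h1, h2, h3⟩ := h GA HA hl
  refine ⟨B, h1, le_trans (mul_le_mul_of_nonneg_right ?_ (Pe_nonneg F.isLaw A)) h2, h3⟩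
  have e1 : (K : ℝ) * η' ≤ η := by
    rw [hη', mul_div_assoc', div_le_iff₀ (by positivity)]
    nlinarith
  linarith

end Pool.T4J
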