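import Pool.Agent.H48.T4X.Ltr
import Pool.Agent.H4.T4.Lbw
import Pool.Agent.H4.T4.Frd

/-!
# Natural affine labels over the affine frame, in the letters of the last step

`frG`, `frH`: the labels of the frame, indexed by the places. `Lbx`: natural affine labels of a window
over the frame, and a closed label of `c 0`; hereditary. `lbx_ex`: on a part of every large event, at
finitely many windows.
-/

set_option autoImplicit false

namespace Pool.T4J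

open Finset Real MvPolynomial
open Pool.Agent.H49.Ent Pool.Agent.H32.Dense
open Pool.STK hiding pr2
open Pool.KA Pool.KSAT Pool.K2S Pool.PB Pool.S6C
open Pool.GEN Pool.CHT Pool.CHX Pool.ISO
open Pool.D2R Pool.GF64
open Pool.RCD Pool.LA91
open Pool.GRD (LbP)
open Pool.CDX (AffL)
open Pool.T4N (Frm FrmP AffAt fX fV fXs fVs)
open Pool.T4X (Cx lw lp)
open Pool.V0F (LbE)

variable {m J : ℕ}

/-- The labels of the frame, as functions of the exact point. -/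
noncomputable def frG {F : Fam m J} (Fr : Frm F) (y : PtT F) (l : ℕ) :
    MvPolynomial (Option (Fin m)) ℝ :=
  if h : 1 ≤ l ∧ l ≤ 3 then (fun i : Fin 3 => Fr.G i (Fr.z i y)) ⟨l - 1, by omega⟩ else 0

/-- The labels of the frame, as functions of the line with the window of the label. -/
noncomputable def frH {F : Fam m J} (Fr : Frm F) (s : LnT F) (l : ℕ) :
    MvPolynomial (Option (Fin m)) ℝ :=
  if h : 1 ≤ l ∧ l ≤ 3 then (fun i : Fin 3 => Fr.G i (Fr.z' i s)) ⟨l - 1, by omega⟩ else 0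

theorem frG_in {F : Fam m J} (Fr : Frm F) (y : PtT F) (i : Fin 3) :
    frG Fr y (1 + i) = Fr.G i (Fr.z i y) := by
  have hi := i.2
  have e : (⟨1 + (i : ℕ) - 1, by omega⟩ : Fin 3) = i := Fin.ext (by simp)
  unfold frG
  rw [dif_pos ⟨by omega, by omega⟩]
  exact congrArg (fun i : Fin 3 => Fr.G i (Fr.z i y)) e

theorem frH_in {F : Fam m J} (Fr : Frm F) (s : LnT F) (i : Fin 3) :
    frH Fr s (1 + i) = Fr.G i (Fr.z' i s) := by
  have hi := i.2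
  have e : (⟨1 + (i : ℕ) - 1, by omega⟩ : Fin 3) = i := Fin.ext (by simp)
  unfold frH
  rw [dif_pos ⟨by omega, by omega⟩]
  exact congrArg (fun i : Fin 3 => Fr.G i (Fr.z' i s)) e

/-- The frame as given labels. -/
theorem lba_of {F : Fam m J} {c : ℕ → Fin m} {bl pl : ℕ → ℝ} {e₀ : ℝ} {A : F.Ω → Prop}
    {Fr : Frm F} (h : FrmP F c (fun i => ⌊bl i * J⌋₊) (fun i => ⌊(pl i - e₀) * J⌋₊) A Fr) :
    LbA F c 3 (fun l => bl (l - 1)) (fun l => pl (l - 1)) e₀ A (frG Fr) (frH Fr) := by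
  intro l h1 h2
  obtain ⟨i, hi⟩ : ∃ i : Fin 3, 1 + (i : ℕ) = l := ⟨⟨l - 1, by omega⟩, by simp; omega⟩
  subst hi
  have e1 : 1 + (i : ℕ) - 1 = i := by omega
  show LbQ F c (1 + (i : ℕ)) ⌊bl (1 + (i : ℕ) - 1) * J⌋₊ ⌊(pl (1 + (i : ℕ) - 1) - e₀) * J⌋₊ A _ _
  rw [e1]
  exact ⟨Fr.V i, Fr.z i, Fr.z' i, Fr.G i, h.lab i, fun y => frG_in Fr y i, fun s => frH_in Fr s i⟩

/-- **Natural affine labels of the window `v`** over the frame, and a closed label of `c 0`. -/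
def Lbx (X : Cx) (ε : ℝ) {J : ℕ} (F : Fam 4 J) (B : F.Ω → Prop) (Fr : Frm F) (v : ℝ) : Prop :=
  Lbw F X.c 3 X.D X.sn X.t ε (frG Fr) B v

theorem Lbx.sub {X : Cx} {ε : ℝ} {F : Fam 4 J} {B B' : F.Ω → Prop} {Fr : Frm F} {v : ℝ}
    (h : Lbx X ε F B Fr v) (hB : Sub B' B) : Lbx X ε F B' Fr v := Lbw.sub h hB

theorem Lbx.le {X : Cx} {ε ε' : ℝ} {F : Fam 4 J} {B : F.Ω → Prop} {Fr : Frm F} {v : ℝ}
    (h : Lbx X ε F B Fr v) (hε : ε ≤ ε') : Lbx X ε' F B Fr v := Lbw.le h hε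

/-- **The levels of a class.** -/
theorem lvl_cx {X : Cx} {s hr T N₀ Λ e κ₀ : ℝ} {L : ℕ} (H : X.Ok s hr T N₀ Λ e κ₀ L) (hs : 1 < s)
    (he : 0 ≤ e) (hΛ : 0 ≤ Λ) {v : ℝ} (hv : v ∈ X.G) (htv : X.t ≤ v) (hvΛ : v ≤ X.t + Λ * X.q) :
    Lvl X.S X.c 3 X.sn X.G X.t v X.φ (3 * X.φ) s (e * X.q) (fun l => X.bl (l - 1))
      (fun l => X.pl (l - 1)) := by
  have Bx := H.box
  have LL := Bx.lad
  have hq := Bx.u0
  have hΛq : 0 ≤ Λ * X.q := mul_nonneg hΛ hq.le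
  have hbt : X.b ≤ X.t := by linarith [Bx.bw]
  have hto : X.t + Λ * X.q ≤ X.o := Bx.wo
  have hφ := LL.φ0
  refine ⟨LL.tm, ⟨3, le_rfl, LL.ch⟩, LL.inj, Bx.wG, hv, htv, hφ, by linarith, by linarith,
    mul_nonneg he hq.le, fun x h1 h2 => LL.gap x (hbt.trans h1) (by linarith), ?_, ?_, ?_, ?_⟩
  · intro i h1 h2 l hl x hx x' hx' g1 g2 g3
    have hbx : X.b ≤ x := hbt.trans g1
    have hxo : x' ≤ X.o := by linarith
    rcases Nat.eq_zero_or_pos l with h3 | h3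
    · subst h3
      have e1 := LL.fl 0 (by norm_num) x hx hbx (g2.trans hxo)
      have e2 := LL.fl 0 (by norm_num) x' hx' (hbx.trans g2) hxo
      have e3 := LL.st i h1 (by omega) x hx x' hx' hbx g2 hxo
      rw [abs_le] at e1 e2
      linarith [e1.1, e1.2, e2.1, e2.2]
    · have e1 := LL.eqa (l := l) h3 (by omega) x hx x' hx' hbx g2 hxo
      have e2 := LL.eqa (l := i) h1 (by omega) x hx x' hx' hbx g2 hxo
      rw [abs_le] at e1 e2
      linarith [e1.1, e1.2, e2.1, e2.2]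
  · intro l hl x hx x' hx' g1 g2 g3
    have hbx : X.b ≤ x := hbt.trans g1
    have hxo : x' ≤ X.o := by linarith
    rcases Nat.eq_zero_or_pos l with h3 | h3
    · subst h3
      have e1 := LL.fl 0 (by norm_num) x hx hbx (g2.trans hxo)
      have e2 := LL.fl 0 (by norm_num) x' hx' (hbx.trans g2) hxo
      have e3 : 1 * (x' - x) ≤ s * (x' - x) := mul_le_mul_of_nonneg_right hs.le (by linarith)
      rw [abs_le] at e1 e2
      linarith [e1.1, e1.2, e2.1, e2.2]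
    · have e1 := Bx.lin l h3 (by omega) x hx hbx (g2.trans hxo)
      have e2 := Bx.lin l h3 (by omega) x' hx' (hbx.trans g2) hxo
      have e3 : s * (x' - x) = s * (x' - X.t) - s * (x - X.t) := by ring
      rw [abs_le] at e1 e2
      linarith [e1.1, e1.2, e2.1, e2.2]
  · intro l h1 h2
    have h3 := H.fr (l - 1) (by omega)
    rw [show 1 + (l - 1) = l by omega] at h3
    exact ⟨h3.1, h3.2.1⟩
  · intro w hw h1 h2
    obtain ⟨bl', pl', h3⟩ := H.lab w hw h1 (by linarith)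
    refine ⟨fun l => bl' (l - 1), fun l => pl' (l - 1), fun l g1 g2 => ?_⟩
    have h4 := h3 (l - 1) (by omega)
    rw [show 1 + (l - 1) = l by omega] at h4
    exact h4

/-- The closed label of `c 0` of a box. -/
theorem l0_cx {X : Cx} {s hr T N₀ Λ e κ₀ : ℝ} {L : ℕ} (H : X.Ok s hr T N₀ Λ e κ₀ L)
    (hΛ : 0 ≤ Λ) {v : ℝ} (hv : v ∈ X.G) (htv : X.t ≤ v) (hvΛ : v ≤ X.t + Λ * X.q) {e' : ℝ}
    (he' : 0 < e') :
    Bas X.S (fun J F A => Lb0 F X.c X.D ⌊v * J⌋₊ ⌊(X.sn 0 v - e') * J⌋₊ A) := by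
  have Bx := H.box
  have hΛq : 0 ≤ Λ * X.q := mul_nonneg hΛ Bx.u0.le
  obtain ⟨E, rd, ρ, -, -, h1⟩ := Bx.lab v hv (by linarith [Bx.bw]) (by linarith [Bx.wo])
  refine Bas.mono 0 (h1 e' he') ?_
  rintro J - F A ⟨V, z, z', g, hl⟩
  have h2 := LbP.of (hl 0 (by norm_num))
  rw [show (range 0).image X.c = ∅ by simp] at h2
  exact ⟨V, z, z', _, h2⟩

/-- **Natural affine labels at finitely many windows**, on a part of every large event. -/
theorem lbx_ex {X : Cx} {s hr T N₀ Λ e κ₀ : ℝ} {L : ℕ} (H : X.Ok s hr T N₀ Λ e κ₀ L) (hs : 1 < s)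
    (he : 0 < e) (hΛ : 0 ≤ Λ) {K : ℕ} {vs : ℕ → ℝ}
    (hvs : ∀ k < K, vs k ∈ X.G ∧ X.t ≤ vs k ∧ vs k ≤ X.t + Λ * X.q) {ε : ℝ}
    (hε : (9 * s + 31) * (e * X.q) ≤ ε) {η : ℝ} (hη : 0 < η) :
    ∃ e₀ : ℝ, 0 < e₀ ∧ Bas X.S (fun J F A => ∀ Fr : Frm F, FrmP F X.c (lw X J) (lp X e₀ J) A Fr →
      ∃ B : F.Ω → Prop, Sub B A ∧ (1 - η) * Pe F.p A ≤ Pe F.p B ∧ ∀ k < K, Lbx X ε F B Fr (vs k)) := by
  have hq := H.box.u0
  have heq : 0 < e * X.q := mul_pos he hq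
  have hφ := H.φe
  obtain ⟨e₀, he₀, h1⟩ := lbw_ex (D := X.D) H.pos (K := K) (vs := vs)
    (fun k hk => lvl_cx H hs he.le hΛ (hvs k hk).1 (hvs k hk).2.1 (hvs k hk).2.2)
    (fun k hk e' he' => l0_cx H hΛ (hvs k hk).1 (hvs k hk).2.1 (hvs k hk).2.2 he') heq hη
  refine ⟨e₀, he₀, Bas.mono 0 h1 ?_⟩
  intro J _ F A h2 Fr hFr
  obtain ⟨B, h3, h4, h5⟩ := h2 (frG Fr) (frH Fr) (lba_of hFr)
  refine ⟨B, h3, h4, fun k hk => (h5 k hk).le ?_⟩
  have e1 : s * X.φ ≤ s * (e * X.q) := mul_le_mul_of_nonneg_left hφ (by linarith)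
  push_cast
  linarith

end Pool.T4J
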