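import Pool.Agent.H4.T4.Stair
import Pool.Agent.H91.LA.Grad
import Pool.Agent.H71.CDX.Cdl

/-!
# The gradients of the difference of two closed labels

`dd_cls`: at one window, over affine labels of the first places which may have a smaller precision
than the levels of the chain.
-/

set_option autoImplicit false

namespace Pool.T4J

open Finset Real MvPolynomial
open Pool.Agent.H49.Ent Pool.Agent.H32.Dense Pool.STK Pool.KA Pool.KSAT Pool.K2S Pool.PB Pool.S6C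
open Pool.GEN Pool.CHT Pool.CHX Pool.ISO
open Pool.D2R Pool.GF64
open Pool.RCD Pool.LA91
open Pool.GRD (LbP)
open Pool.BFL (Pb)
open Pool.LIV (Pb_mono25 Pb_or25 Pb_ex25)
open Pool.GRW (tmc_bas)

variable {m : ℕ}

theorem lim_le {x C Y : ℝ} (hC : 0 ≤ C) (h : ∀ δ : ℝ, 0 < δ → x ≤ C * (Y + δ)) : x ≤ C * Y := by
  refine le_of_forall_pos_le_add fun ε hε => ?_
  have h1 := h (ε / (C + 1)) (by positivity)
  have h2 : C * (ε / (C + 1)) ≤ ε := by
    rw [mul_div_assoc', div_le_iff₀ (by positivity)]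
    nlinarith
  calc x ≤ C * (Y + ε / (C + 1)) := h1
    _ = C * Y + C * (ε / (C + 1)) := by ring
    _ ≤ C * Y + ε := by linarith

/-- The first jet over a polynomial. -/
theorem jet1_dd (Q : MvPolynomial (Option (Fin m)) ℝ) (b V : Option (Fin m) → ℝ) :
    jet 1 Q b V = dd Q b V := by
  rw [jet_one]
  unfold dd
  exact Finset.sum_congr rfl fun o _ => mul_comm _ _

theorem jet1_X (k : Fin m) (Q : MvPolynomial (Option (Fin m)) ℝ) (b V : Option (Fin m) → ℝ) :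
    jet 1 (X (some k) - Q) b V = V (some k) - dd Q b V := by
  rw [jet1_dd, dd_sub, dd_X']

/-- **The gradients of two closed labels** are near, along vectors which are natural over the labels
`g` of the first places. -/
def DdB (S : PCl m) (c : ℕ → Fin m) (n : ℕ) (w : ℝ) (s : ℕ → ℝ) (ε e₁ : ℝ) : Prop :=
  ∀ (K : ℕ) (η : ℝ), 0 < η → Bas S (fun J F A =>
    ∀ (k : Fin m) (P₁ P₂ : ℕ) (V V₁ V₂ : Type)
      (z : PtT F → V) (z' : LnT F → V) (g : V → ℕ → MvPolynomial (Option (Fin m)) ℝ)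
      (z₁ : PtT F → V₁) (z₁' : LnT F → V₁) (G₁ : V₁ → MvPolynomial (Option (Fin m)) ℝ)
      (z₂ : PtT F → V₂) (z₂' : LnT F → V₂) (G₂ : V₂ → MvPolynomial (Option (Fin m)) ℝ),
      (∀ i < n, LbP F ((range i).image c) (c i) K J ⌊w * J⌋₊ ⌊(s i - e₁) * J⌋₊ A z z'
        (fun v => g v i)) →
      LbP F ((range n).image c) k K J ⌊w * J⌋₊ P₁ A z₁ z₁' G₁ →
      LbP F ((range n).image c) k K J ⌊w * J⌋₊ P₂ A z₂ z₂' G₂ →
      Pb (Pool.Agent.H49.Ent.cond F.p A True) (fun ω =>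
        ¬ ∀ (W : Option (Fin m) → ℝ) (M : ℝ), W none = 0 → 0 < M →
          (∀ i < n, |W (some (c i)) - dd (g (z' (slam F ⌊w * J⌋₊ ω)) i) (bt F ω) W| ≤
            M * 2 ^ (-s i * J)) →
          |dd (G₁ (z₁' (slam F ⌊w * J⌋₊ ω)) - G₂ (z₂' (slam F ⌊w * J⌋₊ ω))) (bt F ω) W| ≤
            2 ^ (ε * J) * (1 / 2 ^ P₁ + 1 / 2 ^ P₂) * M) ≤ η)

theorem ddb_of {S : PCl m} {C₀ : ℝ} (htm : TmC S C₀) {c : ℕ → Fin m} {n : ℕ}
    {w u₁ : ℝ} {s rd : ℕ → ℝ} (hch : Chn S c 0 n w w u₁ s rd) {ε : ℝ} (hε : 0 < ε) :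
    ∃ e₁ : ℝ, 0 < e₁ ∧ DdB S c n w s ε e₁ := by
  obtain ⟨e₁, he₁, H⟩ := jet_cls htm hch 1 hε
  refine ⟨e₁, he₁, fun K η hη => Bas.mono 0 ((H K η hη).and (tmc_bas htm one_pos)) ?_⟩
  rintro J - F A ⟨h, hA, -⟩ k P₁ P₂ V V₁ V₂ z z' g z₁ z₁' G₁ z₂ z₂' G₂ hf h1 h2
  have hq := isLaw_cond F.isLaw hA
  have b1 := h k P₁ P₂ V V₁ V₂ z z' g z₁ z₁' G₁ z₂ z₂' G₂ (fun i _ hi => hf i hi) h1 h2
  refine le_trans (Pb_mono25 hq.nonneg fun ω hω hn => ?_) b1
  intro hall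
  refine hn fun W M hW hM hi => ?_
  have h3 := hall W M hM (by
    rw [hW, abs_zero]
    exact mul_nonneg hM.le (E_pos J _).le) (fun l hl => absurd hl (Nat.not_lt_zero l))
    (fun i _ hin j' hj1 hj2 => by
      have e1 : j' = 1 := by omega
      rw [e1, pow_one, jet1_X]
      exact hi i hin) 1 le_rfl
  rw [jet1_dd, pow_one] at h3
  exact h3

/-- Natural components over natural labels from components over affine ones. -/
theorem cmp_ind {c : ℕ → Fin m} {r : ℕ} {L g : ℕ → MvPolynomial (Option (Fin m)) ℝ}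
    {x W : Option (Fin m) → ℝ} {σ : ℕ → ℝ} (hσ : ∀ l < r, 0 < σ l) {Bc : ℝ} (hB : 1 ≤ Bc)
    (hd0 : dd (g 0) x W = 0)
    (h : ∀ n, 1 ≤ n → n < r → ∀ M : ℝ, 0 < M →
      (∀ i < n, |W (some (c i)) - dd (g i) x W| ≤ M * (1 / σ i)) →
      σ n * |dd (L n - g n) x W| ≤ Bc * M) :
    ∀ n < r, σ n * |W (some (c n)) - dd (g n) x W| ≤
      Bc ^ n * ∑ l ∈ range (n + 1), σ l * |cmp c L x W l| := by
  have hB0 : 0 < Bc := by linarith
  intro n
  induction n using Nat.strong_induction_on with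
  | _ n ih =>
    intro hn
    rcases Nat.eq_zero_or_pos n with h0 | h0
    · subst h0
      rw [hd0, sub_zero, pow_zero, one_mul, zero_add, Finset.sum_range_one]
      unfold cmp
      rw [if_pos rfl]
    · obtain ⟨T, hT⟩ : ∃ T : ℝ, T = ∑ l ∈ range n, σ l * |cmp c L x W l| := ⟨_, rfl⟩
      have hterm : ∀ l < r, 0 ≤ σ l * |cmp c L x W l| := fun l hl =>
        mul_nonneg (hσ l hl).le (abs_nonneg _)
      have hT0 : 0 ≤ T := by
        rw [hT]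
        exact Finset.sum_nonneg fun l hl => hterm l (by have := Finset.mem_range.1 hl; omega)
      have h1 : σ n * |dd (L n - g n) x W| ≤ Bc * (Bc ^ (n - 1) * T) := by
        refine lim_le hB0.le fun δ hδ => h n h0 hn _ (by positivity) fun i hi => ?_
        have h2 := ih i hi (by omega)
        have h3 : ∑ l ∈ range (i + 1), σ l * |cmp c L x W l| ≤ T := by
          rw [hT]
          exact Finset.sum_le_sum_of_subset_of_nonneg (Finset.range_subset_range.2 (by omega))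
            fun l hl _ => hterm l (by have := Finset.mem_range.1 hl; omega)
        have h4 : Bc ^ i ≤ Bc ^ (n - 1) := pow_le_pow_right₀ hB (by omega)
        have h5 : σ i * |W (some (c i)) - dd (g i) x W| ≤ Bc ^ (n - 1) * T :=
          h2.trans (mul_le_mul h4 h3 (Finset.sum_nonneg fun l hl =>
            hterm l (by have := Finset.mem_range.1 hl; omega)) (by positivity))
        have hσi := hσ i (by omega)
        rw [mul_one_div, le_div_iff₀ hσi]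
        linarith
      have h2 : |W (some (c n)) - dd (g n) x W| ≤ |cmp c L x W n| + |dd (L n - g n) x W| := by
        have e1 : W (some (c n)) - dd (g n) x W = cmp c L x W n + dd (L n - g n) x W := by
          unfold cmp
          rw [if_neg (by omega), dd_sub]
          ring
        rw [e1]
        exact abs_add_le _ _
      have h3 := mul_le_mul_of_nonneg_left h2 (hσ n hn).le
      rw [mul_add] at h3
      rw [Finset.sum_range_succ, ← hT, mul_add]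
      have e2 : Bc * (Bc ^ (n - 1) * T) = Bc ^ n * T := by
        rw [← mul_assoc, ← pow_succ', Nat.sub_add_cancel h0]
      rw [e2] at h1
      have h4 : σ n * |cmp c L x W n| ≤ Bc ^ n * (σ n * |cmp c L x W n|) :=
        le_mul_of_one_le_left (hterm n hn) (one_le_pow₀ hB)
      linarith

/-- **The gradients of the difference of two closed labels**, over affine labels of the first places
whose precision is `θ` below the levels. -/
theorem dd_cls {S : PCl m} {C₀ : ℝ} (htm : TmC S C₀) {c : ℕ → Fin m} {r : ℕ}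
    {w u₁ : ℝ} {s rd : ℕ → ℝ} (hch : Chn S c 0 r w w u₁ s rd) (hr1 : 1 ≤ r) {θ : ℝ} (hθ : 0 ≤ θ)
    {ε : ℝ} (hε : 0 < ε) (D : ℕ) {η : ℝ} (hη : 0 < η) :
    Bas S (fun J F A =>
      ∀ (k : Fin m) (P₁ P₂ : ℕ) (Q : ℕ → ℕ) (V : ℕ → Type) (V₁ V₂ : Type)
        (y : ∀ l, PtT F → V l) (y' : ∀ l, LnT F → V l)
        (T : ∀ l, V l → MvPolynomial (Option (Fin m)) ℝ)
        (z₁ : PtT F → V₁) (z₁' : LnT F → V₁) (G₁ : V₁ → MvPolynomial (Option (Fin m)) ℝ)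
        (z₂ : PtT F → V₂) (z₂' : LnT F → V₂) (G₂ : V₂ → MvPolynomial (Option (Fin m)) ℝ),
        (∀ l, 1 ≤ l → l < r →
          LbP F ((range l).image c) (c l) D J ⌊w * J⌋₊ (Q l) A (y l) (y' l) (T l)) →
        (∀ l, 1 ≤ l → l < r → (1 : ℝ) / 2 ^ Q l ≤ 2 * 2 ^ (-(s l - θ) * J)) →
        LbP F ((range r).image c) k D J ⌊w * J⌋₊ P₁ A z₁ z₁' G₁ →
        LbP F ((range r).image c) k D J ⌊w * J⌋₊ P₂ A z₂ z₂' G₂ →
        Pb (Pool.Agent.H49.Ent.cond F.p A True) (fun ω =>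
          ¬ ∀ W : Option (Fin m) → ℝ, W none = 0 →
            |dd (G₁ (z₁' (slam F ⌊w * J⌋₊ ω)) - G₂ (z₂' (slam F ⌊w * J⌋₊ ω))) (bt F ω) W| ≤
              2 ^ ((ε + r * θ) * J) * (1 / 2 ^ P₁ + 1 / 2 ^ P₂) *
                ∑ l ∈ range r, 2 ^ (s l * J) *
                  |cmp c (fun l => T l (y' l (slam F ⌊w * J⌋₊ ω))) (bt F ω) W l|) ≤ η) := by
  classical
  have hr0 : (0 : ℝ) ≤ r := Nat.cast_nonneg r
  obtain ⟨ε₁, hε₁⟩ : ∃ ε₁ : ℝ, ε₁ = ε / (2 * (2 * r + 1)) := ⟨_, rfl⟩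
  have hε10 : 0 < ε₁ := by rw [hε₁]; positivity
  have hε11 : (2 * (r : ℝ) + 1) * ε₁ = ε / 2 := by
    rw [hε₁]
    field_simp
  have hex : ∀ n : ℕ, ∃ e₁ : ℝ, 0 < e₁ ∧ (n ≤ r → DdB S c n w s ε₁ e₁) := by
    intro n
    by_cases hn : n ≤ r
    · obtain ⟨e₁, h1, h2⟩ := ddb_of htm (hch.take (Nat.zero_le n) hn) hε10
      exact ⟨e₁, h1, fun _ => h2⟩
    · exact ⟨1, one_pos, fun h => absurd h hn⟩
  choose ef hef hddb using hex
  obtain ⟨δ, hδ0, hδ⟩ : ∃ δ : ℝ, 0 < δ ∧ δ ≤ ε₁ ∧ ∀ n ≤ r, δ ≤ ef n := by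
    have key : ∀ N : ℕ, ∃ δ : ℝ, 0 < δ ∧ δ ≤ ε₁ ∧ ∀ n < N, δ ≤ ef n := by
      intro N
      induction N with
      | zero => exact ⟨ε₁, hε10, le_rfl, fun n hn => absurd hn (Nat.not_lt_zero n)⟩
      | succ N ih =>
        obtain ⟨δ, a1, a2, a3⟩ := ih
        refine ⟨min δ (ef N), lt_min a1 (hef N), (min_le_left _ _).trans a2, fun n hn => ?_⟩
        rcases Nat.lt_or_ge n N with h | h
        · exact (min_le_left _ _).trans (a3 n h)
        · rw [show n = N by omega]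
          exact min_le_right _ _
    obtain ⟨δ, a1, a2, a3⟩ := key (r + 1)
    exact ⟨δ, a1, a2, fun n hn => a3 n (by omega)⟩
  have hw0 := hch.w0
  have hw1 : w < 1 := hch.u0
  obtain ⟨Kc, d, hd, hnb⟩ := nbx_cls htm hch (show w < (w + 1) / 2 by linarith)
    (show (w + 1) / 2 < 1 by linarith) D hε10 hδ0
  obtain ⟨K, hK⟩ : ∃ K, K = max D ((range r).sup Kc) := ⟨_, rfl⟩
  obtain ⟨η', hη'⟩ : ∃ η' : ℝ, η' = η / (r + 1) := ⟨_, rfl⟩
  have hη0 : 0 < η' := by rw [hη']; positivity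
  have hη1 : (r + 1) * η' = η := by
    rw [hη']
    field_simp
  obtain ⟨J₁, hJ₁⟩ := E_big (a := ε / 2) (C := 4 ^ r) (by linarith)
  have hall : Bas S (fun J F A => ∀ n < r + 1,
    ∀ (k : Fin m) (P₁ P₂ : ℕ) (V V₁ V₂ : Type)
      (z : PtT F → V) (z' : LnT F → V) (g : V → ℕ → MvPolynomial (Option (Fin m)) ℝ)
      (z₁ : PtT F → V₁) (z₁' : LnT F → V₁) (G₁ : V₁ → MvPolynomial (Option (Fin m)) ℝ)
      (z₂ : PtT F → V₂) (z₂' : LnT F → V₂) (G₂ : V₂ → MvPolynomial (Option (Fin m)) ℝ),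
      (∀ i < n, LbP F ((range i).image c) (c i) K J ⌊w * J⌋₊ ⌊(s i - ef n) * J⌋₊ A z z'
        (fun v => g v i)) →
      LbP F ((range n).image c) k K J ⌊w * J⌋₊ P₁ A z₁ z₁' G₁ →
      LbP F ((range n).image c) k K J ⌊w * J⌋₊ P₂ A z₂ z₂' G₂ →
      Pb (Pool.Agent.H49.Ent.cond F.p A True) (fun ω =>
        ¬ ∀ (W : Option (Fin m) → ℝ) (M : ℝ), W none = 0 → 0 < M →
          (∀ i < n, |W (some (c i)) - dd (g (z' (slam F ⌊w * J⌋₊ ω)) i) (bt F ω) W| ≤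
            M * 2 ^ (-s i * J)) →
          |dd (G₁ (z₁' (slam F ⌊w * J⌋₊ ω)) - G₂ (z₂' (slam F ⌊w * J⌋₊ ω))) (bt F ω) W| ≤
            2 ^ (ε₁ * J) * (1 / 2 ^ P₁ + 1 / 2 ^ P₂) * M) ≤ η') :=
    Bas.all (r + 1) fun n hn => hddb n (by omega) K η' hη0
  refine Bas.mono (J₁ + 1) ((hall.and (hnb 1 one_pos le_rfl)).and (tmc_bas htm one_pos)) ?_
  rintro J hJ F A ⟨⟨hdd, V₀, z, z', g, hlab, hg0, hgc, -⟩, hA, -⟩ k P₁ P₂ Q V V₁ V₂ y y' T z₁ z₁' G₁
    z₂ z₂' G₂ hT hQ hl₁ hl₂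
  have hJ0 : (0 : ℝ) ≤ J := Nat.cast_nonneg J
  have f1 := hJ₁ J (by omega)
  have hq := isLaw_cond F.isLaw hA
  have h0 := hq.nonneg
  have hKc : ∀ i < r, Kc i ≤ K := fun i hi => by
    rw [hK]
    exact (Finset.le_sup (f := Kc) (mem_range.2 hi)).trans (le_max_right _ _)
  have hDK : D ≤ K := by
    rw [hK]
    exact le_max_left _ _
  -- the labels `g` for every `n`
  have hgl : ∀ n ≤ r, ∀ i < n, LbP F ((range i).image c) (c i) K J ⌊w * J⌋₊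
      ⌊(s i - ef n) * J⌋₊ A z z' (fun v => g v i) := by
    intro n hn i hi
    refine (LbP.of (hlab i (Nat.zero_le i) (by omega))).mono (Finset.Subset.refl _)
      (hKc i (by omega)) (Nat.floor_le_floor (mul_le_mul_of_nonneg_right ?_ hJ0))
    have := (hd i (Nat.zero_le i) (by omega)).2
    have := hδ.2 n hn
    linarith
  have hgd : ∀ i < r, LbP F ((range i).image c) (c i) K J ⌊w * J⌋₊ ⌊(s i - δ) * J⌋₊ A z z'
      (fun v => g v i) := by
    intro i hi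
    refine (LbP.of (hlab i (Nat.zero_le i) (by omega))).mono (Finset.Subset.refl _)
      (hKc i (by omega)) (Nat.floor_le_floor (mul_le_mul_of_nonneg_right ?_ hJ0))
    have := (hd i (Nat.zero_le i) (by omega)).2
    linarith
  -- the bad events
  obtain ⟨bad1, hbad1⟩ : ∃ bad1 : ℕ → F.Ω → Prop, bad1 = fun n ω => 1 ≤ n ∧
    ¬ ∀ (W : Option (Fin m) → ℝ) (M : ℝ), W none = 0 → 0 < M →
          (∀ i < n, |W (some (c i)) - dd (g (z' (slam F ⌊w * J⌋₊ ω)) i) (bt F ω) W| ≤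
            M * 2 ^ (-s i * J)) →
          |dd (T n (y' n (slam F ⌊w * J⌋₊ ω)) - g (z' (slam F ⌊w * J⌋₊ ω)) n) (bt F ω) W| ≤
            2 ^ (ε₁ * J) * (1 / 2 ^ Q n + 1 / 2 ^ ⌊(s n - δ) * J⌋₊) * M := ⟨_, rfl⟩
  obtain ⟨bad2, hbad2⟩ : ∃ bad2 : F.Ω → Prop, bad2 = fun ω =>
    ¬ ∀ (W : Option (Fin m) → ℝ) (M : ℝ), W none = 0 → 0 < M →
          (∀ i < r, |W (some (c i)) - dd (g (z' (slam F ⌊w * J⌋₊ ω)) i) (bt F ω) W| ≤
            M * 2 ^ (-s i * J)) →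
          |dd (G₁ (z₁' (slam F ⌊w * J⌋₊ ω)) - G₂ (z₂' (slam F ⌊w * J⌋₊ ω))) (bt F ω) W| ≤
            2 ^ (ε₁ * J) * (1 / 2 ^ P₁ + 1 / 2 ^ P₂) * M := ⟨_, rfl⟩
  have hP1 : ∀ n < r, Pb (Pool.Agent.H49.Ent.cond F.p A True) (bad1 n) ≤ η' := by
    intro n hn
    by_cases hn1 : 1 ≤ n
    · have b1 := hdd n (by omega) (c n) (Q n) ⌊(s n - δ) * J⌋₊ V₀ (V n) V₀ z z' g (y n) (y' n) (T n)
        z z' (fun v => g v n) (hgl n hn.le) ((hT n hn1 hn).mono (Finset.Subset.refl _) hDK le_rfl)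
        (hgd n hn)
      refine le_trans (Pb_mono25 h0 fun ω hω hb => ?_) b1
      rw [hbad1] at hb
      exact hb.2
    · refine le_trans (Pb_mono25 h0 (B := fun _ => False) fun ω hω hb => ?_) (le_of_eq_of_le ?_
        hη0.le)
      · rw [hbad1] at hb
        exact hn1 hb.1
      · unfold Pb
        simp
  have hP2 : Pb (Pool.Agent.H49.Ent.cond F.p A True) bad2 ≤ η' := by
    rw [hbad2]
    exact hdd r (by omega) k P₁ P₂ V₀ V₁ V₂ z z' g z₁ z₁' G₁ z₂ z₂' G₂ (hgl r le_rfl)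
      (hl₁.mono (Finset.Subset.refl _) hDK le_rfl) (hl₂.mono (Finset.Subset.refl _) hDK le_rfl)
  have hPB : Pb (Pool.Agent.H49.Ent.cond F.p A True)
      (fun ω => (∃ n < r, bad1 n ω) ∨ bad2 ω) ≤ η := by
    have b1 := Pb_ex25 h0 (fun n ω => bad1 n ω) r fun n hn => hP1 n hn
    refine (Pb_or25 h0 _ _).trans ?_
    linarith
  refine le_trans (Pb_mono25 h0 fun ω hω hn => ?_) hPB
  by_contra hgood
  push Not at hgood
  obtain ⟨hg1, hg2⟩ := hgood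
  refine hn fun W hW => ?_
  rw [hbad2] at hg2
  push Not at hg2
  obtain ⟨gω, hgω⟩ : ∃ gω, gω = g (z' (slam F ⌊w * J⌋₊ ω)) := ⟨_, rfl⟩
  obtain ⟨L, hL⟩ : ∃ L : ℕ → MvPolynomial (Option (Fin m)) ℝ,
    L = fun l => T l (y' l (slam F ⌊w * J⌋₊ ω)) := ⟨_, rfl⟩
  have hLe : ∀ l, T l (y' l (slam F ⌊w * J⌋₊ ω)) = L l := fun l => by rw [hL]
  rw [← hL]
  rw [← hgω] at hg2
  -- the constant
  obtain ⟨Bc, hBc⟩ : ∃ Bc : ℝ, Bc = 4 * 2 ^ ((2 * ε₁ + θ) * J) := ⟨_, rfl⟩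
  have hE1 := E_one (J := J) (a := 2 * ε₁ + θ) (by linarith)
  have hB1 : 1 ≤ Bc := by
    rw [hBc]
    linarith
  have hσ : ∀ l < r, (0 : ℝ) < 2 ^ (s l * J) := fun l _ => E_pos J _
  have hσi : ∀ l, (1 : ℝ) / 2 ^ (s l * J) = 2 ^ (-s l * J) := fun l => by
    rw [neg_mul, Real.rpow_neg (by norm_num), one_div]
  have hd0 : dd (gω 0) (bt F ω) W = 0 := by
    refine dd_zero (c := c) (r := 0) ?_ hW (fun l hl => absurd hl (Nat.not_lt_zero l))
    intro b b' h1 _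
    rw [hgω]
    refine (hgd 0 (by omega)).dep _ b b' h1 fun i hi => ?_
    simp at hi
  have hcmp := cmp_ind (c := c) (r := r) (L := L) (g := gω) (x := bt F ω) (W := W)
    (σ := fun l => 2 ^ (s l * J)) hσ hB1 hd0 (fun n hn1 hn M hM hi => by
      have b1 := hg1 n hn
      rw [hbad1] at b1
      have b2 := not_and.1 b1 hn1
      push Not at b2
      rw [← hgω, hLe] at b2
      have b3 := b2 W M hW hM fun i hin => by
        have b4 := hi i hin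
        simp only [hσi] at b4
        exact b4
      have b5 : (1 : ℝ) / 2 ^ Q n + 1 / 2 ^ ⌊(s n - δ) * J⌋₊ ≤
          4 * 2 ^ (-(s n - (ε₁ + θ)) * J) := by
        have c1 := hQ n hn1 hn
        have c2 := E_inv_floor J (s n - δ)
        have c3 := E_mono J (show -(s n - θ) ≤ -(s n - (ε₁ + θ)) by linarith)
        have c4 := E_mono J (show -(s n - δ) ≤ -(s n - (ε₁ + θ)) by linarith [hδ.1])
        linarith
      have b6 := b3.trans (mul_le_mul_of_nonneg_right (mul_le_mul_of_nonneg_left b5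
        (E_pos J ε₁).le) hM.le)
      have b7 := mul_le_mul_of_nonneg_left b6 (E_pos J (s n)).le
      refine b7.trans (le_of_eq ?_)
      rw [hBc]
      have e1 : (2 : ℝ) ^ (s n * J) * (2 ^ (ε₁ * J) * (4 * 2 ^ (-(s n - (ε₁ + θ)) * J)) * M) =
          4 * (2 ^ (s n * J) * 2 ^ (ε₁ * J) * 2 ^ (-(s n - (ε₁ + θ)) * J)) * M := by ring
      rw [e1, E_add, E_add]
      congr 3
      ring)
  -- the sum of the components
  obtain ⟨T₀, hT₀⟩ : ∃ T₀ : ℝ, T₀ = ∑ l ∈ range r, 2 ^ (s l * J) * |cmp c L (bt F ω) W l| :=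
    ⟨_, rfl⟩
  have hterm : ∀ l, 0 ≤ (2 : ℝ) ^ (s l * J) * |cmp c L (bt F ω) W l| := fun l =>
    mul_nonneg (E_pos J _).le (abs_nonneg _)
  have hT0 : 0 ≤ T₀ := by
    rw [hT₀]
    exact Finset.sum_nonneg fun l _ => hterm l
  rw [← hT₀]
  have hPP : (0 : ℝ) ≤ 1 / 2 ^ P₁ + 1 / 2 ^ P₂ := by positivity
  have h1 : |dd (G₁ (z₁' (slam F ⌊w * J⌋₊ ω)) - G₂ (z₂' (slam F ⌊w * J⌋₊ ω))) (bt F ω) W| ≤
      2 ^ (ε₁ * J) * (1 / 2 ^ P₁ + 1 / 2 ^ P₂) * (Bc ^ (r - 1) * T₀) := by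
    refine lim_le (mul_nonneg (E_pos J _).le hPP) fun δ' hδ' => ?_
    refine hg2 W _ hW (by positivity) fun i hi => ?_
    have h2 := hcmp i hi
    have h3 : ∑ l ∈ range (i + 1), (2 : ℝ) ^ (s l * J) * |cmp c L (bt F ω) W l| ≤ T₀ := by
      rw [hT₀]
      exact Finset.sum_le_sum_of_subset_of_nonneg (Finset.range_subset_range.2 (by omega))
        fun l _ _ => hterm l
    have h4 : Bc ^ i ≤ Bc ^ (r - 1) := pow_le_pow_right₀ hB1 (by omega)
    have h5 : 2 ^ (s i * J) * |W (some (c i)) - dd (gω i) (bt F ω) W| ≤ Bc ^ (r - 1) * T₀ :=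
      h2.trans (mul_le_mul h4 h3 (Finset.sum_nonneg fun l _ => hterm l) (by positivity))
    rw [← hσi, mul_one_div, le_div_iff₀ (E_pos J _)]
    linarith
  refine h1.trans ?_
  have h2 : (2 : ℝ) ^ (ε₁ * J) * Bc ^ (r - 1) ≤ 2 ^ ((ε + r * θ) * J) := by
    have c1 : Bc ^ (r - 1) ≤ Bc ^ r := pow_le_pow_right₀ hB1 (by omega)
    have c2 : Bc ^ r = 4 ^ r * 2 ^ (r * (2 * ε₁ + θ) * J) := by
      rw [hBc, mul_pow, E_pow]
    have c3 : (4 : ℝ) ^ r * 2 ^ (r * (2 * ε₁ + θ) * J) ≤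
        2 ^ (ε / 2 * J) * 2 ^ (r * (2 * ε₁ + θ) * J) :=
      mul_le_mul_of_nonneg_right f1 (E_pos J _).le
    rw [E_add] at c3
    have c4 := mul_le_mul_of_nonneg_left (c1.trans (c2.le.trans c3)) (E_pos J ε₁).le
    rw [E_add] at c4
    refine c4.trans (E_mono J ?_)
    linarith
  calc (2 : ℝ) ^ (ε₁ * J) * (1 / 2 ^ P₁ + 1 / 2 ^ P₂) * (Bc ^ (r - 1) * T₀)
      = 2 ^ (ε₁ * J) * Bc ^ (r - 1) * ((1 / 2 ^ P₁ + 1 / 2 ^ P₂) * T₀) := by ring
    _ ≤ 2 ^ ((ε + r * θ) * J) * ((1 / 2 ^ P₁ + 1 / 2 ^ P₂) * T₀) :=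
        mul_le_mul_of_nonneg_right h2 (mul_nonneg hPP hT0)
    _ = 2 ^ ((ε + r * θ) * J) * (1 / 2 ^ P₁ + 1 / 2 ^ P₂) * T₀ := by ring

end Pool.T4J
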