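import Pool.Agent.H4.T4.Rwh
import Pool.Agent.H95.T4.Sep

/-!
# The directions of two samples at one exact point are far from each other

`hv_pt`: the velocities of two samples with the same labels and near first directions. `sep_cls`: the
field `sep` of `T4Ok`.
-/

set_option autoImplicit false

namespace Pool.T4J

open Finset Real MvPolynomial
open Pool.Agent.H49.Ent Pool.Agent.H32.Dense Pool.STK Pool.KA Pool.KSAT Pool.K2S Pool.PB Pool.S6C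
open Pool.GEN Pool.CHT Pool.CHX Pool.ISO
open Pool.D2R Pool.GF64
open Pool.D2F2 (hgp vlp)
open Pool.T4H (Tau)
open Pool.PR46 (P1 P1_law P1_pos)
open Pool.T4A95 (ActI)

variable {m J : ℕ}

/-- **The velocities of two samples with the same labels** and near first directions. -/
theorem hv_pt {F : Fam m J} {n a q c₁ : ℕ} {g : Fin n → ℕ} {c : ℕ → Fin m} {ω ω' : F.Ω}
    {U e τ : ℕ} {γ gb : ℕ → ℕ} {GA GB : ℕ → MvPolynomial (Option (Fin m)) ℝ}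
    {x : Option (Fin m) → ℝ} (hc : Set.InjOn c (Set.Iio (n + 1)))
    (hA : ∀ l, 1 ≤ l → l ≤ n → (GA l).totalDegree ≤ 1 ∧ DepC c l (GA l))
    (hB : ∀ l, 1 ≤ l → l ≤ n → (GB l).totalDegree ≤ 1 ∧ DepC c l (GB l))
    (hρ : ∀ i, 1 ≤ i → i ≤ n → ∀ j < i, |ncp c i (frA n GB) (GB i - GA i) x j| ≤
      2 ^ U * (2 ^ γ j / 2 ^ γ i))
    (hg : ∀ j, 1 ≤ j → j ≤ n → γ j + e ≤ gb j)
    (hω : ∀ j, 1 ≤ j → j ≤ n → |vlp F (c j) (GB j) ω| ≤ 2 ^ τ / 2 ^ gb j)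
    (hω' : ∀ j, 1 ≤ j → j ≤ n → |vlp F (c j) (GB j) ω'| ≤ 2 ^ τ / 2 ^ gb j)
    {E : ℕ} (hd : |F.d ω (c 0) - F.d ω' (c 0)| ≤ 1 / 2 ^ E)
    (h1 : ∀ i : Fin n, g i + U + n + τ + 2 ≤ c₁ + q + a + γ (i + 1) + e)
    (h2 : ∀ i : Fin n, g i + U + γ 0 + 1 ≤ c₁ + q + a + γ (i + 1) + E) (i : Fin n) :
    |2 ^ g i / 2 ^ a * vlp F (c (i + 1)) (GA (i + 1)) ω -
      2 ^ g i / 2 ^ a * vlp F (c (i + 1)) (GA (i + 1)) ω'| ≤ ((2 ^ c₁ : ℕ) : ℝ) * 2 ^ q := by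
  have hi := i.2
  have hn1 : (1 : ℕ) ≤ i + 1 := by omega
  have hn2 : (i : ℕ) + 1 ≤ n := by omega
  have h3 := vel_nat (r := n) (x := x) (i := i + 1) hc hA hB (T := 2 ^ τ) (by positivity) hn1 hn2
    (hρ (i + 1) hn1 hn2) (fun j h3 h4 => hg j h3 (by omega))
    (fun j h3 h4 => hω j h3 (by omega)) (fun j h3 h4 => hω' j h3 (by omega))
  obtain ⟨R, hR⟩ : ∃ R : ℝ, R = ncp c (i + 1) (frA n GB) (GB (i + 1) - GA (i + 1)) x 0 := ⟨_, rfl⟩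
  have hR0 : |R| ≤ 2 ^ U * (2 ^ γ 0 / 2 ^ γ (i + 1)) := by
    rw [hR]
    exact hρ (i + 1) hn1 hn2 0 (by omega)
  rw [← hR] at h3
  have h4 : |R * (F.d ω' (c 0) - F.d ω (c 0))| ≤ 2 ^ U * (2 ^ γ 0 / 2 ^ γ (i + 1)) * (1 / 2 ^ E) := by
    rw [abs_mul, abs_sub_comm (F.d ω' (c 0))]
    exact mul_le_mul hR0 hd (abs_nonneg _) (by positivity)
  have h5 : |vlp F (c (i + 1)) (GA (i + 1)) ω' - vlp F (c (i + 1)) (GA (i + 1)) ω| ≤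
      2 ^ (U + n + 1) * 2 ^ τ / 2 ^ (γ (i + 1) + e) +
        2 ^ U * (2 ^ γ 0 / 2 ^ γ (i + 1)) * (1 / 2 ^ E) := by
    rw [abs_le] at h3 h4 ⊢
    constructor <;> linarith only [h3.1, h3.2, h4.1, h4.2]
  have hq0 : (0 : ℝ) < 2 ^ g i / 2 ^ a := by positivity
  rw [← mul_sub, abs_mul, abs_of_pos hq0, abs_sub_comm]
  refine (mul_le_mul_of_nonneg_left h5 hq0.le).trans ?_
  have f1 : (2 : ℝ) ^ g i / 2 ^ a * (2 ^ (U + n + 1) * 2 ^ τ / 2 ^ (γ (i + 1) + e)) ≤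
      2 ^ (c₁ + q) / 2 := by
    rw [le_div_iff₀ (by norm_num)]
    have g1 : (2 : ℝ) ^ g i / 2 ^ a * (2 ^ (U + n + 1) * 2 ^ τ / 2 ^ (γ (i + 1) + e)) * 2 =
        2 ^ (g i + U + n + τ + 2) / 2 ^ (a + (γ (i + 1) + e)) := by
      obtain ⟨V, hV⟩ : ∃ V : ℕ, V = U + n + 1 := ⟨_, rfl⟩
      rw [show g i + U + n + τ + 2 = g i + V + τ + 1 by omega, ← hV, pow_succ, pow_add _ _ τ,
        pow_add _ (g i), pow_add _ a]
      field_simp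
    rw [g1, div_le_iff₀ (by positivity), ← pow_add]
    exact pow_le_pow_right₀ (by norm_num) (by have := h1 i; omega)
  have f2 : (2 : ℝ) ^ g i / 2 ^ a * (2 ^ U * (2 ^ γ 0 / 2 ^ γ (i + 1)) * (1 / 2 ^ E)) ≤
      2 ^ (c₁ + q) / 2 := by
    rw [le_div_iff₀ (by norm_num)]
    have g1 : (2 : ℝ) ^ g i / 2 ^ a * (2 ^ U * (2 ^ γ 0 / 2 ^ γ (i + 1)) * (1 / 2 ^ E)) * 2 =
        2 ^ (g i + U + γ 0 + 1) / 2 ^ (a + (γ (i + 1) + E)) := by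
      rw [pow_add _ _ 1, pow_add _ _ (γ 0), pow_add _ (g i), pow_add _ a, pow_add _ _ E, pow_one]
      field_simp
    rw [g1, div_le_iff₀ (by positivity), ← pow_add]
    exact pow_le_pow_right₀ (by norm_num) (by have := h2 i; omega)
  have f3 : ((2 ^ c₁ : ℕ) : ℝ) * 2 ^ q = 2 ^ (c₁ + q) := by
    push_cast
    rw [pow_add]
  rw [mul_add, f3]
  linarith only [f1, f2]

theorem pe_mono {A : Type} [Fintype A] {q : A → ℝ} (h0 : ∀ a, 0 ≤ q a) {B B' : A → Prop}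
    (h : ∀ a, 0 < q a → B a → B' a) : Pe q B ≤ Pe q B' := by
  rw [Pool.DIR21.Pe_ci, Pool.DIR21.Pe_ci]
  refine Finset.sum_le_sum fun a _ => ?_
  rcases (h0 a).eq_or_lt with h1 | h1
  · rw [← h1, zero_mul, zero_mul]
  · refine mul_le_mul_of_nonneg_left ?_ (h0 a)
    by_cases hB : B a
    · rw [Pool.DIR21.ci1 hB, Pool.DIR21.ci1 (h a h1 hB)]
    · rw [Pool.DIR21.ci0 hB]
      exact Pool.DIR21.ci_nonneg _

/-- **The directions of two samples at one exact point.** -/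
theorem sep_cls {S : PCl m}
    (hpos : ∀ (τ : ℝ) (J : ℕ) (F : Fam m J) (A : F.Ω → Prop), S.St τ J F A → 0 < Pe F.p A)
    {k : Fin m} {α Q : ℝ} (hA : ActI S k α 0 Q) (hα : 0 < α) (hQ : 0 < Q) {δ : ℝ} (hδ : 0 < δ) :
    Bas S (fun J F A => ∀ (Φ : Type) (Fp : F.Ω → Φ),
      (∀ ω ω', 0 < Pool.Agent.H49.Ent.cond F.p A True ω →
        0 < Pool.Agent.H49.Ent.cond F.p A True ω' → ptr F J ω = ptr F J ω' → Fp ω = Fp ω') →
      ∀ u E : ℕ, ⌊Q * J⌋₊ ≤ u → ⌊Q * J⌋₊ ≤ E →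
      Pe (Tau (Pool.Agent.H49.Ent.cond F.p A True) Fp) (fun v =>
        2 ^ u * |dfl E (F.d v.1 k) - dfl E (F.d v.2 k)| < 1) ≤ δ) := by
  have hp : Bas S (fun _ F A => 0 < Pe F.p A) := ⟨1, one_pos, 0, fun J _ F A hA => hpos 1 J F A hA⟩
  refine Bas.mono 0 ((hA.sep hpos hα hQ 3 hδ).and hp) ?_
  rintro J - F A ⟨h1, hA0⟩ Φ Fp hFp u E hu hE
  have hq := isLaw_cond F.isLaw hA0
  have h2 := h1 Φ Fp fun ω ω' a b _ hX hW => hFp ω ω' a b (Prod.ext hX hW)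
  refine le_trans (pe_mono (P1_law hq Fp).nonneg fun v hv h3 => ?_) h2
  show |((F.D ⌊Q * J⌋₊ v.1 k : ℤ) : ℝ) - (F.D ⌊Q * J⌋₊ v.2 k : ℤ)| ≤ ((3 : ℕ) : ℝ)
  obtain ⟨M, hM⟩ : ∃ M : ℕ, M = ⌊Q * J⌋₊ := ⟨_, rfl⟩
  rw [← hM] at hu hE ⊢
  have d1 := dfl_near E (F.d v.1 k)
  have d2 := dfl_near E (F.d v.2 k)
  have h4 : |F.d v.1 k - F.d v.2 k| ≤ 1 / 2 ^ u + 1 / 2 ^ E := by
    have h5 : |dfl E (F.d v.1 k) - dfl E (F.d v.2 k)| ≤ 1 / 2 ^ u := by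
      rw [le_div_iff₀ (by positivity), mul_comm]
      exact h3.le
    rw [abs_le] at h5 ⊢
    constructor <;> linarith only [h5.1, h5.2, d1.1, d1.2, d2.1, d2.2]
  have h5 : |(2 : ℝ) ^ M * F.d v.1 k - 2 ^ M * F.d v.2 k| ≤ 2 := by
    rw [← mul_sub, abs_mul, abs_of_pos (by positivity : (0 : ℝ) < 2 ^ M)]
    have h6 : (1 : ℝ) / 2 ^ u ≤ 1 / 2 ^ M := Pool.PB.inv_mono hu
    have h7 : (1 : ℝ) / 2 ^ E ≤ 1 / 2 ^ M := Pool.PB.inv_mono hE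
    have h8 : |F.d v.1 k - F.d v.2 k| ≤ 2 / 2 ^ M := by
      have : (2 : ℝ) / 2 ^ M = 1 / 2 ^ M + 1 / 2 ^ M := by ring
      linarith
    rw [le_div_iff₀ (by positivity)] at h8
    linarith
  refine (fl_sub h5).trans (by norm_num)

end Pool.T4J
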