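import Pool.Agent.H4.T4.Ddc
import Pool.Agent.H4.T4.Sep

/-!
# Affine labels along a chain of windows, on a part of every large event

`LbN`: affine closed labels of a window with natural heights and velocities, and with natural relative
gradients over the labels of the first window. `lab_cls`: the labels of all windows of a chain.
-/

set_option autoImplicit false

namespace Pool.T4J

open Finset Real MvPolynomial
open Pool.Agent.H49.Ent Pool.Agent.H32.Dense Pool.STK Pool.KA Pool.KSAT Pool.K2S Pool.PB Pool.S6C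
open Pool.GEN Pool.CHT Pool.CHX Pool.ISO
open Pool.D2R Pool.GF64
open Pool.D2F2 (hgp vlp ojet_hgp ojet_vlp)
open Pool.RCD Pool.LA91
open Pool.GRD (LbP)
open Pool.BFL (Pb)
open Pool.LIV (Pb_mono25 Pb_or25 Pb_ex25)
open Pool.GRW (tmc_bas)
open Pool.AVG57 (upw upw_slam)
open Pool.CDX (AffL)

variable {m : ℕ}

/-- An affine closed label of the place `c l`, as functions of the exact point and of the line. -/
def LbQ {J : ℕ} (F : Fam m J) (c : ℕ → Fin m) (l w P : ℕ) (A : F.Ω → Prop)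
    (GA : PtT F → MvPolynomial (Option (Fin m)) ℝ)
    (HA : LnT F → MvPolynomial (Option (Fin m)) ℝ) : Prop :=
  ∃ (V : Type) (z : PtT F → V) (z' : LnT F → V) (G : V → MvPolynomial (Option (Fin m)) ℝ),
    LbP F ((range l).image c) (c l) 1 J w P A z z' G ∧ (∀ y, GA y = G (z y)) ∧ ∀ s, HA s = G (z' s)

/-- **Affine closed labels of the window `v`** with natural relative gradients over the labels `GA`.
`lt`, `lv`: the levels at the first window and at the window `v`; `ε`: the loss. -/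
structure LbN {J : ℕ} (F : Fam m J) (c : ℕ → Fin m) (n : ℕ) (B : F.Ω → Prop) (v : ℝ)
    (lt lv : ℕ → ℝ) (ε : ℝ) (GA GB : PtT F → ℕ → MvPolynomial (Option (Fin m)) ℝ)
    (HB : LnT F → ℕ → MvPolynomial (Option (Fin m)) ℝ) : Prop where
  dg : ∀ y l, 1 ≤ l → l ≤ n → (GB y l).totalDegree ≤ 1 ∧ DepC c l (GB y l)
  dh : ∀ s l, 1 ≤ l → l ≤ n → (HB s l).totalDegree ≤ 1 ∧ DepC c l (HB s l)
  cls : ∀ ω, B ω → ∀ l, 1 ≤ l → l ≤ n → GB (ptr F J ω) l = HB (slam F ⌊v * J⌋₊ ω) l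
  hgt : ∀ ω, B ω → ∀ l, 1 ≤ l → l ≤ n → |hgp F (c l) (GB (ptr F J ω) l) ω| ≤ 2 ^ ((ε - lv l) * J)
  vel : ∀ ω, B ω → ∀ l, 1 ≤ l → l ≤ n →
    |vlp F (c l) (GB (ptr F J ω) l) ω| ≤ 2 ^ ((ε + v - lv l) * J)
  rho : ∀ ω, B ω → ∀ i, 1 ≤ i → i ≤ n → ∀ j < i,
    |ncp c i (frA n (GB (ptr F J ω))) (GB (ptr F J ω) i - GA (ptr F J ω) i) (bt F ω) j| ≤
      2 ^ ((ε + lt j - lt i) * J)

theorem LbN.sub {J : ℕ} {F : Fam m J} {c : ℕ → Fin m} {n : ℕ} {B B' : F.Ω → Prop} {v : ℝ}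
    {lt lv : ℕ → ℝ} {ε : ℝ} {GA GB : PtT F → ℕ → MvPolynomial (Option (Fin m)) ℝ}
    {HB : LnT F → ℕ → MvPolynomial (Option (Fin m)) ℝ} (h : LbN F c n B v lt lv ε GA GB HB)
    (hB : Sub B' B) : LbN F c n B' v lt lv ε GA GB HB :=
  ⟨h.dg, h.dh, fun ω hω => h.cls ω (hB ω hω), fun ω hω => h.hgt ω (hB ω hω),
    fun ω hω => h.vel ω (hB ω hω), fun ω hω => h.rho ω (hB ω hω)⟩

/-- A larger loss. -/
theorem LbN.le {J : ℕ} {F : Fam m J} {c : ℕ → Fin m} {n : ℕ} {B : F.Ω → Prop} {v : ℝ}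
    {lt lv : ℕ → ℝ} {ε ε' : ℝ} {GA GB : PtT F → ℕ → MvPolynomial (Option (Fin m)) ℝ}
    {HB : LnT F → ℕ → MvPolynomial (Option (Fin m)) ℝ} (h : LbN F c n B v lt lv ε GA GB HB)
    (hε : ε ≤ ε') : LbN F c n B v lt lv ε' GA GB HB :=
  ⟨h.dg, h.dh, h.cls, fun ω hω l a b => (h.hgt ω hω l a b).trans (E_mono J (by linarith)),
    fun ω hω l a b => (h.vel ω hω l a b).trans (E_mono J (by linarith)),
    fun ω hω i a b j c => (h.rho ω hω i a b j c).trans (E_mono J (by linarith))⟩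

theorem pe_big {J : ℕ} {F : Fam m J} {A E : F.Ω → Prop} {η : ℝ} (hA : 0 < Pe F.p A)
    (h : Pb (Pool.Agent.H49.Ent.cond F.p A True) E ≤ η) :
    (1 - η) * Pe F.p A ≤ Pe F.p (fun ω => A ω ∧ ¬ E ω) := by
  rw [Pool.DIR21.Pb_Pe, Pool.K2S.Pe_cond, div_le_iff₀ hA] at h
  have h1 := Pe_parts (p := F.p) (B := A) (B' := fun ω => A ω ∧ ¬ E ω) fun ω hω => hω.1
  have h2 : Pe F.p (fun ω => A ω ∧ ¬ (A ω ∧ ¬ E ω)) ≤ Pe F.p (fun ω => A ω ∧ E ω) :=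
    pe_mono F.isLaw.nonneg fun ω _ hω => ⟨hω.1, by
      by_contra h3
      exact hω.2 ⟨hω.1, h3⟩⟩
  linarith

/-- The event of `dd_cls`. -/
def DdP {J : ℕ} (F : Fam m J) (c : ℕ → Fin m) (r : ℕ) (w θ ε : ℝ) (s : ℕ → ℝ) (η : ℝ)
    (A : F.Ω → Prop) : Prop :=
  ∀ (k : Fin m) (P₁ P₂ : ℕ) (Q : ℕ → ℕ) (V : ℕ → Type) (V₁ V₂ : Type)
    (y : ∀ l, PtT F → V l) (y' : ∀ l, LnT F → V l)
    (T : ∀ l, V l → MvPolynomial (Option (Fin m)) ℝ)
    (z₁ : PtT F → V₁) (z₁' : LnT F → V₁) (G₁ : V₁ → MvPolynomial (Option (Fin m)) ℝ)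
    (z₂ : PtT F → V₂) (z₂' : LnT F → V₂) (G₂ : V₂ → MvPolynomial (Option (Fin m)) ℝ),
    (∀ l, 1 ≤ l → l < r →
      LbP F ((range l).image c) (c l) 1 J ⌊w * J⌋₊ (Q l) A (y l) (y' l) (T l)) →
    (∀ l, 1 ≤ l → l < r → (1 : ℝ) / 2 ^ Q l ≤ 2 * 2 ^ (-(s l - θ) * J)) →
    LbP F ((range r).image c) k 1 J ⌊w * J⌋₊ P₁ A z₁ z₁' G₁ →
    LbP F ((range r).image c) k 1 J ⌊w * J⌋₊ P₂ A z₂ z₂' G₂ →
    Pb (Pool.Agent.H49.Ent.cond F.p A True) (fun ω =>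
      ¬ ∀ W : Option (Fin m) → ℝ, W none = 0 →
        |dd (G₁ (z₁' (slam F ⌊w * J⌋₊ ω)) - G₂ (z₂' (slam F ⌊w * J⌋₊ ω))) (bt F ω) W| ≤
          2 ^ ((ε + r * θ) * J) * (1 / 2 ^ P₁ + 1 / 2 ^ P₂) *
            ∑ l ∈ range r, 2 ^ (s l * J) *
              |cmp c (fun l => T l (y' l (slam F ⌊w * J⌋₊ ω))) (bt F ω) W l|) ≤ η

/-- The event of `own_cls`. -/
def OwP {J : ℕ} (F : Fam m J) (c : ℕ → Fin m) (l j : ℕ) (w ε η : ℝ) (A : F.Ω → Prop) : Prop :=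
  ∀ (P : ℕ) (V : Type) (z : PtT F → V) (z' : LnT F → V)
    (G : V → MvPolynomial (Option (Fin m)) ℝ),
    LbP F ((range l).image c) (c l) 1 J ⌊w * J⌋₊ P A z z' G →
    Pb (Pool.Agent.H49.Ent.cond F.p A True) (fun ω =>
      ¬ |ojet F (c l) j (G (z' (slam F ⌊w * J⌋₊ ω))) ω| ≤ 2 ^ ((ε + j * w) * J) * (1 / 2 ^ P)) ≤ η

/-- The precision of a label. -/
theorem prec_le {J : ℕ} {p e x : ℝ} (h : x ≤ p - e) :
    (1 : ℝ) / 2 ^ ⌊(p - e) * J⌋₊ ≤ 2 * 2 ^ (-x * J) := by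
  have h1 := E_inv_floor J (p - e)
  have h2 := E_mono J (show -(p - e) ≤ -x by linarith)
  linarith

/-- **Affine labels along a chain of windows.** `z`: the windows; `bl r l`, `pl r l`: the window and the
precision of the label of the place `l` for the window `z r`; `θ`: the defect of the precisions; `Y`: the
steps of the levels. The labels of the window `z 0` are given. -/
theorem lab_cls {S : PCl m} {C₀ : ℝ} (htm : TmC S C₀) {c : ℕ → Fin m} {d n : ℕ}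
    {sn : ℕ → ℝ → ℝ} {G : Set ℝ} (hch : ChG S c d sn G) (hnd : n ≤ d)
    (hinj : Set.InjOn c (Set.Iio (n + 1))) {R : ℕ} {z : ℕ → ℝ}
    (hz : ∀ r ≤ R, z r ∈ G) (hzm : ∀ r < R, z r ≤ z (r + 1)) {bl pl : ℕ → ℕ → ℝ}
    (hbl : ∀ r ≤ R, ∀ l, 1 ≤ l → l ≤ n → bl r l ≤ z r)
    (hL : ∀ r, 1 ≤ r → r ≤ R → ∀ l, 1 ≤ l → l ≤ n →
      AffL S ((range l).image c) (c l) (bl r l) (pl r l))
    {θ Y : ℝ} (hθ : 0 ≤ θ) (hY0 : 0 ≤ Y)
    (hpl : ∀ r ≤ R, ∀ l, 1 ≤ l → l ≤ n → sn l (z r) - θ ≤ pl r l)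
    (hY : ∀ r < R, ∀ q, r ≤ q → q ≤ r + 1 → ∀ i, 1 ≤ i → i ≤ n → ∀ l < i,
      sn l (z (r + 1)) - sn i (z q) ≤ sn l (z 0) - sn i (z 0) + Y)
    {ε : ℝ} (hε : 0 < ε) {η : ℝ} (hη : 0 < η) :
    ∃ e₀ : ℝ, 0 < e₀ ∧ Bas S (fun J F A => ∀ (GA : PtT F → ℕ → MvPolynomial (Option (Fin m)) ℝ)
      (HA : LnT F → ℕ → MvPolynomial (Option (Fin m)) ℝ),
      (∀ l, 1 ≤ l → l ≤ n → LbQ F c l ⌊bl 0 l * J⌋₊ ⌊(pl 0 l - e₀) * J⌋₊ A (fun y => GA y l)
        (fun s => HA s l)) →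
      ∃ (B : F.Ω → Prop) (GB : ℕ → PtT F → ℕ → MvPolynomial (Option (Fin m)) ℝ)
        (HB : ℕ → LnT F → ℕ → MvPolynomial (Option (Fin m)) ℝ), Sub B A ∧
        (1 - η) * Pe F.p A ≤ Pe F.p B ∧ GB 0 = GA ∧
        (∀ s l, HB 0 s l = HA (upw ⌊bl 0 l * J⌋₊ ⌊z 0 * J⌋₊ s) l) ∧
        ∀ r ≤ R, LbN F c n B (z r) (fun l => sn l (z 0)) (fun l => sn l (z r))
          (ε + n * ((n + 1) * θ + Y)) GA (GB r) (HB r)) := by
  classical
  have hn0 : (0 : ℝ) ≤ n := Nat.cast_nonneg n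
  have hR0 : (0 : ℝ) ≤ R := Nat.cast_nonneg R
  rcases Nat.eq_zero_or_pos n with hn | hn1
  · -- no places
    subst hn
    refine ⟨1, one_pos, Bas.mono 0 (tmc_bas htm one_pos) ?_⟩
    rintro J - F A ⟨hA, -⟩ GA HA -
    refine ⟨A, fun _ => GA, fun _ s l => HA (upw ⌊bl 0 l * J⌋₊ ⌊z 0 * J⌋₊ s) l, fun _ h => h, ?_,
      rfl, fun _ _ => rfl, fun r _ => ⟨?_, ?_, ?_, ?_, ?_, ?_⟩⟩
    · have := mul_nonneg hη.le hA.le
      linarith
    · exact fun _ l a b => by omega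
    · exact fun _ l a b => by omega
    · exact fun _ _ l a b => by omega
    · exact fun _ _ l a b => by omega
    · exact fun _ _ l a b => by omega
    · exact fun _ _ l a b => by omega
  obtain ⟨ε₁, hε₁⟩ : ∃ ε₁ : ℝ, ε₁ = ε / (4 * ((n + 1) * (n + 2))) := ⟨_, rfl⟩
  have hε10 : 0 < ε₁ := by rw [hε₁]; positivity
  have hε11 : ((n : ℝ) + 1) * (n + 2) * ε₁ = ε / 4 := by
    rw [hε₁]
    field_simp
  have hε12 : ε₁ ≤ ε / 4 := by
    have h1 : (0 : ℝ) ≤ ((n : ℝ) * n + 3 * n + 1) * ε₁ := by positivity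
    have h2 : ((n : ℝ) + 1) * (n + 2) * ε₁ = ε₁ + (n * n + 3 * n + 1) * ε₁ := by ring
    linarith
  have hz1 : ∀ r ≤ R, 0 ≤ z r ∧ z r < 1 := fun r hr => by
    obtain ⟨u₁, rd, -, h⟩ := hch.ch _ (hz r hr)
    exact ⟨h.w0, h.u0⟩
  -- the masses
  obtain ⟨NB, hNB⟩ : ∃ NB : ℝ, NB = R * (n + 1) + (R + 1) * ((n + 1) * 2) := ⟨_, rfl⟩
  have hNB0 : 0 < NB := by rw [hNB]; positivity
  obtain ⟨η', hη'⟩ : ∃ η' : ℝ, η' = η / NB := ⟨_, rfl⟩
  have hη0 : 0 < η' := by rw [hη']; positivity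
  have hη1 : NB * η' = η := by
    rw [hη']
    field_simp
  obtain ⟨J₁, hJ₁⟩ := E_big (a := ε / 4) (C := (1 + 4 * (R : ℝ)) ^ n) (by linarith)
  obtain ⟨J₂, hJ₂⟩ := E_big (a := ε / 4) (C := 2) (by linarith)
  -- the bases
  have b1 : Bas S (fun J F A => ∀ r < R, ∀ i < n + 1, 1 ≤ i →
      DdP F c i (z (r + 1)) (θ + ε₁) ε₁ (fun l => sn l (z (r + 1))) η' A) := by
    refine Bas.all R fun r hr => Bas.all (n + 1) fun i hi => ?_
    by_cases hi1 : 1 ≤ i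
    · obtain ⟨u₁, rd, -, h⟩ := hch.ch _ (hz (r + 1) (by omega))
      refine Bas.mono 0 (dd_cls htm (h.take (Nat.zero_le i) (by omega)) hi1
        (show 0 ≤ θ + ε₁ by linarith) hε10 1 hη0) ?_
      exact fun J _ F A h _ => h
    · exact ⟨1, one_pos, 0, fun _ _ _ _ _ h => absurd h hi1⟩
  have b2 : Bas S (fun J F A => ∀ r < R + 1, ∀ l < n + 1, ∀ j < 2, OwP F c l j (z r) ε₁ η' A) :=
    Bas.all _ fun r hr => Bas.all _ fun l _ => Bas.all 2 fun j _ =>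
      own_cls htm ((range l).image c) (c l) j 1 (hz1 r (by omega)).1 (hz1 r (by omega)).2 hη0 hε10
  have b3 : Bas S (fun J F A => ∀ r < R + 1, ∀ l < n + 1, 1 ≤ r → 1 ≤ l → ∃ (V : Type)
      (y : PtT F → V) (y' : LnT F → V) (T : V → MvPolynomial (Option (Fin m)) ℝ),
      LbP F ((range l).image c) (c l) 1 J ⌊bl r l * J⌋₊ ⌊(pl r l - ε₁) * J⌋₊ A y y' T) := by
    refine Bas.all _ fun r hr => Bas.all _ fun l hl => ?_
    by_cases h1 : 1 ≤ r ∧ 1 ≤ l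
    · refine Bas.mono 0 (hL r h1.1 (by omega) l h1.2 (by omega) ε₁ hε10) ?_
      exact fun J _ F A h _ _ => h
    · exact ⟨1, one_pos, 0, fun _ _ _ _ _ a b => absurd ⟨a, b⟩ h1⟩
  refine ⟨ε₁, hε10, Bas.mono (J₁ + J₂ + 1) ((b1.and (b2.and b3)).and (tmc_bas htm one_pos)) ?_⟩
  rintro J hJ F A ⟨⟨hdd, how, hlab⟩, hA, -⟩ GA HA hGA
  have hJ0 : (0 : ℝ) ≤ J := Nat.cast_nonneg J
  have f1 := hJ₁ J (by omega)
  have f2 := hJ₂ J (by omega)
  have hq := isLaw_cond F.isLaw hA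
  have h0 := hq.nonneg
  -- the labels
  have hex : ∀ r l : ℕ, ∃ (V : Type) (y : PtT F → V) (y' : LnT F → V)
      (T : V → MvPolynomial (Option (Fin m)) ℝ), (r ≤ R → 1 ≤ l → l ≤ n →
      LbP F ((range l).image c) (c l) 1 J ⌊bl r l * J⌋₊ ⌊(pl r l - ε₁) * J⌋₊ A y y' T) ∧
      (r = 0 → 1 ≤ l → l ≤ n → (∀ x, GA x l = T (y x)) ∧ ∀ s, HA s l = T (y' s)) := by
    intro r l
    by_cases h : r ≤ R ∧ 1 ≤ l ∧ l ≤ n
    · rcases Nat.eq_zero_or_pos r with h1 | h1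
      · subst h1
        obtain ⟨V, y, y', T, k1, k2, k3⟩ := hGA l h.2.1 h.2.2
        exact ⟨V, y, y', T, fun _ _ _ => k1, fun _ _ _ => ⟨k2, k3⟩⟩
      · obtain ⟨V, y, y', T, k1⟩ := hlab r (by omega) l (by omega) h1 h.2.1
        exact ⟨V, y, y', T, fun _ _ _ => k1, fun h2 => by omega⟩
    · by_cases h1 : 1 ≤ l ∧ l ≤ n
      · exact ⟨Unit, fun _ => (), fun _ => (), fun _ => 0, fun a b c => absurd ⟨a, b, c⟩ h,
          fun a => by omega⟩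
      · exact ⟨Unit, fun _ => (), fun _ => (), fun _ => 0, fun a b c => absurd ⟨b, c⟩ h1,
          fun a b c => absurd ⟨b, c⟩ h1⟩
  choose V y y' T hT hT0 using hex
  have hfz : ∀ r ≤ R, ⌊z r * (J : ℝ)⌋₊ ≤ J := fun r hr => floor_le (hz1 r hr).2.le J
  have hzq : ∀ r q, r ≤ q → q ≤ R → z r ≤ z q := by
    intro r q h
    induction q, h using Nat.le_induction with
    | base => exact fun _ => le_rfl
    | succ q _ ih => exact fun h' => (ih (by omega)).trans (hzm q (by omega))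
  have hbz : ∀ r q, r ≤ q → q ≤ R → ∀ l, 1 ≤ l → l ≤ n → ⌊bl r l * (J : ℝ)⌋₊ ≤ ⌊z q * J⌋₊ :=
    fun r q a b l h1 h2 => Nat.floor_le_floor (mul_le_mul_of_nonneg_right
      ((hbl r (by omega) l h1 h2).trans (hzq r q a b)) hJ0)
  -- the labels at the windows of the chain
  have hTw : ∀ r q, r ≤ q → q ≤ R → ∀ l, 1 ≤ l → l ≤ n →
      LbP F ((range l).image c) (c l) 1 J ⌊z q * J⌋₊ ⌊(pl r l - ε₁) * J⌋₊ A (y r l)
        (fun s => y' r l (upw ⌊bl r l * J⌋₊ ⌊z q * J⌋₊ s)) (T r l) := fun r q a b l h1 h2 =>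
    (hT r l (by omega) h1 h2).win (hbz r q a b l h1 h2) (hfz q b)
  have hsl : ∀ r q, r ≤ q → q ≤ R → ∀ l, 1 ≤ l → l ≤ n → ∀ ω,
      y' r l (upw ⌊bl r l * J⌋₊ ⌊z q * J⌋₊ (slam F ⌊z q * J⌋₊ ω)) =
        y' r l (slam F ⌊bl r l * J⌋₊ ω) := fun r q a b l h1 h2 ω => by
    rw [upw_slam F (hbz r q a b l h1 h2) (hfz q b)]
  -- the bad events
  obtain ⟨Lω, hLω⟩ : ∃ Lω : F.Ω → ℕ → ℕ → MvPolynomial (Option (Fin m)) ℝ,
    Lω = fun ω r l => T r l (y' r l (slam F ⌊bl r l * J⌋₊ ω)) := ⟨_, rfl⟩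
  have hLe : ∀ ω r l, T r l (y' r l (slam F ⌊bl r l * J⌋₊ ω)) = Lω ω r l := fun ω r l => by
    rw [hLω]
  obtain ⟨bad1, hbad1⟩ : ∃ bad1 : ℕ → ℕ → F.Ω → Prop, bad1 = fun r i ω => 1 ≤ i ∧
    ¬ ∀ W : Option (Fin m) → ℝ, W none = 0 →
        |dd (Lω ω (r + 1) i - Lω ω r i) (bt F ω) W| ≤
          2 ^ ((ε₁ + i * (θ + ε₁)) * J) * (1 / 2 ^ ⌊(pl (r + 1) i - ε₁) * J⌋₊ +
            1 / 2 ^ ⌊(pl r i - ε₁) * J⌋₊) *
            ∑ l ∈ range i, 2 ^ (sn l (z (r + 1)) * J) *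
              |cmp c (Lω ω (r + 1)) (bt F ω) W l| := ⟨_, rfl⟩
  obtain ⟨bad2, hbad2⟩ : ∃ bad2 : ℕ → ℕ → ℕ → F.Ω → Prop, bad2 = fun r l j ω => 1 ≤ l ∧
    ¬ |ojet F (c l) j (Lω ω r l) ω| ≤ 2 ^ ((ε₁ + j * z r) * J) *
      (1 / 2 ^ ⌊(pl r l - ε₁) * J⌋₊) := ⟨_, rfl⟩
  have hfalse : ∀ E : F.Ω → Prop, (∀ ω, ¬ E ω) →
      Pb (Pool.Agent.H49.Ent.cond F.p A True) E ≤ η' := by
    intro E hE
    refine le_trans (Pb_mono25 h0 (B := fun _ => False) fun ω hω hb => hE ω hb)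
      (le_of_eq_of_le ?_ hη0.le)
    unfold Pb
    simp
  have hP1 : ∀ r < R, ∀ i < n + 1, Pb (Pool.Agent.H49.Ent.cond F.p A True) (bad1 r i) ≤ η' := by
    intro r hr i hi
    by_cases hi1 : 1 ≤ i
    · have k1 := hdd r hr i hi hi1 (c i) ⌊(pl (r + 1) i - ε₁) * J⌋₊ ⌊(pl r i - ε₁) * J⌋₊
        (fun l => ⌊(pl (r + 1) l - ε₁) * J⌋₊) (fun l => V (r + 1) l) _ _
        (fun l => y (r + 1) l) (fun l s => y' (r + 1) l (upw ⌊bl (r + 1) l * J⌋₊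
          ⌊z (r + 1) * J⌋₊ s)) (fun l => T (r + 1) l) _ _ _ _ _ _
        (fun l h1 h2 => hTw (r + 1) (r + 1) le_rfl (by omega) l h1 (by omega))
        (fun l h1 h2 => prec_le (by
          have := hpl (r + 1) (by omega) l h1 (by omega)
          linarith))
        (hTw (r + 1) (r + 1) le_rfl (by omega) i hi1 (by omega))
        (hTw r (r + 1) (Nat.le_succ r) (by omega) i hi1 (by omega))
      refine le_trans (Pb_mono25 h0 fun ω hω hb => ?_) k1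
      rw [hbad1] at hb
      intro hall
      refine hb.2 fun W hW => ?_
      have k2 := hall W hW
      rw [hsl (r + 1) (r + 1) le_rfl (by omega) i hi1 (by omega),
        hsl r (r + 1) (Nat.le_succ r) (by omega) i hi1 (by omega), hLe, hLe] at k2
      refine k2.trans (le_of_eq ?_)
      congr 1
      refine Finset.sum_congr rfl fun l hl => ?_
      have hli := Finset.mem_range.1 hl
      congr 2
      unfold cmp
      split_ifs with h1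
      · rfl
      · show W (some (c l)) - dd (T (r + 1) l (y' (r + 1) l (upw ⌊bl (r + 1) l * J⌋₊
          ⌊z (r + 1) * J⌋₊ (slam F ⌊z (r + 1) * J⌋₊ ω)))) (bt F ω) W = _
        rw [hsl (r + 1) (r + 1) le_rfl (by omega) l (by omega) (by omega), hLe]
    · refine hfalse _ fun ω hb => ?_
      rw [hbad1] at hb
      exact hi1 hb.1
  have hP2 : ∀ r < R + 1, ∀ l < n + 1, ∀ j < 2,
      Pb (Pool.Agent.H49.Ent.cond F.p A True) (bad2 r l j) ≤ η' := by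
    intro r hr l hl j hj
    by_cases hl1 : 1 ≤ l
    · have k1 := how r hr l hl j hj _ _ _ _ _ (hTw r r le_rfl (by omega) l hl1 (by omega))
      refine le_trans (Pb_mono25 h0 fun ω hω hb => ?_) k1
      rw [hbad2] at hb
      intro hall
      refine hb.2 ?_
      rw [hsl r r le_rfl (by omega) l hl1 (by omega), hLe] at hall
      exact hall
    · refine hfalse _ fun ω hb => ?_
      rw [hbad2] at hb
      exact hl1 hb.1
  obtain ⟨Bad, hBad⟩ : ∃ Bad : F.Ω → Prop, Bad = fun ω => (∃ r < R, ∃ i < n + 1, bad1 r i ω) ∨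
    ∃ r < R + 1, ∃ l < n + 1, ∃ j < 2, bad2 r l j ω := ⟨_, rfl⟩
  have hPB : Pb (Pool.Agent.H49.Ent.cond F.p A True) Bad ≤ η := by
    rw [hBad]
    have c1 : Pb (Pool.Agent.H49.Ent.cond F.p A True) (fun ω => ∃ r < R, ∃ i < n + 1, bad1 r i ω) ≤
        R * (((n + 1 : ℕ) : ℝ) * η') :=
      Pb_ex25 h0 (fun r ω => ∃ i < n + 1, bad1 r i ω) R fun r hr =>
        Pb_ex25 h0 (fun i ω => bad1 r i ω) (n + 1) fun i hi => hP1 r hr i hi
    have c2 : Pb (Pool.Agent.H49.Ent.cond F.p A True)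
        (fun ω => ∃ r < R + 1, ∃ l < n + 1, ∃ j < 2, bad2 r l j ω) ≤
        ((R + 1 : ℕ) : ℝ) * (((n + 1 : ℕ) : ℝ) * (((2 : ℕ) : ℝ) * η')) :=
      Pb_ex25 h0 (fun r ω => ∃ l < n + 1, ∃ j < 2, bad2 r l j ω) (R + 1) fun r hr =>
        Pb_ex25 h0 (fun l ω => ∃ j < 2, bad2 r l j ω) (n + 1) fun l hl =>
          Pb_ex25 h0 (fun j ω => bad2 r l j ω) 2 fun j hj => hP2 r hr l hl j hj
    refine (Pb_or25 h0 _ _).trans ?_
    push_cast at c1 c2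
    have c3 : (R : ℝ) * ((n + 1) * η') + (R + 1) * ((n + 1) * (2 * η')) = NB * η' := by
      rw [hNB]
      ring
    linarith
  -- the good points
  have hmass := pe_big hA hPB
  -- the labels of the windows
  obtain ⟨GB, hGBd⟩ : ∃ GB : ℕ → PtT F → ℕ → MvPolynomial (Option (Fin m)) ℝ,
    GB = fun r => if r = 0 then GA else fun x l => T r l (y r l x) := ⟨_, rfl⟩
  obtain ⟨HB, hHBd⟩ : ∃ HB : ℕ → LnT F → ℕ → MvPolynomial (Option (Fin m)) ℝ,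
    HB = fun r => if r = 0 then (fun s l => HA (upw ⌊bl 0 l * J⌋₊ ⌊z 0 * J⌋₊ s) l) else
      fun s l => T r l (y' r l (upw ⌊bl r l * J⌋₊ ⌊z r * J⌋₊ s)) := ⟨_, rfl⟩
  have hGB : ∀ r x l, 1 ≤ l → l ≤ n → GB r x l = T r l (y r l x) := by
    intro r x l h1 h2
    rw [hGBd]
    show (if r = 0 then GA else fun x l => T r l (y r l x)) x l = _
    by_cases hr : r = 0
    · subst hr
      rw [if_pos rfl]
      exact (hT0 0 l rfl h1 h2).1 x
    · rw [if_neg hr]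
  have hHB : ∀ r s l, 1 ≤ l → l ≤ n →
      HB r s l = T r l (y' r l (upw ⌊bl r l * J⌋₊ ⌊z r * J⌋₊ s)) := by
    intro r s l h1 h2
    rw [hHBd]
    show (if r = 0 then (fun s l => HA (upw ⌊bl 0 l * J⌋₊ ⌊z 0 * J⌋₊ s) l) else
      fun s l => T r l (y' r l (upw ⌊bl r l * J⌋₊ ⌊z r * J⌋₊ s))) s l = _
    by_cases hr : r = 0
    · subst hr
      rw [if_pos rfl]
      exact (hT0 0 l rfl h1 h2).2 _
    · rw [if_neg hr]
  have hTd : ∀ r ≤ R, ∀ l, 1 ≤ l → l ≤ n → ∀ v, (T r l v).totalDegree ≤ 1 ∧ DepC c l (T r l v) := by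
    intro r hr l h1 h2 v
    refine ⟨(hT r l hr h1 h2).deg v, fun b b' e1 e2 => (hT r l hr h1 h2).dep v b b' e1 fun i hi => ?_⟩
    obtain ⟨l', hl', rfl⟩ := mem_image.1 hi
    exact e2 l' (mem_range.1 hl')
  have hGω : ∀ r ≤ R, ∀ ω, A ω → ∀ l, 1 ≤ l → l ≤ n → GB r (ptr F J ω) l = Lω ω r l := by
    intro r hr ω hω l h1 h2
    rw [hGB r _ l h1 h2, ← hLe]
    rw [(hT r l hr h1 h2).cls ω hω]
  have hGB0 : GB 0 = GA := by
    rw [hGBd]
    exact if_pos rfl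
  have hHB0 : ∀ s l, HB 0 s l = HA (upw ⌊bl 0 l * J⌋₊ ⌊z 0 * J⌋₊ s) l := by
    intro s l
    have e1 : HB 0 = fun s l => HA (upw ⌊bl 0 l * J⌋₊ ⌊z 0 * J⌋₊ s) l := by
      rw [hHBd]
      exact if_pos rfl
    rw [e1]
  refine ⟨fun ω => A ω ∧ ¬ Bad ω, GB, HB, fun ω h => h.1, hmass, hGB0, hHB0, fun r hr => ?_⟩
  have hgood1 : ∀ ω, ¬ Bad ω → ∀ r < R, ∀ i, 1 ≤ i → i ≤ n → ∀ W : Option (Fin m) → ℝ,
      W none = 0 → |dd (Lω ω (r + 1) i - Lω ω r i) (bt F ω) W| ≤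
          2 ^ ((ε₁ + i * (θ + ε₁)) * J) * (1 / 2 ^ ⌊(pl (r + 1) i - ε₁) * J⌋₊ +
            1 / 2 ^ ⌊(pl r i - ε₁) * J⌋₊) *
            ∑ l ∈ range i, 2 ^ (sn l (z (r + 1)) * J) *
              |cmp c (Lω ω (r + 1)) (bt F ω) W l| := by
    intro ω hb r hr i h1 h2
    by_contra h3
    refine hb ?_
    rw [hBad]
    refine Or.inl ⟨r, hr, i, by omega, ?_⟩
    rw [hbad1]
    exact ⟨h1, h3⟩
  have hgood2 : ∀ ω, ¬ Bad ω → ∀ r ≤ R, ∀ l, 1 ≤ l → l ≤ n → ∀ j < 2,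
      |ojet F (c l) j (Lω ω r l) ω| ≤ 2 ^ ((ε₁ + j * z r) * J) *
        (1 / 2 ^ ⌊(pl r l - ε₁) * J⌋₊) := by
    intro ω hb r hr l h1 h2 j hj
    by_contra h3
    refine hb ?_
    rw [hBad]
    refine Or.inr ⟨r, by omega, l, by omega, j, hj, ?_⟩
    rw [hbad2]
    exact ⟨h1, h3⟩
  have hnY : 0 ≤ (n : ℝ) * ((n + 1) * θ + Y) := by positivity
  have hnθ : θ ≤ (n : ℝ) * ((n + 1) * θ + Y) := by
    have e1 : (1 : ℝ) ≤ n := by exact_mod_cast hn1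
    have e2 : 1 * ((n + 1) * θ + Y) ≤ (n : ℝ) * ((n + 1) * θ + Y) :=
      mul_le_mul_of_nonneg_right e1 (by positivity)
    have e3 : (0 : ℝ) ≤ n * θ := by positivity
    linarith
  have hown : ∀ ω, ¬ Bad ω → ∀ l, 1 ≤ l → l ≤ n → ∀ j < 2, |ojet F (c l) j (Lω ω r l) ω| ≤
      2 ^ ((ε + n * ((n + 1) * θ + Y) + j * z r - sn l (z r)) * J) := by
    intro ω hb l h1 h2 j hj
    refine (hgood2 ω hb r hr l h1 h2 j hj).trans ?_
    have e1 := prec_le (J := J) (p := pl r l) (e := ε₁) (x := sn l (z r) - θ - ε₁)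
      (by linarith [hpl r hr l h1 h2])
    have e2 := mul_le_mul_of_nonneg_left e1 (E_pos J (ε₁ + j * z r)).le
    refine e2.trans ?_
    have e3 : (2 : ℝ) ^ ((ε₁ + j * z r) * J) * (2 * 2 ^ (-(sn l (z r) - θ - ε₁) * J)) =
        2 * (2 ^ ((ε₁ + j * z r) * J) * 2 ^ (-(sn l (z r) - θ - ε₁) * J)) := by ring
    rw [e3, E_add]
    have e4 := mul_le_mul_of_nonneg_right f2 (E_pos J (ε₁ + j * z r + -(sn l (z r) - θ - ε₁))).le
    rw [E_add] at e4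
    refine e4.trans (E_mono J ?_)
    linarith
  refine ⟨?_, ?_, ?_, ?_, ?_, ?_⟩
  · intro x l h1 h2
    rw [hGB r x l h1 h2]
    exact hTd r hr l h1 h2 _
  · intro s l h1 h2
    rw [hHB r s l h1 h2]
    exact hTd r hr l h1 h2 _
  · intro ω hω l h1 h2
    rw [hGω r hr ω hω.1 l h1 h2, hHB r _ l h1 h2, hsl r r le_rfl hr l h1 h2, hLe]
  · intro ω hω l h1 h2
    rw [hGω r hr ω hω.1 l h1 h2, ← ojet_hgp]
    refine (hown ω hω.2 l h1 h2 0 (by norm_num)).trans (le_of_eq ?_)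
    rw [Nat.cast_zero, zero_mul, add_zero]
  · intro ω hω l h1 h2
    rw [hGω r hr ω hω.1 l h1 h2, ← ojet_vlp]
    refine (hown ω hω.2 l h1 h2 1 (by norm_num)).trans (le_of_eq ?_)
    rw [Nat.cast_one, one_mul]
  · -- the relative gradients
    intro ω hω i h1 h2 j hj
    have hfr : frA n (GB r (ptr F J ω)) = frA n (Lω ω r) := by
      funext l
      unfold frA
      split_ifs with h3
      · exact hGω r hr ω hω.1 l h3.1 h3.2
      · rfl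
    have hGA0 : GA (ptr F J ω) i = Lω ω 0 i := by
      have e1 := hGω 0 (Nat.zero_le _) ω hω.1 i h1 h2
      rw [hGB0] at e1
      exact e1
    rw [hfr, hGω r hr ω hω.1 i h1 h2, hGA0]
    obtain ⟨Aa, hAa⟩ : ∃ Aa : ℝ, Aa = 4 * 2 ^ ((ε₁ + n * (θ + ε₁) + (θ + ε₁) + Y) * J) := ⟨_, rfl⟩
    have hE1 := E_one (J := J) (a := ε₁ + n * (θ + ε₁) + (θ + ε₁) + Y) (by positivity)
    have hAa0 : 0 ≤ Aa := by
      rw [hAa]
      linarith
    have hst := stair (c := c) (n := n) (R := r) ?_ (L := Lω ω) ?_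
      (w := fun l => 2 ^ (sn l (z 0) * J)) (fun l _ => E_pos J _) hAa0 (x := bt F ω) ?_ h1 h2
      (r := 0) (Nat.zero_le _) hj
    · refine hst.trans ?_
      have e1 : (2 : ℝ) ^ (sn j (z 0) * J) / 2 ^ (sn i (z 0) * J) =
          2 ^ ((sn j (z 0) - sn i (z 0)) * J) := by
        rw [sub_mul, Real.rpow_sub (by norm_num)]
      rw [e1]
      have e2 : (1 + (r : ℝ) * Aa) ^ n ≤ 2 ^ ((ε + n * ((n + 1) * θ + Y)) * J) := by
        have g1 : 1 + (r : ℝ) * Aa ≤ (1 + 4 * (R : ℝ)) *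
            2 ^ ((ε₁ + n * (θ + ε₁) + (θ + ε₁) + Y) * J) := by
          have g2 : (r : ℝ) ≤ R := by exact_mod_cast hr
          have g3 : (r : ℝ) * Aa ≤ R * Aa := mul_le_mul_of_nonneg_right g2 hAa0
          rw [add_mul, one_mul]
          have g4 : 4 * (R : ℝ) * 2 ^ ((ε₁ + n * (θ + ε₁) + (θ + ε₁) + Y) * J) = R * Aa := by
            rw [hAa]
            ring
          rw [g4]
          linarith
        have g2 : (1 + (r : ℝ) * Aa) ^ n ≤ ((1 + 4 * (R : ℝ)) *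
            2 ^ ((ε₁ + n * (θ + ε₁) + (θ + ε₁) + Y) * J)) ^ n :=
          pow_le_pow_left₀ (by positivity) g1 n
        rw [mul_pow, E_pow] at g2
        refine g2.trans ((mul_le_mul_of_nonneg_right f1 (E_pos J _).le).trans ?_)
        rw [E_add]
        refine E_mono J ?_
        have g3 : (n : ℝ) * (ε₁ + n * (θ + ε₁) + (θ + ε₁) + Y) =
            n * (n + 2) * ε₁ + n * ((n + 1) * θ + Y) := by ring
        have g4 : (n : ℝ) * (n + 2) * ε₁ ≤ (n + 1) * (n + 2) * ε₁ := by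
          refine mul_le_mul_of_nonneg_right ?_ hε10.le
          exact mul_le_mul_of_nonneg_right (by linarith) (by positivity)
        linarith
      have e3 := mul_le_mul_of_nonneg_right e2 (E_pos J (sn j (z 0) - sn i (z 0))).le
      rw [E_add] at e3
      refine e3.trans (E_mono J ?_)
      linarith
    · exact hinj
    · intro r' hr' l h3 h4
      rw [← hLe]
      exact hTd r' (by omega) l h3 h4 _
    · intro r' hr' i' h3 h4 W hW
      refine (hgood1 ω hω.2 r' (by omega) i' h3 h4 W hW).trans ?_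
      rw [Finset.mul_sum, Finset.mul_sum]
      refine Finset.sum_le_sum fun l hl => ?_
      have hli := Finset.mem_range.1 hl
      rw [← mul_assoc, ← mul_assoc]
      refine mul_le_mul_of_nonneg_right ?_ (abs_nonneg _)
      have e1 : (2 : ℝ) ^ (sn l (z 0) * J) / 2 ^ (sn i' (z 0) * J) =
          2 ^ ((sn l (z 0) - sn i' (z 0)) * J) := by
        rw [sub_mul, Real.rpow_sub (by norm_num)]
      rw [e1, hAa]
      have e2 := prec_le (J := J) (p := pl (r' + 1) i') (e := ε₁)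
        (x := sn i' (z (r' + 1)) - θ - ε₁) (by linarith [hpl (r' + 1) (by omega) i' h3 h4])
      have e3 := prec_le (J := J) (p := pl r' i') (e := ε₁)
        (x := sn i' (z r') - θ - ε₁) (by linarith [hpl r' (by omega) i' h3 h4])
      have e4 := hY r' (by omega) r' le_rfl (Nat.le_succ _) i' h3 h4 l hli
      have e5 := hY r' (by omega) (r' + 1) (Nat.le_succ _) le_rfl i' h3 h4 l hli
      have hin : (i' : ℝ) ≤ n := by exact_mod_cast h4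
      have e6 : (2 : ℝ) ^ (-(sn i' (z (r' + 1)) - θ - ε₁) * J) * 2 ^ (sn l (z (r' + 1)) * J) ≤
          2 ^ ((sn l (z 0) - sn i' (z 0) + Y + θ + ε₁) * J) := by
        rw [E_add]
        exact E_mono J (by linarith)
      have e7 : (2 : ℝ) ^ (-(sn i' (z r') - θ - ε₁) * J) * 2 ^ (sn l (z (r' + 1)) * J) ≤
          2 ^ ((sn l (z 0) - sn i' (z 0) + Y + θ + ε₁) * J) := by
        rw [E_add]
        exact E_mono J (by linarith)
      have e8 : ((1 : ℝ) / 2 ^ ⌊(pl (r' + 1) i' - ε₁) * J⌋₊ + 1 / 2 ^ ⌊(pl r' i' - ε₁) * J⌋₊) *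
          2 ^ (sn l (z (r' + 1)) * J) ≤
          4 * 2 ^ ((sn l (z 0) - sn i' (z 0) + Y + θ + ε₁) * J) := by
        have g1 := mul_le_mul_of_nonneg_right e2 (E_pos J (sn l (z (r' + 1)))).le
        have g2 := mul_le_mul_of_nonneg_right e3 (E_pos J (sn l (z (r' + 1)))).le
        rw [mul_assoc] at g1 g2
        rw [add_mul]
        linarith
      have e9 := mul_le_mul_of_nonneg_left e8 (E_pos J (ε₁ + i' * (θ + ε₁))).le
      have e10 : (2 : ℝ) ^ ((ε₁ + i' * (θ + ε₁)) * J) *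
          (4 * 2 ^ ((sn l (z 0) - sn i' (z 0) + Y + θ + ε₁) * J)) ≤
          4 * 2 ^ ((ε₁ + n * (θ + ε₁) + (θ + ε₁) + Y) * J) *
            2 ^ ((sn l (z 0) - sn i' (z 0)) * J) := by
        have g1 : (2 : ℝ) ^ ((ε₁ + i' * (θ + ε₁)) * J) *
            (4 * 2 ^ ((sn l (z 0) - sn i' (z 0) + Y + θ + ε₁) * J)) =
            4 * (2 ^ ((ε₁ + i' * (θ + ε₁)) * J) *
              2 ^ ((sn l (z 0) - sn i' (z 0) + Y + θ + ε₁) * J)) := by ring
        rw [g1, mul_assoc (4 : ℝ), E_add, E_add]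
        refine mul_le_mul_of_nonneg_left (E_mono J ?_) (by norm_num)
        have g2 : (i' : ℝ) * (θ + ε₁) ≤ n * (θ + ε₁) :=
          mul_le_mul_of_nonneg_right hin (by linarith)
        linarith
      have e11 := e9.trans e10
      refine le_trans (le_of_eq ?_) e11
      ring

end Pool.T4J
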