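import Pool.Agent.H64.GF.Gfr

/-!
# Affine labels of the targets at two windows

`lin_id`: a vector with time component zero in the frame of the labels of the second window.
`rho_alg`: the relative gradients of the labels `GB` of the second window over the label `GA` of the
first one are natural, from the same for the charts of the second window.
-/

set_option autoImplicit false

namespace Pool.T4J

open Finset Real MvPolynomial
open Pool.Agent.H49.Ent Pool.Agent.H32.Dense Pool.STK Pool.KA Pool.KSAT Pool.K2S Pool.PB Pool.S6C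
open Pool.GEN Pool.CHT Pool.CHX Pool.ISO
open Pool.D2R Pool.GF64

variable {m : ℕ}

/-! ### Affine polynomials -/

/-- The partial derivatives of an affine polynomial are constant. -/
theorem pd_aff {G : MvPolynomial (Option (Fin m)) ℝ} (hG : G.totalDegree ≤ 1)
    (o : Option (Fin m)) : ∃ a : ℝ, pderiv o G = C a := by
  classical
  have key : ∀ s ∈ G.support, ∃ a : ℝ, pderiv o (monomial s (coeff s G)) = C a := by
    intro s hs
    have h1 : (s.sum fun _ e => e) ≤ 1 := (le_totalDegree hs).trans hG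
    rw [Finsupp.sum_fintype _ _ (fun _ => rfl)] at h1
    rw [pderiv_monomial]
    by_cases h0 : s o = 0
    · refine ⟨0, ?_⟩
      rw [h0, Nat.cast_zero, mul_zero, monomial_zero, C_0]
    · refine ⟨coeff s G * (s o : ℝ), ?_⟩
      have h2 : s - Finsupp.single o 1 = 0 := by
        ext o'
        rw [Finsupp.tsub_apply, Finsupp.coe_zero, Pi.zero_apply]
        by_cases h : o' = o
        · rw [h, Finsupp.single_eq_same]
          have h3 := Finset.single_le_sum (f := fun i => s i) (fun _ _ => Nat.zero_le _)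
            (Finset.mem_univ o)
          have h4 : s o ≤ 1 := h3.trans h1
          omega
        · have h3 : ∑ i ∈ ({o', o} : Finset (Option (Fin m))), s i ≤ ∑ i, s i :=
            Finset.sum_le_sum_of_subset (Finset.subset_univ _)
          rw [Finset.sum_pair h] at h3
          omega
      rw [h2]
      rfl
  have e : pderiv o G = ∑ s ∈ G.support, pderiv o (monomial s (coeff s G)) := by
    conv_lhs => rw [G.as_sum]
    rw [map_sum]
  rw [e]
  refine Finset.sum_induction _ (fun P : MvPolynomial (Option (Fin m)) ℝ => ∃ a : ℝ, P = C a)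
    ?_ ⟨0, C_0.symm⟩ key
  rintro _ _ ⟨a, rfl⟩ ⟨b, rfl⟩
  exact ⟨a + b, (C_add).symm⟩

/-- The derivative of an affine polynomial does not depend on the point. -/
theorem dd_aff {G : MvPolynomial (Option (Fin m)) ℝ} (hG : G.totalDegree ≤ 1)
    (x y V : Option (Fin m) → ℝ) : dd G x V = dd G y V := by
  unfold dd
  refine Finset.sum_congr rfl fun o _ => ?_
  obtain ⟨a, ha⟩ := pd_aff hG o
  rw [ha, eval_C, eval_C]

/-- An affine polynomial at two points. -/
theorem ev_aff {G : MvPolynomial (Option (Fin m)) ℝ} (hG : G.totalDegree ≤ 1)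
    (x y : Option (Fin m) → ℝ) : eval y G - eval x G = dd G x (fun o => y o - x o) := by
  obtain ⟨δ, hδ⟩ : ∃ δ : Option (Fin m) → ℝ, δ = fun o => y o - x o := ⟨_, rfl⟩
  obtain ⟨P, hP⟩ : ∃ P : MvPolynomial (Option (Fin m)) ℝ, P = G - lnp G x := ⟨_, rfl⟩
  have h1 := mv_seg P x δ (M := 0) (fun u _ => by
    rw [hP, dd_sub, dd_lnp, dd_aff hG _ x, sub_self, abs_zero]) 1 ⟨zero_le_one, le_rfl⟩
  have e1 : (fun o => x o + 1 * δ o) = y := by
    funext o
    rw [hδ]
    ring
  have h2 := abs_nonpos_iff.1 h1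
  rw [e1, hP, map_sub, map_sub, eval_lnp, eval_lnp] at h2
  have h3 : dd G x δ = dd G x y - dd G x x := by
    rw [hδ]
    unfold dd
    rw [← Finset.sum_sub_distrib]
    exact Finset.sum_congr rfl fun o _ => by ring
  rw [← hδ, h3]
  linarith

/-- **A vector in the frame of the second labels.** -/
theorem lin_id {c : ℕ → Fin m} {i : ℕ} (hc : Set.InjOn c (Set.Iio i))
    {GB : ℕ → MvPolynomial (Option (Fin m)) ℝ} {GA : MvPolynomial (Option (Fin m)) ℝ}
    (hB : ∀ l, DepC c l (GB l)) (hA : DepC c i GA) {x V : Option (Fin m) → ℝ}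
    (hV : V none = 0) : V (some (c i)) - dd GA x V = (V (some (c i)) - dd (GB i) x V) +
      ∑ j ∈ range i, ncp c i GB (GB i - GA) x j * (V (some (c j)) - dd (GB j) x V) := by
  rw [← ncp_sum hc hB (fun b b' h1 h2 => by
    rw [map_sub, map_sub, hB i b b' h1 h2, hA b b' h1 h2]) hV, dd_sub]
  ring

/-- Vectors with vanishing first components. -/
theorem dd_zero {c : ℕ → Fin m} {r : ℕ} {Q : MvPolynomial (Option (Fin m)) ℝ}
    (hQ : DepC c r Q) {x W : Option (Fin m) → ℝ} (h0 : W none = 0)
    (h : ∀ l < r, W (some (c l)) = 0) : dd Q x W = 0 := by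
  rw [dd_congr (V := 0) hQ x h0 h]
  unfold dd
  simp

/-- **The relative gradients of the labels of the second window.** -/
theorem rho_alg (r D : ℕ) : ∃ C : ℕ, 1 ≤ C ∧ ∀ {m : ℕ} {c : ℕ → Fin m}
    {ψ fr GB : ℕ → MvPolynomial (Option (Fin m)) ℝ} {GA : MvPolynomial (Option (Fin m)) ℝ}
    {g γ : ℕ → ℕ} {a U Y i : ℕ} {κ : ℕ → ℝ} {x : Option (Fin m) → ℝ},
    Set.InjOn c (Set.Iio r) → i ≤ r → (∀ l, (ψ l).totalDegree ≤ D) → (∀ l, DepC c l (ψ l)) →
    (∀ l, (GB l).totalDegree ≤ D) → (∀ l, DepC c l (GB l)) → DepC c i GA →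
    (∀ l, DepC c l (fr l)) → (∀ l, 1 ≤ l → l < i → fr l = ψ l) →
    (∀ l, 1 ≤ l → l ≤ i → ∀ b, NBx c ψ g a (x none) l b →
      |eval b (GB l) + κ l - eval b (ψ l)| ≤ 2 ^ Y / 2 ^ g l) →
    (∀ l < i, |x (some (c l)) - eval x (ψ l)| ≤ 1 / 2 ^ g l) →
    (∀ j < i, |ncp c i fr (ψ i - GA) x j| ≤ 2 ^ U * (2 ^ γ j / 2 ^ γ i)) →
    (∀ j l, j < l → l ≤ i → γ l + g j ≤ g l + γ j + Y) → 1 ≤ i →
    ∀ j < i, |ncp c i GB (GB i - GA) x j| ≤ 2 ^ (C * (U + Y + 1)) * (2 ^ γ j / 2 ^ γ i) := by
  have h := fun l : ℕ => box_dl l D D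
  choose Cb hCb hbox using h
  obtain ⟨C₁, hC₁⟩ : ∃ C₁ : ℕ, C₁ = ∑ l ∈ range (r + 1), Cb l := ⟨_, rfl⟩
  have hCl : ∀ l ≤ r, Cb l ≤ C₁ := by
    intro l hl
    rw [hC₁]
    exact Finset.single_le_sum (f := Cb) (fun _ _ => Nat.zero_le _)
      (Finset.mem_range.2 (Nat.lt_succ_of_le hl))
  obtain ⟨A, hA⟩ : ∃ A : ℕ, A = C₁ + r + 1 := ⟨_, rfl⟩
  refine ⟨A * (r + 3) + r + 3, by omega, ?_⟩
  intro m c ψ fr GB GA g γ a U Y i κ x hc hir hψd hψp hBd hBp hAp hfp hfr hnear hpos hN hS hi1 j hj
  have hci : Set.InjOn c (Set.Iio i) := hc.mono fun y hy => by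
    rw [Set.mem_Iio] at hy ⊢
    omega
  obtain ⟨W, hW0, hW⟩ := vec_adapt hci hBp x 0 (fun l => if l = j then 1 else 0) i le_rfl
  have hQi : DepC c i (GB i - GA) := fun b b' h1 h2 => by
    rw [map_sub, map_sub, hBp i b b' h1 h2, hAp b b' h1 h2]
  rw [ncp_eq hBp hQi hW0 hW]
  -- the first components vanish
  have hz : ∀ l < i, l < j → W (some (c l)) = 0 := by
    intro l
    induction l using Nat.strong_induction_on with
    | _ l ih =>
      intro hli hlj
      have h1 := hW l hli
      rw [if_neg (by omega), dd_zero (hBp l) hW0 fun l' hl' => ih l' hl' (by omega) (by omega),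
        sub_zero] at h1
      exact h1
  -- one step
  have hE : ∀ l, 1 ≤ l → l ≤ i → |dd (GB l) x W - dd (ψ l) x W| ≤
      2 ^ (C₁ + Y) / 2 ^ g l * nrm c ψ g a l x W := by
    intro l h1 h2
    obtain ⟨b1, -⟩ := hbox l (c := c) (ψ := ψ) (Q := GB l + MvPolynomial.C (κ l) - ψ l) (g := g)
      (a := a) (M := 2 ^ Y / 2 ^ g l) (x := x) (p := 0)
      (hc.mono fun y hy => by
        rw [Set.mem_Iio] at hy ⊢
        omega) hψd hψp (fun b b' g1 g2 => by
        rw [map_sub, map_sub, map_add, map_add, hBp l b b' g1 g2, hψp l b b' g1 g2, eval_C,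
          eval_C])
      ((totalDegree_sub _ _).trans (max_le ((totalDegree_add _ _).trans (max_le (hBd l) (by
        rw [totalDegree_C]
        exact Nat.zero_le _))) (hψd l))) (by positivity)
      (fun b hb => by
        rw [map_sub, map_add, eval_C]
        exact hnear l h1 h2 b hb)
      (fun l' hl' => by
        rw [pow_zero]
        exact hpos l' (by omega))
    have b2 := b1 W
    rw [dd_sub, dd_padd, dd_C, add_zero] at b2
    refine b2.trans ?_
    refine mul_le_mul_of_nonneg_right ?_ (nrm_nonneg _ _ _ _ _ _ _)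
    rw [zero_add, mul_one, ← mul_div_assoc, ← pow_add]
    exact div_le_div_of_nonneg_right (pow_le_pow_right₀ (by norm_num)
      (Nat.add_le_add_right (hCl l (by omega)) Y)) (by positivity)
  have hnr : ∀ l ≤ i, ∀ T : ℝ, 0 ≤ T → (∀ l' < l, j ≤ l' →
      |W (some (c l')) - dd (ψ l') x W| ≤ T / 2 ^ g l') →
      nrm c ψ g a l x W ≤ 2 ^ r * T ∧ (l ≤ j → nrm c ψ g a l x W = 0) := by
    intro l hl T hT hb
    have hcomp : ∀ l' < l, l' < j → W (some (c l')) - dd (ψ l') x W = 0 := by
      intro l' h1 h2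
      rw [hz l' (by omega) h2, dd_zero (hψp l') hW0 fun l'' hl'' => hz l'' (by omega) (by omega),
        sub_zero]
    constructor
    · unfold nrm
      rw [hW0, abs_zero, mul_zero, zero_add]
      calc ∑ l' ∈ range l, 2 ^ g l' * |W (some (c l')) - dd (ψ l') x W| ≤
          ∑ _l' ∈ range l, T := by
            refine Finset.sum_le_sum fun l' hl' => ?_
            have hl1 := Finset.mem_range.1 hl'
            rcases Nat.lt_or_ge l' j with h2 | h2
            · rw [hcomp l' hl1 h2, abs_zero, mul_zero]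
              exact hT
            · have h3 := hb l' hl1 h2
              rw [le_div_iff₀ (by positivity)] at h3
              linarith
        _ = l * T := by rw [Finset.sum_const, Finset.card_range, nsmul_eq_mul]
        _ ≤ 2 ^ r * T := by
            refine mul_le_mul_of_nonneg_right ?_ hT
            have h6 : ((l : ℕ) : ℝ) ≤ ((2 ^ r : ℕ) : ℝ) := by
              exact_mod_cast (show l ≤ r by omega).trans (Nat.lt_two_pow_self).le
            push_cast at h6
            exact h6
    · intro hlj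
      unfold nrm
      rw [hW0, abs_zero, mul_zero, zero_add]
      refine Finset.sum_eq_zero fun l' hl' => ?_
      have hl1 := Finset.mem_range.1 hl'
      rw [hcomp l' hl1 (by omega), abs_zero, mul_zero]
  -- the components over the charts
  have key : ∀ l₁ ≤ i, ∀ l < l₁, j ≤ l → |W (some (c l)) - dd (ψ l) x W| ≤
      2 ^ (A * l₁ * (Y + 1)) * 2 ^ g j / 2 ^ g l := by
    intro l₁
    induction l₁ with
    | zero => exact fun _ l hl => absurd hl (Nat.not_lt_zero l)
    | succ l₁ ih =>
      intro hl₁ l hl hjl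
      have hmono : (2 : ℝ) ^ (A * l₁ * (Y + 1)) * 2 ^ g j / 2 ^ g l ≤
          2 ^ (A * (l₁ + 1) * (Y + 1)) * 2 ^ g j / 2 ^ g l := by
        refine div_le_div_of_nonneg_right (mul_le_mul_of_nonneg_right (pow_le_pow_right₀
          (by norm_num) (Nat.mul_le_mul_right _ (Nat.mul_le_mul_left _ (Nat.le_succ _))))
          (by positivity)) (by positivity)
      rcases Nat.lt_or_ge l l₁ with h1 | h1
      · exact (ih (by omega) l h1 hjl).trans hmono
      have e : l = l₁ := by omega
      subst e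
      have e1 : W (some (c l)) - dd (ψ l) x W = (if l = j then 1 else 0) +
          (dd (GB l) x W - dd (ψ l) x W) := by
        rw [← hW l (by omega)]
        ring
      rcases Nat.lt_or_ge j l with h2 | h2
      · rw [e1, if_neg (by omega), zero_add]
        have h3 := (hnr l (by omega) (2 ^ (A * l * (Y + 1)) * 2 ^ g j) (by positivity)
          (fun l' hl' hjl' => ih (by omega) l' hl' hjl')).1
        refine (hE l (by omega) (by omega)).trans ((mul_le_mul_of_nonneg_left h3
          (by positivity)).trans ?_)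
        calc (2 : ℝ) ^ (C₁ + Y) / 2 ^ g l * (2 ^ r * (2 ^ (A * l * (Y + 1)) * 2 ^ g j)) =
              2 ^ (C₁ + Y + r + A * l * (Y + 1)) * 2 ^ g j / 2 ^ g l := by
              rw [pow_add, pow_add]
              ring
          _ ≤ _ := by
              refine div_le_div_of_nonneg_right (mul_le_mul_of_nonneg_right (pow_le_pow_right₀
                (by norm_num) ?_) (by positivity)) (by positivity)
              rw [hA]
              nlinarith [Nat.zero_le (C₁ * Y), Nat.zero_le (r * Y)]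
      · have e2 : l = j := by omega
        have h3 := (hnr l (by omega) 0 le_rfl (fun l' hl' hjl' => by omega)).2 (by omega)
        have h4 : dd (GB l) x W - dd (ψ l) x W = 0 := by
          rcases Nat.eq_zero_or_pos l with h5 | h5
          · rw [h5, dd_zero (hBp 0) hW0 fun l' hl' => absurd hl' (Nat.not_lt_zero l'),
              dd_zero (hψp 0) hW0 fun l' hl' => absurd hl' (Nat.not_lt_zero l'), sub_zero]
          · have h6 := hE l h5 (by omega)
            rw [h3, mul_zero] at h6
            exact abs_nonpos_iff.1 h6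
        rw [e1, h4, if_pos e2, add_zero, abs_one, e2, mul_div_assoc, div_self (by positivity),
          mul_one]
        exact one_le_pow₀ (by norm_num)
  have key' := key i le_rfl
  obtain ⟨Q, hQ⟩ : ∃ Q : ℕ, Q = A * i * (Y + 1) := ⟨_, rfl⟩
  rw [← hQ] at key'
  -- the last step
  have e1 : dd (GB i - GA) x W = (dd (GB i) x W - dd (ψ i) x W) + dd (ψ i - GA) x W := by
    rw [dd_sub, dd_sub]
    ring
  have hT0 : (0 : ℝ) ≤ 2 ^ γ j / 2 ^ γ i := by positivity
  have s1 : |dd (GB i) x W - dd (ψ i) x W| ≤ 2 ^ (C₁ + Y + r + Q + Y) * (2 ^ γ j / 2 ^ γ i) := by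
    have h3 := (hnr i le_rfl (2 ^ Q * 2 ^ g j) (by positivity)
      (fun l' hl' hjl' => key' l' hl' hjl')).1
    refine (hE i hi1 le_rfl).trans ((mul_le_mul_of_nonneg_left h3 (by positivity)).trans ?_)
    have h5 : (2 : ℝ) ^ g j / 2 ^ g i ≤ 2 ^ Y * (2 ^ γ j / 2 ^ γ i) := by
      rw [← mul_div_assoc, div_le_div_iff₀ (by positivity) (by positivity), ← pow_add, ← pow_add,
        ← pow_add]
      exact pow_le_pow_right₀ (by norm_num) (by
        have := hS j i hj le_rfl
        omega)
    calc (2 : ℝ) ^ (C₁ + Y) / 2 ^ g i * (2 ^ r * (2 ^ Q * 2 ^ g j)) =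
          2 ^ (C₁ + Y + r + Q) * (2 ^ g j / 2 ^ g i) := by
          rw [pow_add _ _ Q, pow_add _ _ r]
          ring
      _ ≤ 2 ^ (C₁ + Y + r + Q) * (2 ^ Y * (2 ^ γ j / 2 ^ γ i)) :=
          mul_le_mul_of_nonneg_left h5 (by positivity)
      _ = _ := by
          rw [pow_add _ _ Y]
          ring
  have s2 : |dd (ψ i - GA) x W| ≤ 2 ^ (r + U + Q + Y) * (2 ^ γ j / 2 ^ γ i) := by
    rw [ncp_sum hci hfp (fun b b' h1 h2 => by
      rw [map_sub, map_sub, hψp i b b' h1 h2, hAp b b' h1 h2]) hW0]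
    have hterm : ∀ l ∈ range i, |ncp c i fr (ψ i - GA) x l *
        (W (some (c l)) - dd (fr l) x W)| ≤ 2 ^ (U + Q + Y) * (2 ^ γ j / 2 ^ γ i) := by
      intro l hl
      have hl1 := Finset.mem_range.1 hl
      rw [abs_mul]
      -- the component over the frame
      have hcf : W (some (c l)) - dd (fr l) x W = W (some (c l)) - dd (ψ l) x W := by
        rcases Nat.eq_zero_or_pos l with h5 | h5
        · rw [h5, dd_zero (hfp 0) hW0 fun l' hl' => absurd hl' (Nat.not_lt_zero l'),
            dd_zero (hψp 0) hW0 fun l' hl' => absurd hl' (Nat.not_lt_zero l')]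
        · rw [hfr l h5 hl1]
      rw [hcf]
      rcases Nat.lt_or_ge l j with h2 | h2
      · rw [hz l hl1 h2, dd_zero (hψp l) hW0 fun l'' hl'' => hz l'' (by omega) (by omega),
          sub_zero, abs_zero, mul_zero]
        positivity
      · have h3 := key' l hl1 h2
        refine (mul_le_mul (hN l hl1) h3 (abs_nonneg _) (by positivity)).trans ?_
        have h5 : (2 : ℝ) ^ γ l / 2 ^ γ i * (2 ^ g j / 2 ^ g l) ≤
            2 ^ Y * (2 ^ γ j / 2 ^ γ i) := by
          rw [div_mul_div_comm, ← mul_div_assoc, div_le_div_iff₀ (by positivity) (by positivity),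
            ← pow_add, ← pow_add, ← pow_add, ← pow_add, ← pow_add]
          refine pow_le_pow_right₀ (by norm_num) ?_
          rcases Nat.lt_or_ge j l with h6 | h6
          · have := hS j l h6 hl1.le
            omega
          · have h7 : l = j := by omega
            subst h7
            omega
        calc (2 : ℝ) ^ U * (2 ^ γ l / 2 ^ γ i) * (2 ^ Q * 2 ^ g j / 2 ^ g l) =
              2 ^ (U + Q) * (2 ^ γ l / 2 ^ γ i * (2 ^ g j / 2 ^ g l)) := by
              rw [pow_add]
              ring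
          _ ≤ 2 ^ (U + Q) * (2 ^ Y * (2 ^ γ j / 2 ^ γ i)) :=
              mul_le_mul_of_nonneg_left h5 (by positivity)
          _ = _ := by
              rw [pow_add _ _ Y]
              ring
    refine (Finset.abs_sum_le_sum_abs _ _).trans ((Finset.sum_le_sum hterm).trans ?_)
    rw [Finset.sum_const, Finset.card_range, nsmul_eq_mul]
    have h6 : ((i : ℕ) : ℝ) ≤ ((2 ^ r : ℕ) : ℝ) := by
      exact_mod_cast hir.trans (Nat.lt_two_pow_self).le
    push_cast at h6
    calc (i : ℝ) * (2 ^ (U + Q + Y) * (2 ^ γ j / 2 ^ γ i)) ≤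
          2 ^ r * (2 ^ (U + Q + Y) * (2 ^ γ j / 2 ^ γ i)) :=
          mul_le_mul_of_nonneg_right h6 (by positivity)
      _ = _ := by
          rw [← mul_assoc, ← pow_add]
          congr 2
          omega
  rw [e1]
  refine (abs_add_le _ _).trans ((add_le_add s1 s2).trans ?_)
  have hQ' : Q ≤ A * r * (Y + 1) := by
    rw [hQ]
    exact Nat.mul_le_mul_right _ (Nat.mul_le_mul_left _ hir)
  have hC₁A : C₁ ≤ A := by omega
  have hrA : r ≤ A := by omega
  have x1 : C₁ + Y + r + Q + Y + 1 ≤ (A * (r + 3) + r + 3) * (U + Y + 1) := by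
    nlinarith [Nat.zero_le (A * Y), Nat.zero_le (A * U), Nat.zero_le (r * U),
      Nat.zero_le (r * Y), Nat.zero_le (A * r * U), Nat.zero_le (A * r * Y)]
  have x2 : r + U + Q + Y + 1 ≤ (A * (r + 3) + r + 3) * (U + Y + 1) := by
    nlinarith [Nat.zero_le (A * Y), Nat.zero_le (A * U), Nat.zero_le (r * U),
      Nat.zero_le (r * Y), Nat.zero_le (A * r * U), Nat.zero_le (A * r * Y)]
  obtain ⟨Z, hZ⟩ : ∃ Z : ℕ, (A * (r + 3) + r + 3) * (U + Y + 1) = Z + 1 :=
    ⟨(A * (r + 3) + r + 3) * (U + Y + 1) - 1, by omega⟩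
  rw [hZ] at x1 x2 ⊢
  have y1 : (2 : ℝ) ^ (C₁ + Y + r + Q + Y) ≤ 2 ^ Z := pow_le_pow_right₀ (by norm_num) (by omega)
  have y2 : (2 : ℝ) ^ (r + U + Q + Y) ≤ 2 ^ Z := pow_le_pow_right₀ (by norm_num) (by omega)
  have y3 := mul_le_mul_of_nonneg_right y1 hT0
  have y4 := mul_le_mul_of_nonneg_right y2 hT0
  calc _ ≤ 2 ^ Z * (2 ^ γ j / 2 ^ γ i) + 2 ^ Z * (2 ^ γ j / 2 ^ γ i) := add_le_add y3 y4
    _ = _ := by
        rw [pow_succ]
        ring

end Pool.T4J
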