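import Pool.Agent.H4.T4.Frd
import Pool.Agent.H68.OWN.Jcl

/-!
# The data of the rows, a version with other digits

`rowH_of2`: `RowH` for the record `wG`, the digits of the position up to two more. `fr_dig`: fewer
digits. `fr_cls2`: the direction of the first place is free, from closed labels with natural velocities.
-/

set_option autoImplicit false

namespace Pool.T4J

open Finset Real MvPolynomial
open Pool.Agent.H49.Ent Pool.Agent.H32.Dense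
open Pool.STK hiding pr2
open Pool.KA Pool.KSAT Pool.K2S Pool.PB Pool.S6C
open Pool.GEN Pool.CHT Pool.CHX Pool.ISO
open Pool.D2R Pool.GF64
open Pool.RCD
open Pool.GRD (LbP)
open Pool.V0F (cR FrI mx_cR)
open Pool.LA91 (ojet bd_le qG)
open Pool.T4G (wD wN wG AffX)
open Pool.AVG57 (upw upw_slam)
open Pool.T4H (Tau)
open Pool.PR46 (P1 P1_law P1_pos)
open Pool.T4M (RowH)

variable {m J : ℕ}

theorem four_le {P n : ℕ} (h : P ≤ n + 2) : (1 : ℝ) / 2 ^ n ≤ 4 / 2 ^ P := by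
  rw [div_le_div_iff₀ (by positivity) (by positivity)]
  have h1 : (2 : ℝ) ^ P ≤ 2 ^ (n + 2) := pow_le_pow_right₀ one_le_two h
  have h2 : (2 : ℝ) ^ (n + 2) = 2 ^ n * 4 := by
    rw [pow_add]
    norm_num
  linarith

/-- **The data of the rows** for the record `wG`, the digits of the position up to two more. -/
theorem rowH_of2 {F : Fam m J} {p : F.Ω → ℝ} (hp : IsLaw p) {n a a₂ q P E K : ℕ}
    {g : Fin n → ℕ} {k : Fin m} {κ Φ : Type} {Kb : F.Ω → κ} {Fp : F.Ω → Φ}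
    {Vs : LnT F → Fin n → ℝ} {e : ℝ} (haa : a ≤ a₂) (ha₂ : a₂ ≤ J) (hPE : P ≤ E + a + 2)
    -- the record is a function of the exact point, and of the line with the window `a₂`
    (hKF : ∀ ω ω', 0 < p ω → 0 < p ω' → Fp ω = Fp ω' → Kb ω = Kb ω' ∧ F.T ω = F.T ω')
    (hKL : ∀ ω ω', 0 < p ω → 0 < p ω' → slam F a₂ ω = slam F a₂ ω' → Kb ω = Kb ω')
    -- the upper digits of the velocities, given the record and the direction of `k`
    (hV : ∀ ω ω', 0 < p ω → 0 < p ω' → Kb ω = Kb ω' →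
      ⌊(2 : ℝ) ^ E * F.d ω k⌋ = ⌊(2 : ℝ) ^ E * F.d ω' k⌋ → ∀ i,
      |2 ^ g i / 2 ^ a * Vs (slam F a ω) i - 2 ^ g i / 2 ^ a * Vs (slam F a ω') i| ≤ K * 2 ^ q)
    -- the exact point knows the position of `k`
    (hy : ∀ ω ω', 0 < p ω → 0 < p ω' → Fp ω = Fp ω' → |F.x ω k - F.x ω' k| ≤ K / 2 ^ P)
    (full : J * Real.log 2 - e ≤ CH p F.T (fun ω => (F.l ω, F.Z ω)))
    (fr : CH p (fun ω => ⌊(2 : ℝ) ^ E * F.d ω k⌋) (fun ω => (Kb ω, F.T ω)) - e ≤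
      CH p (fun ω => ⌊(2 : ℝ) ^ E * F.d ω k⌋) Fp)
    (he : ((n : ℝ) + 1) * Real.log (2 * (2 * K + 11) + 1) ≤ e) :
    RowH p (slam F a₂) (wG Vs a g q Kb (cyq k a P E)) Fp (fun ω => (Kb ω, F.T ω))
      (fun ω => ⌊(2 : ℝ) ^ E * F.d ω k⌋) (fun ω => F.T ω % 2 ^ (J - a₂)) e where
  law := hp
  GA := fun ω ω' _ _ h => Prod.ext (Prod.ext_iff.1 h).1
    (Prod.ext_iff.1 (Prod.ext_iff.1 (Prod.ext_iff.1 h).2).2).1
  FA := fun ω ω' h1 h2 h => Prod.ext (hKF ω ω' h1 h2 h).1 (hKF ω ω' h1 h2 h).2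
  fr := fr
  tm := by
    have h1 := Pool.T4E.full_evt hp ha₂ full
    have h2 := tm_le hp (fun ω => F.T ω % 2 ^ (J - a₂)) (J - a₂)
      (fun ω _ => Nat.mod_lt _ (by positivity))
    rw [Nat.cast_sub ha₂] at h2
    linarith
  r1 := by
    obtain ⟨Z, hZ⟩ : ∃ Z : F.Ω × F.Ω → (κ × ((ℤ × ℤ) × (ℕ × (Fin n → ℤ)))) × ℤ, Z = fun v =>
      (wG Vs a g q Kb (cyq k a P E) v.1, ⌊(2 : ℝ) ^ E * F.d v.2 k⌋) := ⟨_, rfl⟩
    obtain ⟨X, hX⟩ : ∃ X : F.Ω × F.Ω → Fin (n + 1) → ℤ, X = fun v =>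
      Fin.cons (⌊(2 : ℝ) ^ P * lpt a (slam F a v.2) (some k)⌋)
        (wN Vs a g q (slam F a v.2)) := ⟨_, rfl⟩
    have hP1 := P1_law hp Fp
    have hX0 : ∀ v, X v 0 = ⌊(2 : ℝ) ^ P * lpt a (slam F a v.2) (some k)⌋ := fun v => by
      rw [hX]
      rfl
    have hXs : ∀ v (i : Fin n), X v i.succ = wN Vs a g q (slam F a v.2) i := fun v i => by
      rw [hX]
      rfl
    rw [← hZ]
    -- equal conditions
    have key : ∀ v v', 0 < P1 p Fp v → 0 < P1 p Fp v' → Z v = Z v' →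
        Kb v.2 = Kb v'.2 ∧ F.T v.2 = F.T v'.2 ∧
        ⌊(2 : ℝ) ^ E * F.d v.2 k⌋ = ⌊(2 : ℝ) ^ E * F.d v'.2 k⌋ ∧
        cyq k a P E (slam F a v.1) = cyq k a P E (slam F a v'.1) ∧ F.T v.1 = F.T v'.1 := by
      intro v v' hv hv' h
      rw [hZ] at h
      obtain ⟨h1, h2⟩ := Prod.ext_iff.1 h
      obtain ⟨h3, h4⟩ := Prod.ext_iff.1 h1
      obtain ⟨h5, h6⟩ := Prod.ext_iff.1 h4
      have h7 := (Prod.ext_iff.1 h6).1
      obtain ⟨a1, a2, a3⟩ := P1_pos hp Fp hv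
      obtain ⟨b1, b2, b3⟩ := P1_pos hp Fp hv'
      obtain ⟨c1, c2⟩ := hKF _ _ a1 a2 a3
      obtain ⟨d1, d2⟩ := hKF _ _ b1 b2 b3
      exact ⟨c1.symm.trans (h3.trans d1), c2.symm.trans (h7.trans d2), h2, h5, h7⟩
    have hXn : CH (P1 p Fp) X Z ≤ ((n + 1 : ℕ) : ℝ) * Real.log (2 * ((2 * K + 11 : ℕ) : ℝ) + 1) := by
      refine ch_near hP1 X Z fun v v' hv hv' h => ?_
      obtain ⟨k1, k2, k3, k4, k5⟩ := key v v' hv hv' h
      obtain ⟨a1, a2, a3⟩ := P1_pos hp Fp hv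
      obtain ⟨b1, b2, b3⟩ := P1_pos hp Fp hv'
      refine Fin.cases ?_ fun i => ?_
      · rw [hX0, hX0]
        have e1 := hy _ _ a1 a2 a3
        have e2 := hy _ _ b1 b2 b3
        have e3 := cyq_pos (haa.trans ha₂) k5 k4
        have e4 : |F.d v.2 k - F.d v'.2 k| ≤ 1 / 2 ^ E := floor_near k3
        have e5 := bt_lpt F a v.2 (some k)
        have e6 := bt_lpt F a v'.2 (some k)
        have e7 : F.t v'.2 = F.t v.2 := by
          unfold Fam.t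
          rw [k2]
        have e8 : F.T1 a v'.2 = F.T1 a v.2 := by
          unfold Fam.T1
          rw [k2]
        rw [e7, e8] at e6
        have hσ1 := win_len (haa.trans ha₂) v.2
        obtain ⟨σ, hσ⟩ : ∃ σ : ℝ, σ = F.t v.2 - (F.T1 a v.2 : ℝ) / 2 ^ a := ⟨_, rfl⟩
        rw [← hσ] at e5 e6 hσ1
        have e5' : F.x v.2 k = lpt a (slam F a v.2) (some k) + σ * F.d v.2 k := e5
        have e6' : F.x v'.2 k = lpt a (slam F a v'.2) (some k) + σ * F.d v'.2 k := e6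
        have e9 : (1 : ℝ) / 2 ^ (E + a) ≤ 4 / 2 ^ P := four_le hPE
        have hE : |σ * (F.d v.2 k - F.d v'.2 k)| ≤ 4 / 2 ^ P := by
          rw [abs_mul]
          calc |σ| * |F.d v.2 k - F.d v'.2 k| ≤ 1 / 2 ^ a * (1 / 2 ^ E) :=
                mul_le_mul hσ1 e4 (abs_nonneg _) (by positivity)
            _ = 1 / 2 ^ (E + a) := by
                rw [pow_add]
                field_simp
            _ ≤ 4 / 2 ^ P := e9
        have e10 : |lpt a (slam F a v.2) (some k) - lpt a (slam F a v'.2) (some k)| ≤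
            (2 * K + 9) / 2 ^ P := by
          have e11 : lpt a (slam F a v.2) (some k) - lpt a (slam F a v'.2) (some k) =
              (F.x v.2 k - F.x v.1 k) + (F.x v.1 k - F.x v'.1 k) + (F.x v'.1 k - F.x v'.2 k) -
                σ * (F.d v.2 k - F.d v'.2 k) := by
            rw [e5', e6']
            ring
          rw [e11]
          have e12 : (2 * (K : ℝ) + 9) / 2 ^ P =
              K / 2 ^ P + (1 / 2 ^ P + 4 / 2 ^ P) + K / 2 ^ P + 4 / 2 ^ P := by ring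
          rw [e12]
          rw [abs_le] at e1 e2 e3 hE ⊢
          constructor <;> linarith only [e1.1, e1.2, e2.1, e2.2, e3.1, e3.2, hE.1, hE.2, e9]
        have e13 : |(2 : ℝ) ^ P * lpt a (slam F a v.2) (some k) -
            2 ^ P * lpt a (slam F a v'.2) (some k)| ≤ 2 * K + 10 := by
          rw [← mul_sub, abs_mul, abs_of_pos (by positivity : (0 : ℝ) < 2 ^ P)]
          rw [le_div_iff₀ (by positivity)] at e10
          linarith
        refine (fl_sub e13).trans (le_of_eq ?_)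
        push_cast
        ring
      · rw [hXs, hXs]
        have e1 := hV _ _ a2 b2 k1 k3 i
        refine (fl_div e1).trans ?_
        push_cast
        have : (0 : ℝ) ≤ K := Nat.cast_nonneg K
        linarith
    have h2 : CH (P1 p Fp) (fun v => wG Vs a g q Kb (cyq k a P E) v.2) (fun v => (X v, Z v)) = 0 := by
      refine CH_eq_zero hP1.nonneg fun v v' hv hv' h => ?_
      have h3 : X v = X v' := (Prod.ext_iff.1 h).1
      have h4 : Z v = Z v' := (Prod.ext_iff.1 h).2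
      obtain ⟨k1, k2, k3, k4, k5⟩ := key v v' hv hv' h4
      have h5 := congrFun h3 0
      rw [hX0, hX0] at h5
      have h6 : ∀ i : Fin n, wN Vs a g q (slam F a v.2) i = wN Vs a g q (slam F a v'.2) i :=
        fun i => by
          have h7 := congrFun h3 i.succ
          rw [hXs, hXs] at h7
          exact h7
      exact Prod.ext k1 (Prod.ext (Prod.ext h5 k3) (Prod.ext k2 (funext h6)))
    have h3 := CH_le_add hP1.nonneg (fun v => wG Vs a g q Kb (cyq k a P E) v.2) X Z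
    rw [h2, add_zero] at h3
    refine h3.trans (hXn.trans (le_trans (le_of_eq ?_) he))
    push_cast
    ring
  r2 := by
    have hP1 := P1_law hp (slam F a₂)
    have h2 : CH (P1 p (slam F a₂)) (fun v => wG Vs a g q Kb (cyq k a P E) v.2)
        (fun v => (wG Vs a g q Kb (cyq k a P E) v.1, F.T v.2 % 2 ^ (J - a₂))) = 0 := by
      refine CH_eq_zero hP1.nonneg fun v v' hv hv' h => ?_
      obtain ⟨h3, h4⟩ := Prod.ext_iff.1 h
      obtain ⟨h5, h6⟩ := Prod.ext_iff.1 h3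
      obtain ⟨h7, h8⟩ := Prod.ext_iff.1 h6
      obtain ⟨h9, h10⟩ := Prod.ext_iff.1 h8
      obtain ⟨a1, a2, a3⟩ := P1_pos hp (slam F a₂) hv
      obtain ⟨b1, b2, b3⟩ := P1_pos hp (slam F a₂) hv'
      have c1 := Pool.T4E.ll_evt haa ha₂ _ _ a1 a2 a3
      have c2 := Pool.T4E.ll_evt haa ha₂ _ _ b1 b2 b3
      have t1 : F.T1 a₂ v.1 = F.T1 a₂ v.2 := (Prod.ext_iff.1 (Prod.ext_iff.1 a3).2).2
      have t2 : F.T1 a₂ v'.1 = F.T1 a₂ v'.2 := (Prod.ext_iff.1 (Prod.ext_iff.1 b3).2).2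
      have t3 : F.T1 a₂ v.1 = F.T1 a₂ v'.1 := by
        unfold Fam.T1
        rw [show F.T v.1 = F.T v'.1 from h9]
      have t4 : F.T v.2 / 2 ^ (J - a₂) = F.T v'.2 / 2 ^ (J - a₂) := by
        have t5 : F.T1 a₂ v.2 = F.T1 a₂ v'.2 := by rw [← t1, t3, t2]
        unfold Fam.T1 at t5
        exact t5
      have t5 : F.T v.2 = F.T v'.2 := by
        rw [← Nat.div_add_mod (F.T v.2) (2 ^ (J - a₂)), ← Nat.div_add_mod (F.T v'.2) (2 ^ (J - a₂)),
          t4]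
        have h11 : F.T v.2 % 2 ^ (J - a₂) = F.T v'.2 % 2 ^ (J - a₂) := h4
        rw [h11]
      show (Kb v.2, (cyq k a P E (slam F a v.2), (F.T v.2, wN Vs a g q (slam F a v.2)))) =
        (Kb v'.2, (cyq k a P E (slam F a v'.2), (F.T v'.2, wN Vs a g q (slam F a v'.2))))
      rw [← c1, ← c2, ← hKL _ _ a1 a2 a3, ← hKL _ _ b1 b2 b3, t5]
      exact Prod.ext h5 (Prod.ext h7 (Prod.ext rfl h10))
    rw [h2]
    refine le_trans ?_ he
    refine mul_nonneg (by positivity) (Real.log_nonneg ?_)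
    have : (0 : ℝ) ≤ K := Nat.cast_nonneg K
    linarith

/-- **Fewer digits.** -/
theorem fr_dig {Ω X Y T₁ T₂ : Type} [Fintype Ω] {p : Ω → ℝ} (hp : IsLaw p) {x : Ω → X}
    {y : Ω → Y} {Z₁ : Ω → T₁} {Z₂ : Ω → T₂} {κ : ℝ}
    (hxy : ∀ ω ω', 0 < p ω → 0 < p ω' → y ω = y ω' → x ω = x ω')
    (hZ : ∀ ω ω', 0 < p ω → 0 < p ω' → Z₂ ω = Z₂ ω' → Z₁ ω = Z₁ ω')
    (h : CH p y Z₁ ≤ CH p y Z₂ + κ) : CH p x Z₁ ≤ CH p x Z₂ + κ := by
  have h0 := hp.nonneg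
  have s1 := CH_chain h0 y x Z₁
  have s1' : CH p (fun ω => (y ω, x ω)) Z₁ = CH p y Z₁ :=
    CH_congr h0 (fun ω ω' _ _ e => (Prod.ext_iff.1 (Prod.ext_iff.1 e).1).1)
      (fun ω ω' a b e => Prod.ext (Prod.ext_iff.1 e).1 (hxy ω ω' a b (Prod.ext_iff.1 e).1))
      (fun _ _ _ _ e => e) (fun _ _ _ _ e => e)
  have s2 := CH_le_add h0 y x Z₂
  have s3 : CH p y (fun ω => (x ω, Z₂ ω)) ≤ CH p y (fun ω => (x ω, Z₁ ω)) :=
    CH_mono_cond h0 fun ω ω' a b e => Prod.ext (Prod.ext_iff.1 e).1 (hZ ω ω' a b (Prod.ext_iff.1 e).2)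
  linarith

/-- Upper digits are functions of the lower ones. -/
theorem dig_le {E E' : ℕ} (h : E ≤ E') {x y : ℝ} (e : ⌊(2 : ℝ) ^ E' * x⌋ = ⌊(2 : ℝ) ^ E' * y⌋) :
    ⌊(2 : ℝ) ^ E * x⌋ = ⌊(2 : ℝ) ^ E * y⌋ := by
  have e1 : ∀ z : ℝ, ⌊(2 : ℝ) ^ E * z⌋ = ⌊(2 : ℝ) ^ E' * z⌋ / (2 : ℤ) ^ (E' - E) := fun z => by
    have h1 := Int.floor_div_natCast ((2 : ℝ) ^ E' * z) (2 ^ (E' - E))
    push_cast at h1
    rw [← h1]
    congr 1
    have h2 : (2 : ℝ) ^ E' = 2 ^ E * 2 ^ (E' - E) := by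
      rw [← pow_add, Nat.add_sub_cancel' h]
    rw [h2]
    field_simp
  rw [e1, e1, e]

/-- **The direction of the first place is free**, from the free velocities of a class and closed labels
of the degree `D`. -/
theorem fr_cls2 {S : PCl m}
    (hpos : ∀ (τ : ℝ) (J : ℕ) (F : Fam m J) (A : F.Ω → Prop), S.St τ J F A → 0 < Pe F.p A)
    {c : ℕ → Fin m} {sp : ℕ → ℝ → ℝ} {b P w₁ x' κf : ℝ} (hP : 0 ≤ P)
    (hbw : b ≤ w₁) (hwx : w₁ ≤ x') (hx1 : x' ≤ 1)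
    (hF : FrI S c 1 sp b (fun _ => P) w₁ x' κf) {D : ℕ} {E₀ r₀ pr : ℝ} (hE0 : 0 ≤ E₀)
    (hr0 : 0 ≤ r₀) (hpr : sp 0 b ≤ pr)
    (hlab : ∀ e : ℝ, 0 < e → Bas S (fun J F A => ∃ (V : Type) (z : PtT F → V) (z' : LnT F → V)
      (G : V → MvPolynomial (Option (Fin m)) ℝ), LbOK F ∅ (c 0) D ⌊(E₀ + e) * J⌋₊ J ⌊b * J⌋₊
        ⌊(r₀ + e) * J⌋₊ ⌊(pr - e) * J⌋₊ A z z' G)) :
    Bas S (fun J F A => ∀ E : ℕ, E ≤ ⌊P * J⌋₊ →
      CH (Pool.Agent.H49.Ent.cond F.p A True) (fun ω => ⌊(2 : ℝ) ^ E * F.d ω (c 0)⌋)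
        (fun ω => (cR F A w₁ ω, F.W ω)) ≤
      CH (Pool.Agent.H49.Ent.cond F.p A True) (fun ω => ⌊(2 : ℝ) ^ E * F.d ω (c 0)⌋)
        (fun ω => (cR F A x' ω, F.W ω)) + (κf * J + Real.log 5 + Real.log 7)) := by
  obtain ⟨k₂, hk₂, e₀, he₀, H⟩ := hF
  obtain ⟨M, J₁, hM⟩ := Pool.OWN68.cnt_jet m D 1 (N := P) (e := E₀ + e₀) (r := r₀) (w := b) hr0
    (by positivity)
  have hp : Bas S (fun _ F A => 0 < Pe F.p A) := ⟨1, one_pos, 0, fun J _ F A hA => hpos 1 J F A hA⟩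
  refine Bas.mono J₁ (((H (max M D)).and hp).and (hlab e₀ he₀)) ?_
  rintro J hJ F A ⟨⟨h1, hA⟩, V, z, z', G, hl⟩ E hE
  have hJ0 : (0 : ℝ) ≤ J := Nat.cast_nonneg J
  have hq := isLaw_cond F.isLaw hA
  have z1 : Pool.LA91.Mx (fun J F => ptr F J) (vg w₁) k₂ F A (cR F A w₁) := mx_cR hA w₁ hk₂.le
  have z2 : Pool.LA91.Mx (fun J F => ptr F J) (vg x') k₂ F A (cR F A x') := mx_cR hA x' hk₂.le
  have hcnt := hM J hJ F ∅ (c 0) _ A V z z' G (hl.mono (Finset.Subset.refl _) le_rfl le_rfl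
    (Nat.floor_le_floor (mul_le_mul_of_nonneg_right (by linarith) hJ0)) le_rfl)
  have h2 := h1 _ _ _ _ z1 z2 (fun ω _ => ⌊(2 : ℝ) ^ (P * J) *
    ojet F (c 0) 1 (G (z' (slam F ⌊b * J⌋₊ ω))) ω⌋) (fun i => by
      have e1 : (i : ℕ) = 0 := by omega
      have e2 : (range (i : ℕ)).image c = ∅ := by
        rw [e1]
        simp
      show (Pool.LA91.qJet m ((range (i : ℕ)).image c) (c i) 1 b (sp i b) P).P (max M D) e₀ J F A
        (fun ω => ⌊(2 : ℝ) ^ (P * J) * ojet F (c 0) 1 (G (z' (slam F ⌊b * J⌋₊ ω))) ω⌋)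
      rw [e2, e1]
      refine ⟨hcnt.trans (Real.exp_le_exp.2 ?_), V, z, z', G,
        (LbP.of hl).mono (Finset.Subset.refl _) (le_max_right _ _)
          (Nat.floor_le_floor (mul_le_mul_of_nonneg_right (by linarith) hJ0)), fun ω _ => rfl⟩
      exact mul_le_mul_of_nonneg_right (by exact_mod_cast le_max_left M D) hJ0)
  -- one integer
  have hone : ∀ {T : Type} (Z : F.Ω → T), CH (Pool.Agent.H49.Ent.cond F.p A True)
      (fun ω (_ : Fin 1) => ⌊(2 : ℝ) ^ (P * J) * ojet F (c 0) 1 (G (z' (slam F ⌊b * J⌋₊ ω))) ω⌋)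
      Z = CH (Pool.Agent.H49.Ent.cond F.p A True)
      (fun ω => ⌊(2 : ℝ) ^ (P * J) * ojet F (c 0) 1 (G (z' (slam F ⌊b * J⌋₊ ω))) ω⌋) Z := by
    intro T Z
    refine CH_congr hq.nonneg ?_ ?_ (fun _ _ _ _ h => h) (fun _ _ _ _ h => h)
    · intro ω ω' _ _ e
      exact congrFun (Prod.ext_iff.1 e).1 0
    · intro ω ω' _ _ e
      funext _
      exact (Prod.ext_iff.1 e).1
  rw [hone, hone] at h2
  have key : ∀ j : ℝ, b ≤ j → j ≤ 1 → ∀ ω ω', 0 < Pool.Agent.H49.Ent.cond F.p A True ω →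
      0 < Pool.Agent.H49.Ent.cond F.p A True ω' →
      (cR F A j ω, F.W ω) = (cR F A j ω', F.W ω') →
      ojet F (c 0) 1 (G (z' (slam F ⌊b * J⌋₊ ω))) ω -
        ojet F (c 0) 1 (G (z' (slam F ⌊b * J⌋₊ ω'))) ω' = F.d ω (c 0) - F.d ω' (c 0) := by
    intro j hbj hj1 ω ω' _ _ e
    have e1 : cR F A j ω = cR F A j ω' := (Prod.ext_iff.1 e).1
    have e2 : F.W ω = F.W ω' := (Prod.ext_iff.1 e).2
    have e3 : F.T ω = F.T ω' := (Prod.ext_iff.1 e2).1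
    have e4 := cR_cd hbj hj1 hl.cls e1
    rw [e4]
    exact ojet_time (hl.dep _) e3
  have h3 := fr_law hq (by positivity) (key w₁ hbw (hwx.trans hx1)) (key x' (hbw.trans hwx) hx1) h2
  refine fr_dig hq (y := fun ω => ⌊(2 : ℝ) ^ ⌊P * J⌋₊ * F.d ω (c 0)⌋)
    (fun ω ω' _ _ e => dig_le hE e) (fun ω ω' _ _ e => ?_) (by linarith)
  exact Prod.ext (cR_mn hwx hx1 (Prod.ext_iff.1 e).1) (Prod.ext_iff.1 e).2

end Pool.T4J
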