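import Pool.Agent.H4.T4.Pcl
import Pool.Agent.H4.T4.Rwx

/-!
# The data of the rows of samples

`fr_cx`: the direction of the slope-one place is free given the record of the first system. `stH`: the
piece `PhH`: the data of the rows of samples.
-/

set_option autoImplicit false

namespace Pool.T4J

open Finset Real MvPolynomial
open Pool.Agent.H49.Ent Pool.Agent.H32.Dense
open Pool.STK hiding pr2
open Pool.KA Pool.KSAT Pool.K2S Pool.PB Pool.S6C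
open Pool.GEN Pool.CHT Pool.CHX Pool.ISO
open Pool.D2R Pool.GF64
open Pool.D2F2 (hgp vlp ojet_hgp ojet_vlp)
open Pool.RCD Pool.LA91
open Pool.GRD (LbP)
open Pool.CDX (AffL)
open Pool.T4N (Frm FrmP AffAt fX fV fXs fVs cYp fV_eq fVs_two)
open Pool.T4X
open Pool.V0F (LbE cR FrI)
open Pool.AVG57 (upw upw_slam)
open Pool.T4E (vtf)
open Pool.T4G (wD wN wG)
open Pool.T4M (RowH)
open Pool.T4P36 (PhH)

variable {J : ℕ}

/-- **The direction of the slope-one place is free.** `v`: the window of the record; `w₂`: the window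
of the exact record; `Q`: the digits. -/
theorem fr_cx {X : Cx} {s hr T N₀ Λ e κ₀ : ℝ} {L : ℕ} (H : X.Ok s hr T N₀ Λ e κ₀ L) (hT : 1 ≤ T)
    (hΛ : T + 1 ≤ Λ) {v w₂ : ℝ} (htv : X.t < v) (hv1 : v ≤ 1) (hvw : v ≤ w₂) (hw : w₂ ∈ X.G)
    (hw2 : w₂ ≤ X.t + Λ * X.q) (hst : 0 ≤ X.sn 0 X.t - X.t + T * X.q) :
    Bas X.S (fun J F B =>
      CH (lq F B) (fun ω => ⌊(2 : ℝ) ^ lL X T J * F.d ω (X.c 0)⌋)
        (fun ω => (cR F B v ω, F.W ω)) ≤
      CH (lq F B) (fun ω => ⌊(2 : ℝ) ^ lL X T J * F.d ω (X.c 0)⌋)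
        (fun ω => (cR F B w₂ ω, F.W ω)) + (e * X.q * J + Real.log 5 + Real.log 7)) := by
  have Bx := H.box
  have hq := Bx.u0
  have hφ := Bx.lad.φ0
  have hTq : 1 * X.q ≤ T * X.q := mul_le_mul_of_nonneg_right hT hq.le
  have hΛq : (T + 1) * X.q ≤ Λ * X.q := mul_le_mul_of_nonneg_right hΛ hq.le
  have hb0 := Bx.b0
  have hbw := Bx.bw
  have hwo := Bx.wo
  have ho1 := Bx.o1
  obtain ⟨w₁, hw₁, hw₁'⟩ := exists_rat_btwn htv
  obtain ⟨P, hP, hP'⟩ := exists_rat_btwn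
    (show X.sn 0 X.t - X.t + T * X.q < X.sn 0 X.t - X.t + (T + 1) * X.q by linarith)
  have hF : FrI X.S X.c 1 X.sp X.b (fun _ => (P : ℝ)) w₁ w₂ (e * X.q) :=
    Bx.free (fun _ => P) w₁ w₂ hw₁.le hw (by linarith) hw2
      (fun i => by
        obtain rfl : i = 0 := Subsingleton.elim _ _
        exact ⟨by simp only [Fin.val_zero]; linarith, by simp only [Fin.val_zero]; linarith⟩)
      (fun l i h => absurd h (by
        obtain rfl : i = l := Subsingleton.elim _ _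
        exact lt_irrefl _))
  obtain ⟨E, rd, ρ, -, hE, hlab⟩ := Bx.lab X.b Bx.lad.bG le_rfl Bx.lad.bo
  obtain ⟨hE0, -, hr0, -⟩ := hE 0 (by norm_num)
  have key := fr_cls2 H.pos (c := X.c) (sp := X.sp) (b := X.b) (P := P) (w₁ := w₁) (x' := w₂)
    (by linarith) (by linarith) (by linarith) (by linarith) hF (D := X.D) hE0 hr0
    (pr := X.sn 0 X.b) (by linarith [Bx.spb 0 (by norm_num)]) (fun e' he' => by
      refine Bas.mono 0 (hlab e' he') ?_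
      rintro J - F A ⟨V, z, z', g, hl⟩
      have h2 := hl 0 (by norm_num)
      rw [show (range 0).image X.c = ∅ by simp] at h2
      exact ⟨V, z, z', _, h2⟩)
  refine Bas.mono 0 key ?_
  intro J _ F B h1
  have hJ0 : (0 : ℝ) ≤ J := Nat.cast_nonneg J
  have h2 := h1 (lL X T J) (Nat.floor_le_floor (mul_le_mul_of_nonneg_right hP.le hJ0))
  refine le_trans ?_ h2
  exact CH_mono_cond (cond_nonneg F.isLaw.nonneg B True) fun ω ω' _ _ h =>
    Prod.ext (cR_mn hw₁'.le hv1 (Prod.ext_iff.1 h).1) (Prod.ext_iff.1 h).2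

/-- **The data of the rows of samples.** -/
theorem stH : StHw lbH := by
  intro s hr Γ hs _ _ hΓ hGA ε hε
  have hA0 := hGA.1 0 (by norm_num) (by norm_num)
  have hm1 := hΓ.m1
  have hi₁ : 1 ≤ Γ.i₁ := by
    rw [hΓ.ei₁]
    exact Nat.mul_pos hA0 hm1
  have hi₂ : Γ.i₂ ≤ Γ.L := hΓ.iL
  have hk₂ : Γ.k₂ ≤ Γ.i₂ := by
    rw [hΓ.ei₂]
    exact Nat.le_add_right _ _
  have hik := hΓ.ik
  have hiL : Γ.i₁ ≤ Γ.L := by omega
  have hkL : Γ.k₂ ≤ Γ.L := hk₂.trans hi₂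
  refine ⟨1, s + 3, one_pos, fun κ₀ T N₀ _ _ hT hN => ⟨T + 3, 100, min (1 / 2) (ε / (4 * N₀)),
    lt_min (by norm_num) (by positivity), fun Λ e hΛ he hec X hX μ w₂ hμ hμ' hw hw1 hw2 => ?_⟩⟩
  have he2 : e ≤ 1 / 2 := hec.trans (min_le_left _ _)
  have heN : e ≤ ε / (4 * N₀) := hec.trans (min_le_right _ _)
  have hμ2 : μ ≤ X.ρ := by
    have h1 := mul_le_mul_of_nonneg_right (min_le_left (1 / 2) (ε / (4 * N₀))) hX.ρ0.le
    linarith [hX.ρ0]
  have G := gw hX hs (by linarith) hΛ he he2 (by omega) hμ hμ2 hw hw1 hw2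
  obtain ⟨q0, ρ0, μ0, μρ, ρq, φ0, φμ, inj, xG, xq, xρ, xw, wG', lx, lw', -⟩ := G
  have hΛ1 : 1 ≤ Λ := by linarith
  have hΛq : X.q ≤ Λ * X.q := le_mul_of_one_le_left q0.le hΛ1
  have hTq : (s + 3) * X.q ≤ T * X.q := mul_le_mul_of_nonneg_right hT q0.le
  have hsq : X.q ≤ s * X.q := le_mul_of_one_le_left q0.le hs.le
  have hs0 : |X.sn 0 X.t - X.t| ≤ e * X.q := hX.s0 X.t hX.box.wG le_rfl (by linarith)
  have heμ : e * X.q ≤ μ / 100 := by
    rw [le_div_iff₀ (by norm_num)]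
    linarith
  rw [abs_le] at hs0
  have heq : e * X.q ≤ ε * X.ρ / 4 := by
    have h1 : e * X.q ≤ ε / (4 * N₀) * (N₀ * X.ρ) :=
      mul_le_mul heN hX.qN q0.le (by positivity)
    have h2 : ε / (4 * N₀) * (N₀ * X.ρ) = ε * X.ρ / 4 := by
      have : N₀ ≠ 0 := by positivity
      field_simp
    linarith
  have sw := lw'.z
  rw [abs_le] at sw
  -- the direction is free, the time is full
  have hfr := fr_cx hX (v := X.x Γ.i₁) (w₂ := w₂) (by linarith) (by linarith)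
    (by linarith [xρ _ hi₁ hiL]) (lx _ hiL).w1 (xw _ hiL) hw wG'.2.2 (by linarith)
  have hfull := full_own hX.box.lad.tm (e := ε * X.ρ / 2) (by positivity)
  -- the thresholds
  obtain ⟨R, hR⟩ : ∃ R : ℝ, R = 30 + ε + Real.log 5 + Real.log 7 +
      (((3 : ℕ) : ℝ) + 1) * Real.log (2 * (2 * ((1 : ℕ) : ℝ) + 11) + 1) := ⟨_, rfl⟩
  have hl5 : 0 ≤ Real.log 5 := Real.log_nonneg (by norm_num)
  have hl7 : 0 ≤ Real.log 7 := Real.log_nonneg (by norm_num)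
  have hl27 : 0 ≤ (((3 : ℕ) : ℝ) + 1) * Real.log (2 * (2 * ((1 : ℕ) : ℝ) + 11) + 1) :=
    mul_nonneg (by positivity) (Real.log_nonneg (by norm_num))
  obtain ⟨J₁, hJ₁⟩ := exists_nat_ge (30 / μ)
  obtain ⟨J₂, hJ₂⟩ := exists_nat_ge (2 * R / (ε * X.ρ))
  obtain ⟨J₃, hJ₃⟩ := lP_six (X := X) (T := T) (by
    have h1 := (lx 0 (Nat.zero_le _)).t0 0 (by norm_num)
    linarith)
  rw [div_le_iff₀ μ0] at hJ₁
  rw [div_le_iff₀ (by positivity)] at hJ₂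
  refine ⟨1, one_pos, {X.x Γ.i₁, w₂}, fun v hv => ?_,
    Bas.mono (max J₁ (max J₂ J₃)) (hfr.and hfull) ?_⟩
  · simp only [Finset.mem_insert, Finset.mem_singleton] at hv
    rcases hv with rfl | rfl
    · exact xG _ hiL
    · exact wG'
  rintro J hJ F B ⟨h1, h2⟩ Fr k ν E hLb
  have hJ1 : J₁ ≤ J := (le_max_left _ _).trans hJ
  have hJ2 : J₂ ≤ J := ((le_max_left _ _).trans (le_max_right _ _)).trans hJ
  have hP6 := hJ₃ J (((le_max_right _ _).trans (le_max_right _ _)).trans hJ)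
  have hJ0 : (0 : ℝ) ≤ J := Nat.cast_nonneg J
  have hJμ : 30 ≤ μ * J := by
    have h3 : (J₁ : ℝ) ≤ J := by exact_mod_cast hJ1
    have h4 := mul_le_mul_of_nonneg_left h3 μ0.le
    linarith
  have hJR : 2 * R ≤ ε * X.ρ * J := by
    have h3 : (J₂ : ℝ) ≤ J := by exact_mod_cast hJ2
    have h4 := mul_le_mul_of_nonneg_left h3 (by positivity : 0 ≤ ε * X.ρ)
    linarith
  have nm := E.nm
  have hp : IsLaw (lq F B) := isLaw_cond F.isLaw E.pos
  have hpB : ∀ ω, 0 < lq F B ω → B ω := fun ω hω => by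
    have h := ((cond_pos_iff F.isLaw.nonneg B True ω).1 hω).2
    simpa using h
  have L₁ : Lbx X (μ / 100) F B Fr (X.x Γ.i₁) := hLb _ (by simp)
  have Lw : Lbx X (μ / 100) F B Fr w₂ := hLb _ (by simp)
  obtain ⟨⟨GB, HB, L⟩, -⟩ := L₁
  have Lv := lx Γ.i₁ hiL
  have ea : ν.a = ⌊X.x 0 * J⌋₊ := nm.ea
  have ea₂ : ν.a₂ = ⌊X.x Γ.k₂ * J⌋₊ := nm.ea₂
  have haJ : ν.a ≤ J := nm.haa.trans nm.ha₂
  have hwa : ∀ i, lw X J i ≤ ν.a := fun i => by
    rw [ea]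
    exact Nat.floor_le_floor (mul_le_mul_of_nonneg_right ((lx 0 (Nat.zero_le _)).bl i) hJ0)
  -- the unit
  have hυρ : X.ρ ≤ Γ.m * X.ρ := le_mul_of_one_le_left ρ0.le (by exact_mod_cast hm1)
  have hυJ : X.ρ * J ≤ Γ.m * X.ρ * J := mul_le_mul_of_nonneg_right hυρ hJ0
  have hul : (Γ.m : ℝ) * X.ρ * J ≤ ν.u + 1 := nm.ul
  have huρ : X.ρ * J - 1 ≤ ν.u := by linarith
  have huε : ε * X.ρ * J - ε ≤ ε * ν.u := by
    have h3 := mul_le_mul_of_nonneg_left huρ hε.le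
    linarith
  have nb : ∀ i : Fin 3, (ν.n i : ℝ) ≤ (X.sn (1 + i) (X.x Γ.i₁) - X.x Γ.i₁ - μ) * J := nm.nb
  have eg : ∀ i : Fin 3, (ν.g i : ℝ) = ν.a + (Γ.A 0 : ℝ) * ν.u + ν.n i := fun i => by
    rw [nm.eg i]
    push_cast
    ring
  have hφJ : X.φ * J ≤ μ * J / 100 := by
    have h3 := mul_le_mul_of_nonneg_right φμ hJ0
    linarith
  have hlL : (X.sn 0 X.t - X.t + T * X.q) * J < (lL X T J : ℝ) + 1 := Nat.lt_floor_add_one _
  have hD : X.φ ≤ s * (X.x Γ.i₁ - X.t) := by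
    have h3 := xρ Γ.i₁ hi₁ hiL
    have h4 : 1 * (X.x Γ.i₁ - X.t) ≤ s * (X.x Γ.i₁ - X.t) :=
      mul_le_mul_of_nonneg_right hs.le (by linarith)
    linarith
  have hx01 : X.x 0 ≤ X.x Γ.i₁ := x_le hX (Nat.zero_le _)
  have hx1k : X.x Γ.i₁ ≤ X.x Γ.k₂ := x_le hX hik.le
  have hlP : lP X T J ≤ lL X T J + ν.a + 2 := by
    rw [ea]
    exact lP_lL (xG 0 (Nat.zero_le _)).2.1 J
  refine ⟨_, _, _, _, _, _, rowH_of2 (n := 3) (K := 1) (k := X.c 0) (E := lL X T J)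
    (P := lP X T J) (a := ν.a) (q := Γ.A 0 * ν.u) (g := ν.g) (Kb := eK X Γ F B)
    (Fp := lFp F B w₂) (Vs := eV X F Fr ν) (e := ε * ν.u) hp nm.haa nm.ha₂ hlP ?_ ?_ ?_ ?_ ?_ ?_ ?_⟩
  · intro ω ω' hω hω' hF
    have hFw : cR F B w₂ ω = cR F B w₂ ω' := (Prod.ext_iff.1 hF).1
    have hW : F.W ω = F.W ω' := (Prod.ext_iff.1 hF).2
    exact ⟨Prod.ext (cR_mn (xw _ hiL) lw'.w1 hFw)
      (cR_mn (xw 0 (Nat.zero_le _)) lw'.w1 hFw), (Prod.ext_iff.1 hW).1⟩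
  · intro ω ω' hω hω' hl
    rw [ea₂] at hl
    have h3 := cR_ln (j := X.x Γ.k₂) (hpB ω hω) (hpB ω' hω') hl
    exact Prod.ext (cR_mn hx1k (lx _ hkL).w1 h3) (cR_mn (hx01.trans hx1k) (lx _ hkL).w1 h3)
  · intro ω ω' hω hω' hK hd i
    have hK1 : cR F B (X.x Γ.i₁) ω = cR F B (X.x Γ.i₁) ω' := (Prod.ext_iff.1 hK).1
    have h3 := hv_re L (D := s * (X.x Γ.i₁ - X.t) - X.φ) (ω := ω) (ω' := ω') (E := lL X T J)
      (q := Γ.A 0 * ν.u) (a := ν.a) (g := ν.g) inj (frG_dg E.fr) (by positivity) Lv.t0 Lv.v0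
      Lv.w0 (by linarith) Lv.up (hpB ω hω) (hpB ω' hω')
      (eA_of E.fr Lv.bl Lv.w1 (hpB ω hω) (hpB ω' hω') hK1)
      (eB_of L le_rfl Lv.w1 (hpB ω hω) (hpB ω' hω') hK1) (floor_near hd) (fun i => ?_)
      (fun i => ?_) i
    · have e1 : eV X F Fr ν (slam F ν.a ω) i =
          vlp F (X.c (i + 1)) (frG Fr (ptr F J ω) (i + 1)) ω := eV_vlp E.fr hwa haJ (hpB ω hω) i
      have e2 : eV X F Fr ν (slam F ν.a ω') i =
          vlp F (X.c (i + 1)) (frG Fr (ptr F J ω') (i + 1)) ω' := eV_vlp E.fr hwa haJ (hpB ω' hω') i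
      rw [e1, e2, Nat.cast_one, one_mul]
      exact h3
    · have h4 := nb i
      have h5 := eg i
      have h6 := mul_le_mul_of_nonneg_right (Lv.dn (1 + i) (by omega) (by omega)) hJ0
      rw [Nat.add_comm (i : ℕ) 1]
      push_cast
      linarith
    · have h4 := nb i
      have h5 := eg i
      have h6 := mul_le_mul_of_nonneg_right (Lv.dn (1 + i) (by omega) (by omega)) hJ0
      have h7 : (s - 1) * (X.x Γ.i₁ - X.t) ≤ (s - 1) * X.q :=
        mul_le_mul_of_nonneg_left (by linarith [xq _ hiL]) (by linarith)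
      have h8 := mul_le_mul_of_nonneg_right h7 hJ0
      have h9 := mul_le_mul_of_nonneg_right hTq hJ0
      have h10 : μ * J ≤ X.q * J := mul_le_mul_of_nonneg_right (μρ.trans ρq) hJ0
      rw [Nat.add_comm (i : ℕ) 1]
      push_cast
      linarith
  · intro ω ω' hω hω' hF
    have hFw : cR F B w₂ ω = cR F B w₂ ω' := (Prod.ext_iff.1 hF).1
    have hW : F.W ω = F.W ω' := (Prod.ext_iff.1 hF).2
    have ht : F.T ω = F.T ω' := (Prod.ext_iff.1 hW).1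
    have hy := x_l0 (j := w₂) (v := w₂) Lw.l0 le_rfl lw'.w1 (hpB ω hω) (hpB ω' hω') hFw ht
    refine hy.trans ?_
    have h3 : lP X T J + 1 ≤ ⌊(X.sn 0 w₂ - μ / 100) * J⌋₊ := by
      refine Nat.le_floor ?_
      have h4 : (lP X T J : ℝ) ≤ (X.sn 0 X.t + T * X.q) * J :=
        Nat.floor_le (mul_nonneg (by
          have h5 := (lx 0 (Nat.zero_le _)).t0 0 (by norm_num)
          linarith) hJ0)
      have h5 : (X.sn 0 X.t + T * X.q) + X.q / 2 ≤ X.sn 0 w₂ - μ / 100 := by linarith [sw.1]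
      have h6 := mul_le_mul_of_nonneg_right h5 hJ0
      have h7 : μ * J ≤ X.q * J := mul_le_mul_of_nonneg_right (μρ.trans ρq) hJ0
      push_cast
      linarith
    have h4 : (2 : ℝ) ^ (lP X T J + 1) ≤ 2 ^ ⌊(X.sn 0 w₂ - μ / 100) * J⌋₊ :=
      pow_le_pow_right₀ one_le_two h3
    rw [Nat.cast_one, div_le_div_iff₀ (by positivity) (by positivity), one_mul]
    rw [pow_succ] at h4
    linarith
  · have h3 : ε * X.ρ / 2 * J ≤ ε * ν.u := by linarith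
    linarith
  · have h3 : CH (lq F B) (fun ω => ⌊(2 : ℝ) ^ lL X T J * F.d ω (X.c 0)⌋)
        (fun ω => (eK X Γ F B ω, F.T ω)) ≤
        CH (lq F B) (fun ω => ⌊(2 : ℝ) ^ lL X T J * F.d ω (X.c 0)⌋)
        (fun ω => (cR F B (X.x Γ.i₁) ω, F.W ω)) := by
      refine CH_mono_cond hp.nonneg fun ω ω' _ _ h => ?_
      have h4 : cR F B (X.x Γ.i₁) ω = cR F B (X.x Γ.i₁) ω' :=
        (Prod.ext_iff.1 (Prod.ext_iff.1 h).1).1
      exact Prod.ext h4 (Prod.ext (Prod.ext_iff.1 h).2 (Pool.NS95.cR_zt F B _ h4).1)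
    have h4 : e * X.q * J ≤ ε * X.ρ / 4 * J := mul_le_mul_of_nonneg_right heq hJ0
    have h5 : CH (lq F B) (fun ω => ⌊(2 : ℝ) ^ lL X T J * F.d ω (X.c 0)⌋)
        (fun ω => (cR F B w₂ ω, F.W ω)) =
        CH (lq F B) (fun ω => ⌊(2 : ℝ) ^ lL X T J * F.d ω (X.c 0)⌋) (lFp F B w₂) := rfl
    rw [← h5]
    linarith
  · linarith

/-- **The dichotomy from the rows and the images.** -/
theorem t4cls_rm (hR : StRw lbH) (hM : StMw lbH) : Pool.T4N.T4ClsStmt :=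
  t4cls_w stX stK stL stH hR hM

end Pool.T4J
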