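import Pool.Agent.H4.T4.Lbw

/-!
# Heights and velocities of two samples with the same labels, real numbers

`hkz_re`: the heights; `hv_re`: the velocities; `j2_re`: the field `J2`; from natural affine labels.
-/

set_option autoImplicit false

namespace Pool.T4J

open Finset Real MvPolynomial
open Pool.Agent.H49.Ent Pool.Agent.H32.Dense Pool.STK Pool.KA Pool.KSAT Pool.K2S Pool.PB Pool.S6C
open Pool.GEN Pool.CHT Pool.CHX Pool.ISO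
open Pool.D2R Pool.GF64
open Pool.D2F2 (hgp vlp)
open Pool.T4G (wD)
open Pool.T4H (Tau)

variable {m J : ℕ}

/-- A real power and natural ones. -/
theorem rp_le {x : ℝ} {a b : ℕ} (h : x ≤ (a : ℝ) - b) : (2 : ℝ) ^ x ≤ 2 ^ a / 2 ^ b := by
  refine (Real.rpow_le_rpow_of_exponent_le (by norm_num) h).trans (le_of_eq ?_)
  rw [Real.rpow_sub (by norm_num), Real.rpow_natCast, Real.rpow_natCast]

section

variable {F : Fam m J} {c : ℕ → Fin m} {n : ℕ} {B : F.Ω → Prop} {v ε : ℝ} {lt lv : ℕ → ℝ}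
  {GA GB : PtT F → ℕ → MvPolynomial (Option (Fin m)) ℝ}
  {HB : LnT F → ℕ → MvPolynomial (Option (Fin m)) ℝ}

theorem LbN.rho_n (L : LbN F c n B v lt lv ε GA GB HB) (hε : 0 ≤ ε) (h0 : ∀ l ≤ n, 0 ≤ lt l)
    {ω : F.Ω} (hω : B ω) (i : ℕ) (h1 : 1 ≤ i) (h2 : i ≤ n) (j : ℕ) (hj : j < i) :
    |ncp c i (frA n (GB (ptr F J ω))) (GB (ptr F J ω) i - GA (ptr F J ω) i) (bt F ω) j| ≤
      2 ^ (⌈ε * J⌉₊ + 1) * (2 ^ ⌊lt j * J⌋₊ / 2 ^ ⌊lt i * J⌋₊) := by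
  have hJ0 : (0 : ℝ) ≤ J := Nat.cast_nonneg J
  refine (L.rho ω hω i h1 h2 j hj).trans ?_
  have e1 := Nat.le_ceil (ε * J)
  have e2 := Nat.lt_floor_add_one (lt j * J)
  have e3 := Nat.floor_le (mul_nonneg (h0 i h2) hJ0)
  rw [← mul_div_assoc, ← pow_add]
  refine rp_le ?_
  push_cast
  linarith

theorem LbN.hgt_n (L : LbN F c n B v lt lv ε GA GB HB) (hv : ∀ l ≤ n, 0 ≤ lv l)
    {ω : F.Ω} (hω : B ω) (l : ℕ) (h1 : 1 ≤ l) (h2 : l ≤ n) :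
    |hgp F (c l) (GB (ptr F J ω) l) ω| ≤ 2 ^ ⌈ε * J⌉₊ / 2 ^ ⌊lv l * J⌋₊ := by
  have hJ0 : (0 : ℝ) ≤ J := Nat.cast_nonneg J
  refine (L.hgt ω hω l h1 h2).trans (rp_le ?_)
  have e1 := Nat.le_ceil (ε * J)
  have e3 := Nat.floor_le (mul_nonneg (hv l h2) hJ0)
  linarith

theorem LbN.vel_n (L : LbN F c n B v lt lv ε GA GB HB) (hv : ∀ l ≤ n, 0 ≤ lv l)
    {ω : F.Ω} (hω : B ω) (l : ℕ) (h1 : 1 ≤ l) (h2 : l ≤ n) :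
    |vlp F (c l) (GB (ptr F J ω) l) ω| ≤ 2 ^ ⌈(ε + v) * J⌉₊ / 2 ^ ⌊lv l * J⌋₊ := by
  have hJ0 : (0 : ℝ) ≤ J := Nat.cast_nonneg J
  refine (L.vel ω hω l h1 h2).trans (rp_le ?_)
  have e1 := Nat.le_ceil ((ε + v) * J)
  have e3 := Nat.floor_le (mul_nonneg (hv l h2) hJ0)
  linarith

/-- The increments of the levels, in natural numbers. -/
theorem lev_n {n : ℕ} {lt lv : ℕ → ℝ} (h0 : ∀ l ≤ n, 0 ≤ lt l) {D : ℝ} (hD0 : 0 ≤ D)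
    (hD : ∀ l, 1 ≤ l → l ≤ n → lt l + D ≤ lv l) (j : ℕ) (h1 : 1 ≤ j) (h2 : j ≤ n) :
    ⌊lt j * (J : ℝ)⌋₊ + ⌊D * (J : ℝ)⌋₊ ≤ ⌊lv j * (J : ℝ)⌋₊ := by
  have hJ0 : (0 : ℝ) ≤ J := Nat.cast_nonneg J
  refine Nat.le_floor ?_
  have e1 := Nat.floor_le (mul_nonneg (h0 j h2) hJ0)
  have e2 := Nat.floor_le (mul_nonneg hD0 hJ0)
  have e3 := mul_le_mul_of_nonneg_right (hD j h1 h2) hJ0
  push_cast
  linarith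

/-- **The heights of two samples with the same labels**, at the same time, with near first
coordinates. -/
theorem hkz_re (L : LbN F c n B v lt lv ε GA GB HB) (hc : Set.InjOn c (Set.Iio (n + 1)))
    (hA : ∀ y l, 1 ≤ l → l ≤ n → (GA y l).totalDegree ≤ 1 ∧ DepC c l (GA y l)) (hε : 0 ≤ ε)
    (h0 : ∀ l ≤ n, 0 ≤ lt l) (hv : ∀ l ≤ n, 0 ≤ lv l) {D : ℝ} (hD0 : 0 ≤ D)
    (hD : ∀ l, 1 ≤ l → l ≤ n → lt l + D ≤ lv l) {ω ω' : F.Ω} (hω : B ω) (hω' : B ω')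
    (eA : ∀ l, 1 ≤ l → l ≤ n → GA (ptr F J ω) l = GA (ptr F J ω') l)
    (eB : ∀ l, 1 ≤ l → l ≤ n → GB (ptr F J ω) l = GB (ptr F J ω') l) (ht : F.T ω = F.T ω')
    {E : ℕ} (hy : |F.x ω (c 0) - F.x ω' (c 0)| ≤ 1 / 2 ^ E) {g : Fin n → ℕ}
    (h1 : ∀ i : Fin n, (g i : ℝ) + 2 * (ε * J) + n + 10 ≤ (lt (i + 1) + D) * J)
    (h2 : ∀ i : Fin n, (g i : ℝ) + ε * J + lt 0 * J + 8 ≤ lt (i + 1) * J + E) (i : Fin n) :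
    |2 ^ g i * hgp F (c (i + 1)) (GA (ptr F J ω) (i + 1)) ω -
      2 ^ g i * hgp F (c (i + 1)) (GA (ptr F J ω') (i + 1)) ω'| ≤ 1 := by
  have hJ0 : (0 : ℝ) ≤ J := Nat.cast_nonneg J
  have hi := i.2
  rw [← eA (i + 1) (by omega) (by omega)]
  have c1 := Nat.ceil_lt_add_one (mul_nonneg hε hJ0)
  have c2 := Nat.lt_floor_add_one (D * (J : ℝ))
  have c3 := Nat.floor_le (mul_nonneg (h0 0 (Nat.zero_le _)) hJ0)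
  refine hkz_pt (ω := ω) (ω' := ω') (x := bt F ω) (U := ⌈ε * J⌉₊ + 1) (e := ⌊D * (J : ℝ)⌋₊)
    (τ := ⌈ε * J⌉₊) (γ := fun l => ⌊lt l * J⌋₊) (gb := fun l => ⌊lv l * J⌋₊) hc (hA _)
    (L.dg _) (L.rho_n hε h0 hω) (lev_n h0 hD0 hD) ht (L.hgt_n hv hω) (fun j a b => by
      rw [eB j a b]
      exact L.hgt_n hv hω' j a b) hy (fun i => ?_) (fun i => ?_) i
  · have c4 := Nat.lt_floor_add_one (lt (i + 1) * (J : ℝ))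
    have c5 := h1 i
    have c6 : ((g i + (⌈ε * (J : ℝ)⌉₊ + 1) + n + ⌈ε * (J : ℝ)⌉₊ + 2 : ℕ) : ℝ) <
        ((⌊lt (i + 1) * (J : ℝ)⌋₊ + ⌊D * (J : ℝ)⌋₊ : ℕ) : ℝ) + 1 := by
      push_cast
      linarith
    have c7 : g i + (⌈ε * (J : ℝ)⌉₊ + 1) + n + ⌈ε * (J : ℝ)⌉₊ + 2 <
        ⌊lt (i + 1) * (J : ℝ)⌋₊ + ⌊D * (J : ℝ)⌋₊ + 1 := by exact_mod_cast c6
    exact Nat.lt_succ_iff.1 c7
  · have c4 := Nat.lt_floor_add_one (lt (i + 1) * (J : ℝ))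
    have c5 := h2 i
    have c6 : ((g i + (⌈ε * (J : ℝ)⌉₊ + 1) + ⌊lt 0 * (J : ℝ)⌋₊ + 1 : ℕ) : ℝ) <
        ((⌊lt (i + 1) * (J : ℝ)⌋₊ + E : ℕ) : ℝ) + 1 := by
      push_cast
      linarith
    have c7 : g i + (⌈ε * (J : ℝ)⌉₊ + 1) + ⌊lt 0 * (J : ℝ)⌋₊ + 1 <
        ⌊lt (i + 1) * (J : ℝ)⌋₊ + E + 1 := by exact_mod_cast c6
    exact Nat.lt_succ_iff.1 c7

/-- **The velocities of two samples with the same labels** and near first directions. -/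
theorem hv_re (L : LbN F c n B v lt lv ε GA GB HB) (hc : Set.InjOn c (Set.Iio (n + 1)))
    (hA : ∀ y l, 1 ≤ l → l ≤ n → (GA y l).totalDegree ≤ 1 ∧ DepC c l (GA y l)) (hε : 0 ≤ ε)
    (h0 : ∀ l ≤ n, 0 ≤ lt l) (hv : ∀ l ≤ n, 0 ≤ lv l) (hv0 : 0 ≤ v) {D : ℝ} (hD0 : 0 ≤ D)
    (hD : ∀ l, 1 ≤ l → l ≤ n → lt l + D ≤ lv l) {ω ω' : F.Ω} (hω : B ω) (hω' : B ω')
    (eA : ∀ l, 1 ≤ l → l ≤ n → GA (ptr F J ω) l = GA (ptr F J ω') l)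
    (eB : ∀ l, 1 ≤ l → l ≤ n → GB (ptr F J ω) l = GB (ptr F J ω') l)
    {E q a : ℕ} (hd : |F.d ω (c 0) - F.d ω' (c 0)| ≤ 1 / 2 ^ E) {g : Fin n → ℕ}
    (h1 : ∀ i : Fin n, (g i : ℝ) + 2 * (ε * J) + v * J + n + 10 ≤ q + a + (lt (i + 1) + D) * J)
    (h2 : ∀ i : Fin n, (g i : ℝ) + ε * J + lt 0 * J + 8 ≤ q + a + lt (i + 1) * J + E)
    (i : Fin n) :
    |2 ^ g i / 2 ^ a * vlp F (c (i + 1)) (GA (ptr F J ω) (i + 1)) ω -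
      2 ^ g i / 2 ^ a * vlp F (c (i + 1)) (GA (ptr F J ω') (i + 1)) ω'| ≤ 2 ^ q := by
  have hJ0 : (0 : ℝ) ≤ J := Nat.cast_nonneg J
  have hi := i.2
  rw [← eA (i + 1) (by omega) (by omega)]
  have c1 := Nat.ceil_lt_add_one (mul_nonneg hε hJ0)
  have c1' := Nat.ceil_lt_add_one (mul_nonneg (add_nonneg hε hv0) hJ0)
  have c2 := Nat.lt_floor_add_one (D * (J : ℝ))
  have c3 := Nat.floor_le (mul_nonneg (h0 0 (Nat.zero_le _)) hJ0)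
  have key := hv_pt (ω := ω) (ω' := ω') (x := bt F ω) (U := ⌈ε * J⌉₊ + 1) (e := ⌊D * (J : ℝ)⌋₊)
    (τ := ⌈(ε + v) * J⌉₊) (γ := fun l => ⌊lt l * J⌋₊) (gb := fun l => ⌊lv l * J⌋₊) (c₁ := 0)
    (q := q) (a := a) (g := g) hc (hA _)
    (L.dg _) (L.rho_n hε h0 hω) (lev_n h0 hD0 hD) (L.vel_n hv hω) (fun j a b => by
      rw [eB j a b]
      exact L.vel_n hv hω' j a b) hd (fun i => ?_) (fun i => ?_) i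
  · refine key.trans (le_of_eq ?_)
    rw [pow_zero, Nat.cast_one, one_mul]
  · have c4 := Nat.lt_floor_add_one (lt (i + 1) * (J : ℝ))
    have c5 := h1 i
    have c6 : ((g i + (⌈ε * (J : ℝ)⌉₊ + 1) + n + ⌈(ε + v) * (J : ℝ)⌉₊ + 2 : ℕ) : ℝ) <
        ((0 + q + a + ⌊lt (i + 1) * (J : ℝ)⌋₊ + ⌊D * (J : ℝ)⌋₊ : ℕ) : ℝ) + 1 := by
      push_cast
      linarith
    have c7 : g i + (⌈ε * (J : ℝ)⌉₊ + 1) + n + ⌈(ε + v) * (J : ℝ)⌉₊ + 2 <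
        0 + q + a + ⌊lt (i + 1) * (J : ℝ)⌋₊ + ⌊D * (J : ℝ)⌋₊ + 1 := by exact_mod_cast c6
    exact Nat.lt_succ_iff.1 c7
  · have c4 := Nat.lt_floor_add_one (lt (i + 1) * (J : ℝ))
    have c5 := h2 i
    have c6 : ((g i + (⌈ε * (J : ℝ)⌉₊ + 1) + ⌊lt 0 * (J : ℝ)⌋₊ + 1 : ℕ) : ℝ) <
        ((0 + q + a + ⌊lt (i + 1) * (J : ℝ)⌋₊ + E : ℕ) : ℝ) + 1 := by
      push_cast
      linarith
    have c7 : g i + (⌈ε * (J : ℝ)⌉₊ + 1) + ⌊lt 0 * (J : ℝ)⌋₊ + 1 <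
        0 + q + a + ⌊lt (i + 1) * (J : ℝ)⌋₊ + E + 1 := by exact_mod_cast c6
    exact Nat.lt_succ_iff.1 c7

/-- **The field `J2`.** -/
theorem j2_re (L : LbN F c n B v lt lv ε GA GB HB) {p : F.Ω → ℝ} (hp : IsLaw p) {Φ : Type}
    {Fp : F.Ω → Φ} (hpB : ∀ ω, 0 < p ω → B ω) (hc : Set.InjOn c (Set.Iio (n + 1)))
    (hA : ∀ y l, 1 ≤ l → l ≤ n → (GA y l).totalDegree ≤ 1 ∧ DepC c l (GA y l)) (hε : 0 ≤ ε)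
    (h0 : ∀ l ≤ n, 0 ≤ lt l) (hv : ∀ l ≤ n, 0 ≤ lv l) (hv0 : 0 ≤ v) {D : ℝ} (hD0 : 0 ≤ D)
    (hD : ∀ l, 1 ≤ l → l ≤ n → lt l + D ≤ lv l) {a a₂ E : ℕ} (ha₂ : a₂ = ⌊v * J⌋₊)
    {HA : LnT F → ℕ → MvPolynomial (Option (Fin m)) ℝ} {Vs Vs₂ : LnT F → Fin n → ℝ}
    {g : Fin n → ℕ}
    (hHA : ∀ ω, B ω → ∀ l, 1 ≤ l → l ≤ n → HA (slam F a₂ ω) l = GA (ptr F J ω) l)
    (hV : ∀ ω, B ω → ∀ i : Fin n, Vs (slam F a ω) i =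
      vlp F (c (i + 1)) (GA (ptr F J ω) (i + 1)) ω)
    (hVV : ∀ ω, B ω → Vs₂ (slam F a₂ ω) = Vs (slam F a ω))
    (hFp : ∀ ω ω', B ω → B ω' → Fp ω = Fp ω' → ∀ l, 1 ≤ l → l ≤ n →
      GA (ptr F J ω) l = GA (ptr F J ω') l ∧ GB (ptr F J ω) l = GB (ptr F J ω') l)
    {M y : ℕ} (hyM : y + 2 ≤ M)
    (h1 : ∀ i : Fin n, (y : ℝ) + g i + 2 * (ε * J) + v * J + n + 12 ≤
      M + a + (lt (i + 1) + D) * J)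
    (h2 : ∀ i : Fin n, (y : ℝ) + g i + ε * J + lt 0 * J + 8 ≤ M + a + lt (i + 1) * J + E)
    {δ : ℝ} (hδ : 0 ≤ δ) :
    Pe (Tau p Fp) (fun w => ∃ i, (2 : ℝ) ^ M < 2 ^ y * |(wD Vs a g (slam F a w.2) i : ℝ) -
      (jj c a E g HA HB Vs₂ (slam F a₂ w.1) i 0 +
        dfl E (F.d w.2 (c 0)) * jj c a E g HA HB Vs₂ (slam F a₂ w.1) i 1)|) ≤ δ := by
  have hJ0 : (0 : ℝ) ≤ J := Nat.cast_nonneg J
  have c1 := Nat.ceil_lt_add_one (mul_nonneg hε hJ0)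
  have c1' := Nat.ceil_lt_add_one (mul_nonneg (add_nonneg hε hv0) hJ0)
  have c2 := Nat.lt_floor_add_one (D * (J : ℝ))
  have c3 := Nat.floor_le (mul_nonneg (h0 0 (Nat.zero_le _)) hJ0)
  refine j2_of (U := ⌈ε * J⌉₊ + 1) (e := ⌊D * (J : ℝ)⌋₊) (τ := ⌈(ε + v) * J⌉₊)
    (γ := fun l => ⌊lt l * J⌋₊) (gb := fun l => ⌊lv l * J⌋₊) (GA := GA) (GB := GB) hp hc hA L.dg
    (fun ω hω => hHA ω (hpB ω hω)) (fun ω hω l a b => ?_) (fun ω hω => hV ω (hpB ω hω))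
    (fun ω hω => hVV ω (hpB ω hω)) (fun ω hω => L.rho_n hε h0 (hpB ω hω)) (lev_n h0 hD0 hD)
    (fun ω hω => L.vel_n hv (hpB ω hω)) (fun ω ω' a b => hFp ω ω' (hpB ω a) (hpB ω' b)) hyM
    (fun i => ?_) (fun i => ?_) hδ
  · rw [ha₂]
    exact (L.cls ω (hpB ω hω) l a b).symm
  · have c4 := Nat.lt_floor_add_one (lt (i + 1) * (J : ℝ))
    have c5 := h1 i
    have c6 : ((y + g i + (⌈ε * (J : ℝ)⌉₊ + 1) + n + ⌈(ε + v) * (J : ℝ)⌉₊ + 3 : ℕ) : ℝ) <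
        ((M + a + ⌊lt (i + 1) * (J : ℝ)⌋₊ + ⌊D * (J : ℝ)⌋₊ : ℕ) : ℝ) + 1 := by
      push_cast
      linarith
    have c7 : y + g i + (⌈ε * (J : ℝ)⌉₊ + 1) + n + ⌈(ε + v) * (J : ℝ)⌉₊ + 3 <
        M + a + ⌊lt (i + 1) * (J : ℝ)⌋₊ + ⌊D * (J : ℝ)⌋₊ + 1 := by exact_mod_cast c6
    exact Nat.lt_succ_iff.1 c7
  · have c4 := Nat.lt_floor_add_one (lt (i + 1) * (J : ℝ))
    have c5 := h2 i
    have c6 : ((y + g i + (⌈ε * (J : ℝ)⌉₊ + 1) + ⌊lt 0 * (J : ℝ)⌋₊ + 2 : ℕ) : ℝ) <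
        ((M + a + ⌊lt (i + 1) * (J : ℝ)⌋₊ + E : ℕ) : ℝ) + 1 := by
      push_cast
      linarith
    have c7 : y + g i + (⌈ε * (J : ℝ)⌉₊ + 1) + ⌊lt 0 * (J : ℝ)⌋₊ + 2 <
        M + a + ⌊lt (i + 1) * (J : ℝ)⌋₊ + E + 1 := by exact_mod_cast c6
    exact Nat.lt_succ_iff.1 c7

end

end Pool.T4J
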