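import Pool.Agent.H4.T4.Lbx
import Pool.Agent.H4.T4.Rel
import Pool.Agent.H48.T4X.Evw

/-!
# The records know the heights

`lbH`: natural affine labels as a property of a window; `stX`: they exist. `stK`: the piece `PhK`: two
samples with the same record, near positions of `c 0` and the same time have near heights.
-/

set_option autoImplicit false

namespace Pool.T4J

open Finset Real MvPolynomial
open Pool.Agent.H49.Ent Pool.Agent.H32.Dense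
open Pool.STK hiding pr2
open Pool.KA Pool.KSAT Pool.K2S Pool.PB Pool.S6C
open Pool.GEN Pool.CHT Pool.CHX Pool.ISO
open Pool.D2R Pool.GF64
open Pool.D2F2 (hgp vlp ojet_hgp ojet_vlp)
open Pool.RCD Pool.LA91
open Pool.GRD (LbP)
open Pool.CDX (AffL)
open Pool.T4N (Frm FrmP AffAt fX fV fXs fVs cYp)
open Pool.T4X
open Pool.V0F (LbE cR)
open Pool.AVG57 (upw upw_slam)
open Pool.T4E (vtf)

variable {J : ℕ}

/-- Natural affine labels, as a property of a window. -/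
def lbH : Hd := fun X ε v _ F B Fr => Lbx X ε F B Fr v

/-- **Natural affine labels exist.** -/
theorem stX : StX lbH := by
  intro s hr Γ hs _ _ _ _
  refine ⟨1, 0, one_pos, fun κ₀ T N₀ _ _ _ _ => ⟨1, 100 * (9 * s + 31), 1, one_pos,
    fun Λ e hΛ he hec X hX μ hμ _ W hW => ?_⟩⟩
  classical
  obtain ⟨vs, hvs⟩ : ∃ vs : ℕ → ℝ, ∀ v ∈ W, ∃ k < W.card, vs k = v := by
    refine ⟨fun k => if h : k < W.card then (W.equivFin.symm ⟨k, h⟩ : ℝ) else 0, fun v hv => ?_⟩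
    refine ⟨(W.equivFin ⟨v, hv⟩ : ℕ), (W.equivFin ⟨v, hv⟩).2, ?_⟩
    show (if h : ((W.equivFin ⟨v, hv⟩ : Fin W.card) : ℕ) < W.card then
      (W.equivFin.symm ⟨_, h⟩ : ℝ) else 0) = v
    rw [dif_pos (W.equivFin ⟨v, hv⟩).2]
    simp
  obtain ⟨vs', hvs'⟩ : ∃ vs' : ℕ → ℝ, vs' = fun k => if vs k ∈ W then vs k else X.t := ⟨_, rfl⟩
  have hq := hX.box.u0
  have hΛq : 0 ≤ Λ * X.q := mul_nonneg (by linarith) hq.le
  obtain ⟨e₀, he₀, h1⟩ := lbx_ex hX hs he (by linarith) (K := W.card) (vs := vs')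
    (fun k _ => by
      rw [hvs']
      show (if vs k ∈ W then vs k else X.t) ∈ X.G ∧ X.t ≤ (if vs k ∈ W then vs k else X.t) ∧
        (if vs k ∈ W then vs k else X.t) ≤ X.t + Λ * X.q
      split_ifs with h
      · exact hW _ h
      · exact ⟨hX.box.wG, le_rfl, by linarith⟩) (ε := μ / 100) (by
      rw [le_div_iff₀ (by norm_num)]
      linarith) (η := 1 / 2) (by norm_num)
  refine ⟨e₀, he₀, Bas.mono 0 h1 ?_⟩
  intro J _ F B h2 Fr hFr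
  obtain ⟨B', h3, h4, h5⟩ := h2 Fr hFr
  refine ⟨B', h3, by linarith, fun v hv => ?_⟩
  obtain ⟨k, hk, e1⟩ := hvs v hv
  have h6 := h5 k hk
  rw [hvs'] at h6
  have e2 : (if vs k ∈ W then vs k else X.t) = v := by
    rw [e1, if_pos hv]
  show Lbx X (μ / 100) F B' Fr v
  rw [← e2]
  exact h6

/-! ### The levels -/

/-- The levels at a window. -/
structure Lvv (X : Cx) (s v : ℝ) : Prop where
  t0 : ∀ l ≤ 3, 0 ≤ X.sn l X.t
  v0 : ∀ l ≤ 3, 0 ≤ X.sn l v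
  up : ∀ l, 1 ≤ l → l ≤ 3 → X.sn l X.t + (s * (v - X.t) - X.φ) ≤ X.sn l v
  dn : ∀ l, 1 ≤ l → l ≤ 3 → X.sn l v ≤ X.sn l X.t + s * (v - X.t) + X.φ
  z : |X.sn 0 v - v - (X.sn 0 X.t - X.t)| ≤ 2 * X.φ
  bl : ∀ i : Fin 3, X.bl i ≤ v
  w0 : 0 ≤ v
  w1 : v ≤ 1

theorem lvv {X : Cx} {s hr T N₀ Λ e κ₀ : ℝ} {L : ℕ} (H : X.Ok s hr T N₀ Λ e κ₀ L) (hΛ : 1 ≤ Λ)
    (he : e ≤ 1 / 2) {v : ℝ} (hv : v ∈ X.G) (htv : X.t ≤ v) (hvΛ : v ≤ X.t + Λ * X.q) :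
    Lvv X s v := by
  have Bx := H.box
  have LL := Bx.lad
  have hq := Bx.u0
  have hΛq : X.q ≤ Λ * X.q := le_mul_of_one_le_left hq.le hΛ
  have hbt : X.b + Λ * X.q ≤ X.t := Bx.bw
  have hto : X.t + Λ * X.q ≤ X.o := Bx.wo
  have hφ := LL.φ0
  have hφe := H.φe
  have heq : e * X.q ≤ 1 / 2 * X.q := mul_le_mul_of_nonneg_right he hq.le
  have pos : ∀ x ∈ X.G, X.t ≤ x → x ≤ X.o → ∀ l ≤ 3, 0 ≤ X.sn l x := by
    intro x hx h1 h2 l hl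
    have h3 := (Bx.room l (by omega)).1
    rcases Nat.eq_zero_or_pos l with h4 | h4
    · subst h4
      have e1 := LL.fl 0 (by norm_num) X.b LL.bG le_rfl LL.bo
      have e2 := LL.fl 0 (by norm_num) x hx (by linarith) h2
      rw [abs_le] at e1 e2
      linarith [e1.1, e1.2, e2.1, e2.2]
    · have e3 := LL.st l h4 (by omega) X.b LL.bG x hx le_rfl (by linarith) h2
      linarith
  refine ⟨pos X.t Bx.wG le_rfl (by linarith), pos v hv htv (by linarith), ?_, ?_, ?_, ?_, ?_, ?_⟩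
  · intro l h1 h2
    have h3 := Bx.lin l h1 (by omega) v hv (by linarith) (by linarith)
    rw [abs_le] at h3
    linarith [h3.1]
  · intro l h1 h2
    have h3 := Bx.lin l h1 (by omega) v hv (by linarith) (by linarith)
    rw [abs_le] at h3
    linarith [h3.2]
  · have e1 := LL.fl 0 (by norm_num) v hv (by linarith) (by linarith)
    have e2 := LL.fl 0 (by norm_num) X.t Bx.wG (by linarith) (by linarith)
    rw [abs_le] at e1 e2 ⊢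
    constructor <;> linarith [e1.1, e1.2, e2.1, e2.2]
  · intro i
    exact (H.fr i i.2).1.trans htv
  · linarith [Bx.b0]
  · linarith [Bx.o1]

/-! ### The labels of two samples -/

section

variable {X : Cx} {F : Fam 4 J} {B : F.Ω → Prop} {Fr : Frm F} {P : Fin 3 → ℕ} {v j : ℝ}

/-- The labels of the frame are affine. -/
theorem frG_dg (h : FrmP F X.c (lw X J) P B Fr) (y : PtT F) (l : ℕ) (h1 : 1 ≤ l) (h2 : l ≤ 3) :
    (frG Fr y l).totalDegree ≤ 1 ∧ DepC X.c l (frG Fr y l) := by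
  obtain ⟨i, hi⟩ : ∃ i : Fin 3, 1 + (i : ℕ) = l := ⟨⟨l - 1, by omega⟩, by simp; omega⟩
  subst hi
  rw [frG_in]
  refine ⟨(h.lab i).deg _, fun b b' hn hb => (h.lab i).dep _ b b' hn fun o ho => ?_⟩
  obtain ⟨l, hl, rfl⟩ := Finset.mem_image.1 ho
  exact hb l (Finset.mem_range.1 hl)

/-- The labels of the frame from the record. -/
theorem eA_of (h : FrmP F X.c (lw X J) P B Fr) (hbl : ∀ i : Fin 3, X.bl i ≤ j) (hj : j ≤ 1)
    {ω ω' : F.Ω} (hω : B ω) (hω' : B ω') (e : cR F B j ω = cR F B j ω') (l : ℕ) (h1 : 1 ≤ l)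
    (h2 : l ≤ 3) : frG Fr (ptr F J ω) l = frG Fr (ptr F J ω') l := by
  obtain ⟨i, hi⟩ : ∃ i : Fin 3, 1 + (i : ℕ) = l := ⟨⟨l - 1, by omega⟩, by simp; omega⟩
  subst hi
  rw [frG_in, frG_in, (h.lab i).cls ω hω, (h.lab i).cls ω' hω']
  congr 1
  exact cR_cd (hbl i) hj (h.lab i).cls e

/-- The labels of a window from the record. -/
theorem eB_of {n : ℕ} {lt lv : ℕ → ℝ} {ε : ℝ} {GA GB : PtT F → ℕ → MvPolynomial (Option (Fin 4)) ℝ}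
    {HB : LnT F → ℕ → MvPolynomial (Option (Fin 4)) ℝ} (L : LbN F X.c n B v lt lv ε GA GB HB)
    (hv : v ≤ j) (hj : j ≤ 1) {ω ω' : F.Ω} (hω : B ω) (hω' : B ω')
    (e : cR F B j ω = cR F B j ω') (l : ℕ) (h1 : 1 ≤ l) (h2 : l ≤ n) :
    GB (ptr F J ω) l = GB (ptr F J ω') l := by
  rw [L.cls ω hω l h1 h2, L.cls ω' hω' l h1 h2]
  exact cR_cd (z := fun y => GB y l) (z' := fun s => HB s l) hv hj
    (fun ν hν => L.cls ν hν l h1 h2) e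

/-- The heights. -/
theorem eX_hgp (h : FrmP F X.c (lw X J) P B Fr) {ω : F.Ω} (hω : B ω) (i : Fin 3) :
    eX X F Fr ω i = hgp F (X.c (i + 1)) (frG Fr (ptr F J ω) (i + 1)) ω := by
  show ojet F (X.c (1 + i)) 0 (Fr.G i (Fr.z' i (slam F (lw X J i) ω))) ω = _
  rw [ojet_hgp, ← (h.lab i).cls ω hω, Nat.add_comm (i : ℕ) 1, frG_in]

/-- The position of `c 0` from a closed label and the time. -/
theorem x_l0 {D P : ℕ} (h : Lb0 F X.c D ⌊v * J⌋₊ P B) (hv : v ≤ j) (hj : j ≤ 1) {ω ω' : F.Ω}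
    (hω : B ω) (hω' : B ω') (e : cR F B j ω = cR F B j ω') (ht : F.T ω = F.T ω') :
    |F.x ω (X.c 0) - F.x ω' (X.c 0)| ≤ 2 / 2 ^ P := by
  obtain ⟨V, z, z', G, hl⟩ := h
  have h1 := hl.pos ω hω
  have h2 := hl.pos ω' hω'
  have e1 := cR_cd hv hj hl.cls e
  have ht' : F.t ω = F.t ω' := by
    unfold Fam.t
    rw [ht]
  have e2 : eval (bt F ω) (G (z' (slam F ⌊v * J⌋₊ ω))) =
      eval (bt F ω') (G (z' (slam F ⌊v * J⌋₊ ω'))) := by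
    rw [← e1]
    exact hl.dep _ _ _ ht' fun i hi => absurd hi (Finset.notMem_empty i)
  rw [e2] at h1
  have e3 : (2 : ℝ) / 2 ^ P = 1 / 2 ^ P + 1 / 2 ^ P := by ring
  rw [e3]
  rw [abs_le] at h1 h2 ⊢
  constructor <;> linarith [h1.1, h1.2, h2.1, h2.2]

/-- **The heights of two samples** with the same record and time and near positions of `c 0`. -/
theorem hk_cx {s ε : ℝ} {P : Fin 3 → ℕ} (h : FrmP F X.c (lw X J) P B Fr) (hc : Set.InjOn X.c (Set.Iio 4))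
    (Lv : Lvv X s v) (hL : Lbx X ε F B Fr v) (hε : 0 ≤ ε) (hD : X.φ ≤ s * (v - X.t))
    (hv : v ≤ j) (hj : j ≤ 1) {ω ω' : F.Ω} (hω : B ω) (hω' : B ω')
    (e : cR F B j ω = cR F B j ω') (ht : F.T ω = F.T ω') {E : ℕ}
    (hy : |F.x ω (X.c 0) - F.x ω' (X.c 0)| ≤ 1 / 2 ^ E) {g : Fin 3 → ℕ}
    (h1 : ∀ i : Fin 3, (g i : ℝ) + 2 * (ε * J) + 13 + 2 * X.φ * J ≤ X.sn (1 + i) v * J)
    (h2 : ∀ i : Fin 3, (g i : ℝ) + ε * J + X.sn 0 X.t * J + 8 + s * (v - X.t) * J + X.φ * J ≤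
      X.sn (1 + i) v * J + E) (i : Fin 3) :
    |2 ^ g i * eX X F Fr ω i - 2 ^ g i * eX X F Fr ω' i| ≤ 1 := by
  obtain ⟨⟨GB, HB, L⟩, -⟩ := hL
  have hJ : (0 : ℝ) ≤ J := Nat.cast_nonneg J
  rw [eX_hgp h hω, eX_hgp h hω']
  refine hkz_re L (D := s * (v - X.t) - X.φ) hc (frG_dg h) hε Lv.t0 Lv.v0 (by linarith) Lv.up hω
    hω' (eA_of h (fun i => (Lv.bl i).trans hv) hj hω hω' e) (eB_of L hv hj hω hω' e) ht hy
    (fun i => ?_) (fun i => ?_) i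
  · have h3 := h1 i
    have h4 := mul_le_mul_of_nonneg_right (Lv.dn (1 + i) (by omega) (by omega)) hJ
    rw [Nat.add_comm (i : ℕ) 1]
    push_cast
    linarith
  · have h3 := h2 i
    have h4 := mul_le_mul_of_nonneg_right (Lv.dn (1 + i) (by omega) (by omega)) hJ
    rw [Nat.add_comm (i : ℕ) 1]
    linarith

/-- Near positions of `c 0` from the far path. -/
theorem y_cy {T : ℝ} {a : ℕ} (ha : a ≤ J) (h3 : 3 ≤ lP X T J) (hl : lP X T J ≤ lL X T J + a + 2)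
    {ω ω' : F.Ω} (ht : F.T ω = F.T ω')
    (hc : lCy X T F a (slam F a ω) = lCy X T F a (slam F a ω')) :
    |F.x ω (X.c 0) - F.x ω' (X.c 0)| ≤ 1 / 2 ^ (lP X T J - 3) := by
  have h1 := x_cy (F := F) (c := X.c) (P := lP X T J) (l := lL X T J) ha
    (show vtf F a ω = vtf F a ω' by unfold vtf; rw [ht]) hc
  have h2 := five_le hl
  refine h1.trans ?_
  have e1 : (2 : ℝ) ^ lP X T J = 2 ^ (lP X T J - 3) * 8 := by
    have : (8 : ℝ) = 2 ^ 3 := by norm_num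
    rw [this, ← pow_add, Nat.sub_add_cancel h3]
  have e2 : (1 : ℝ) / 2 ^ (lP X T J - 3) = 8 / 2 ^ lP X T J := by
    rw [e1]
    field_simp
  rw [e2]
  have e3 : (8 : ℝ) / 2 ^ lP X T J = 1 / 2 ^ lP X T J + 4 / 2 ^ lP X T J + 3 / 2 ^ lP X T J := by
    ring
  have e4 : (0 : ℝ) ≤ 3 / 2 ^ lP X T J := by positivity
  linarith

end

/-! ### The numbers -/

/-- **The numbers of the heights.** `g`: the digits, natural with the margin `μ` at the window `v`. -/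
theorem hk_num {X : Cx} {s v μ : ℝ} {g : Fin 3 → ℕ} {J₀ J : ℕ} (hφ : X.φ ≤ μ / 100) (hφ0 : 0 ≤ X.φ)
    (hμ : 0 < μ) (hJ₀ : 26 / μ ≤ J₀) (hJ : J₀ ≤ J)
    (hg : ∀ i : Fin 3, (g i : ℝ) ≤ (X.sn (1 + i) v - μ + 2 * X.φ) * J) (i : Fin 3) :
    (g i : ℝ) + 2 * (μ / 100 * J) + 13 + 2 * X.φ * J ≤ X.sn (1 + i) v * J := by
  have h1 := hg i
  have h2 : (26 : ℝ) / μ ≤ J := hJ₀.trans (by exact_mod_cast hJ)
  rw [div_le_iff₀ hμ] at h2
  have hJ0 : (0 : ℝ) ≤ J := Nat.cast_nonneg J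
  have h3 := mul_le_mul_of_nonneg_right hφ hJ0
  linarith

/-- The numbers of the position. -/
theorem hk_num' {X : Cx} {s v μ Y : ℝ} {g : Fin 3 → ℕ} {J₀ J E : ℕ} (hφ : X.φ ≤ μ / 100)
    (hφ0 : 0 ≤ X.φ) (hμ : 0 < μ) (hJ₀ : 12 ≤ (Y - s * (v - X.t) - X.sn 0 X.t) * J₀) (hJ : J₀ ≤ J)
    (hE : Y * J ≤ E + 4) (hY : 0 ≤ Y - s * (v - X.t) - X.sn 0 X.t)
    (hg : ∀ i : Fin 3, (g i : ℝ) ≤ (X.sn (1 + i) v - μ + 2 * X.φ) * J) (i : Fin 3) :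
    (g i : ℝ) + μ / 100 * J + X.sn 0 X.t * J + 8 + s * (v - X.t) * J + X.φ * J ≤
      X.sn (1 + i) v * J + E := by
  have h1 := hg i
  have hJ0 : (0 : ℝ) ≤ J := Nat.cast_nonneg J
  have h2 : (J₀ : ℝ) ≤ J := by exact_mod_cast hJ
  have h3 := mul_le_mul_of_nonneg_right hφ hJ0
  have h4 := mul_le_mul_of_nonneg_left h2 hY
  have h5 : 0 ≤ μ * J := mul_nonneg hμ.le hJ0
  linarith

/-! ### The piece -/

/-- What the pieces use at the windows of the grid and at the window `w₂`. -/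
structure Gw (X : Cx) (Γ : Gc) (s T Λ μ w₂ : ℝ) : Prop where
  q0 : 0 < X.q
  ρ0 : 0 < X.ρ
  μ0 : 0 < μ
  μρ : μ ≤ X.ρ
  ρq : X.ρ ≤ X.q
  φ0 : 0 < X.φ
  φμ : X.φ ≤ μ / 100
  inj : Set.InjOn X.c (Set.Iio 4)
  xG : ∀ i ≤ Γ.L, X.x i ∈ X.G ∧ X.t ≤ X.x i ∧ X.x i ≤ X.t + Λ * X.q
  xq : ∀ i ≤ Γ.L, X.x i ≤ X.t + X.q
  xρ : ∀ i, 1 ≤ i → i ≤ Γ.L → X.t + X.ρ ≤ X.x i
  xw : ∀ i ≤ Γ.L, X.x i ≤ w₂
  wG : w₂ ∈ X.G ∧ X.t ≤ w₂ ∧ w₂ ≤ X.t + Λ * X.q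
  lx : ∀ i ≤ Γ.L, Lvv X s (X.x i)
  lw : Lvv X s w₂
  s1 : 1 < s

theorem gw {X : Cx} {Γ : Gc} {s hr T N₀ Λ e κ₀ μ w₂ : ℝ} (H : X.Ok s hr T N₀ Λ e κ₀ Γ.L)
    (hs : 1 < s) (hT : 0 ≤ T) (hΛ : T + 3 ≤ Λ) (he : 0 < e) (he1 : e ≤ 1 / 2) (hL : 1 ≤ Γ.L)
    (hμ : 100 * (e * X.q) ≤ μ) (hμ' : μ ≤ X.ρ)
    (hw : w₂ ∈ X.G) (hw1 : X.t + (T + 1) * X.q ≤ w₂) (hw2 : w₂ ≤ X.t + (T + 2) * X.q) :
    Gw X Γ s T Λ μ w₂ := by
  have hq := H.box.u0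
  have hρ := H.ρ0
  have h1 : X.q ≤ Λ * X.q := le_mul_of_one_le_left hq.le (by linarith)
  have h2 : (T + 3) * X.q ≤ Λ * X.q := mul_le_mul_of_nonneg_right hΛ hq.le
  have h3 : 0 ≤ T * X.q := mul_nonneg hT hq.le
  have heq : 0 < e * X.q := mul_pos he hq
  have h4 : X.ρ ≤ X.q := by
    have h5 := H.ρq
    have h6 := H.tx
    have h7 : 1 * X.ρ ≤ (Γ.L : ℝ) * X.ρ :=
      mul_le_mul_of_nonneg_right (by exact_mod_cast hL) hρ.le
    linarith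
  have xq : ∀ i ≤ Γ.L, X.x i ∈ X.G ∧ X.t ≤ X.x i ∧ X.x i ≤ X.t + Λ * X.q := fun i hi =>
    ⟨H.gG i hi, (x_tq H hi).1, by linarith [(x_tq H hi).2]⟩
  have hwΛ : w₂ ∈ X.G ∧ X.t ≤ w₂ ∧ w₂ ≤ X.t + Λ * X.q := ⟨hw, by linarith, by linarith⟩
  refine ⟨hq, hρ, by linarith, hμ', h4, H.box.lad.φ0, ?_, H.box.lad.inj, xq,
    fun i hi => (x_tq H hi).2, ?_, ?_, hwΛ, fun i hi => lvv H (by linarith) he1 (xq i hi).1
      (xq i hi).2.1 (xq i hi).2.2, lvv H (by linarith) he1 hw hwΛ.2.1 hwΛ.2.2, hs⟩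
  · have h5 := H.φe
    rw [le_div_iff₀ (by norm_num)]
    linarith
  · intro i hi1 _
    have h5 : 1 * X.ρ ≤ (i : ℝ) * X.ρ :=
      mul_le_mul_of_nonneg_right (by exact_mod_cast hi1) hρ.le
    have h6 := H.tx
    show X.t + X.ρ ≤ X.x₀ + i * X.ρ
    linarith
  · intro i hi
    have h5 := (x_tq H hi).2
    linarith

/-- **The records know the heights.** -/
theorem stK : StKw lbH := by
  intro s hr Γ hs _ _ hΓ hGA
  have hi₁ : 1 ≤ Γ.i₁ := by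
    rw [hΓ.ei₁]
    have h1 := hGA.1 0 (by norm_num) (by norm_num)
    have h2 := hΓ.m1
    exact Nat.mul_pos h1 h2
  have hi₁₂ : Γ.i₁ ≤ Γ.i₂ := by
    have h1 := hΓ.ik
    have h2 := hΓ.ei₂
    omega
  have hi₂ : Γ.i₂ ≤ Γ.L := hΓ.iL
  have hk₂ : Γ.k₂ ≤ Γ.i₂ := by
    rw [hΓ.ei₂]
    exact Nat.le_add_right _ _
  refine ⟨1, s + 3, one_pos, fun κ₀ T N₀ _ _ hT hN => ⟨T + 3, 100, 1 / 2, by norm_num,
    fun Λ e hΛ he hec X hX μ w₂ hμ hμ' hw hw1 hw2 => ?_⟩⟩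
  have G := gw hX hs (by linarith) hΛ he hec (by omega) hμ (by linarith [hX.ρ0]) hw hw1 hw2
  obtain ⟨q0, ρ0, μ0, μρ, ρq, φ0, φμ, inj, xG, xq, xρ, xw, wG, lx, lw, -⟩ := G
  have hsl : ∀ i ≤ Γ.L, s * (X.x i - X.t) ≤ s * X.q := fun i hi =>
    mul_le_mul_of_nonneg_left (by linarith [xq i hi]) (by linarith)
  have hTq : (s + 3) * X.q ≤ T * X.q := mul_le_mul_of_nonneg_right hT q0.le
  have hst : 0 ≤ X.sn 0 X.t + T * X.q := by
    have h1 := (lx 0 (Nat.zero_le _)).t0 0 (by norm_num)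
    have h2 : 0 ≤ s * X.q := mul_nonneg (by linarith) q0.le
    linarith
  -- the thresholds
  obtain ⟨J₁, hJ₁⟩ := exists_nat_ge (26 / μ)
  obtain ⟨J₂, hJ₂⟩ := exists_nat_ge (12 / X.q)
  obtain ⟨J₃, hJ₃⟩ := lP_six (X := X) (T := T) (by
    have h1 := (lx 0 (Nat.zero_le _)).t0 0 (by norm_num)
    have h2 : 0 ≤ s * X.q := mul_nonneg (by linarith) q0.le
    linarith)
  rw [div_le_iff₀ q0] at hJ₂
  have hD : ∀ i, 1 ≤ i → i ≤ Γ.L → X.φ ≤ s * (X.x i - X.t) := fun i h1 h2 => by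
    have h3 := xρ i h1 h2
    have h4 : 1 * (X.x i - X.t) ≤ s * (X.x i - X.t) :=
      mul_le_mul_of_nonneg_right hs.le (by linarith)
    linarith
  have sw := lw.z
  rw [abs_le] at sw
  refine ⟨1, one_pos, {X.x Γ.i₁, X.x Γ.i₂, w₂}, fun v hv => ?_, 1, one_pos, max J₁ (max J₂ J₃), ?_⟩
  · simp only [Finset.mem_insert, Finset.mem_singleton] at hv
    rcases hv with rfl | rfl | rfl
    · exact xG _ (hi₁₂.trans hi₂)
    · exact xG _ hi₂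
    · exact wG
  intro J hJ F B hB Fr k ν E hLb
  have hJ1 : J₁ ≤ J := (le_max_left _ _).trans hJ
  have hJ2 : J₂ ≤ J := ((le_max_left _ _).trans (le_max_right _ _)).trans hJ
  have hP6 := hJ₃ J (((le_max_right _ _).trans (le_max_right _ _)).trans hJ)
  have hJ0 : (0 : ℝ) ≤ J := Nat.cast_nonneg J
  have nm := E.nm
  have L₁ : Lbx X (μ / 100) F B Fr (X.x Γ.i₁) := hLb _ (by simp)
  have L₂ : Lbx X (μ / 100) F B Fr (X.x Γ.i₂) := hLb _ (by simp)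
  have Lw : Lbx X (μ / 100) F B Fr w₂ := hLb _ (by simp)
  have g₁ : ∀ i : Fin 3, (ν.g i : ℝ) ≤ (X.sn (1 + i) (X.x Γ.i₁) - μ + 2 * X.φ) * J := fun i => by
    have h1 : (ν.g i : ℝ) ≤ (X.sn (1 + i) (X.x Γ.i₁) - μ) * J := nm.gb i
    have h2 := mul_nonneg φ0.le hJ0
    linarith
  have g₂ : ∀ i : Fin 3, (ν.g₂ i : ℝ) ≤ (X.sn (1 + i) (X.x Γ.i₂) - μ + 2 * X.φ) * J := nm.gb₂
  -- the digits of the position
  have hY : ∀ i ≤ Γ.L, 3 * X.q ≤ X.sn 0 X.t + T * X.q - s * (X.x i - X.t) - X.sn 0 X.t :=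
    fun i hi => by linarith [hsl i hi]
  have hY12 : ∀ i ≤ Γ.L, 12 ≤ (X.sn 0 X.t + T * X.q - s * (X.x i - X.t) - X.sn 0 X.t) * J₂ :=
    fun i hi => by
      have h1 := mul_le_mul_of_nonneg_right (hY i hi) (Nat.cast_nonneg J₂ : (0 : ℝ) ≤ J₂)
      have h2 : 0 ≤ X.q * J₂ := mul_nonneg q0.le (Nat.cast_nonneg _)
      linarith
  have hEy : (X.sn 0 X.t + T * X.q) * J ≤ ((lP X T J - 3 : ℕ) : ℝ) + 4 := by
    have h1 : (X.sn 0 X.t + T * X.q) * J < (lP X T J : ℝ) + 1 := Nat.lt_floor_add_one _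
    have h2 : (lP X T J : ℝ) ≤ ((lP X T J - 3 : ℕ) : ℝ) + 3 := by
      exact_mod_cast (by omega : lP X T J ≤ lP X T J - 3 + 3)
    linarith
  have ea : ν.a = ⌊X.x 0 * J⌋₊ := nm.ea
  have ea₂ : ν.a₂ = ⌊X.x Γ.k₂ * J⌋₊ := nm.ea₂
  have haJ : ν.a ≤ J := nm.haa.trans nm.ha₂
  have hlP : lP X T J ≤ lL X T J + ν.a + 2 := by
    rw [ea]
    exact lP_lL (xG 0 (Nat.zero_le _)).2.1 J
  have hx1 : ∀ i ≤ Γ.L, X.x i ≤ 1 := fun i hi => (lx i hi).w1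
  refine ⟨?_, ?_, ?_⟩
  · intro ω ω' hω hω' hK ht hc i
    have hK1 : cR F B (X.x Γ.i₁) ω = cR F B (X.x Γ.i₁) ω' := (Prod.ext_iff.1 hK).1
    refine (hk_cx E.fr inj (lx Γ.i₁ (hi₁₂.trans hi₂)) L₁ (by positivity) (hD _ hi₁ (hi₁₂.trans hi₂))
      le_rfl (hx1 _ (hi₁₂.trans hi₂)) hω hω' hK1 ht (y_cy haJ (by omega) hlP ht hc)
      (hk_num (s := s) φμ φ0.le μ0 hJ₁ hJ1 g₁)
      (hk_num' φμ φ0.le μ0 (hY12 _ (hi₁₂.trans hi₂)) hJ2 hEy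
        (by linarith [hY _ (hi₁₂.trans hi₂)]) g₁) i).trans (by norm_num)
  · intro ω ω' hω hω' hK ht hc i
    have hK1 : cR F B (X.x Γ.i₂) ω = cR F B (X.x Γ.i₂) ω' := (Prod.ext_iff.1 hK).1
    have hc' : lCy X T F ν.a (slam F ν.a ω) = lCy X T F ν.a (slam F ν.a ω') := by
      unfold lCy₂ at hc
      rw [upw_slam F nm.haa nm.ha₂, upw_slam F nm.haa nm.ha₂] at hc
      exact hc
    refine (hk_cx E.fr inj (lx Γ.i₂ hi₂) L₂ (by positivity) (hD _ (hi₁.trans hi₁₂) hi₂)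
      le_rfl (hx1 _ hi₂) hω hω' hK1 ht (y_cy haJ (by omega) hlP ht hc')
      (hk_num (s := s) φμ φ0.le μ0 hJ₁ hJ1 g₂)
      (hk_num' φμ φ0.le μ0 (hY12 _ hi₂) hJ2 hEy (by linarith [hY _ hi₂]) g₂) i).trans (by norm_num)
  · intro ω ω' hω hω' hF i
    have hFw : cR F B w₂ ω = cR F B w₂ ω' := (Prod.ext_iff.1 hF).1
    have hW : F.W ω = F.W ω' := (Prod.ext_iff.1 hF).2
    have ht : F.T ω = F.T ω' := (Prod.ext_iff.1 hW).1
    -- the position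
    obtain ⟨P, hP⟩ : ∃ P : ℕ, P = ⌊(X.sn 0 w₂ - μ / 100) * J⌋₊ := ⟨_, rfl⟩
    have hy := x_l0 (j := w₂) (v := w₂) Lw.l0 le_rfl lw.w1 hω hω' hFw ht
    rw [← hP] at hy
    have hPl : (X.sn 0 X.t + T * X.q) * J ≤ P := by
      have h1 : (X.sn 0 w₂ - μ / 100) * J < P + 1 := by
        rw [hP]
        exact Nat.lt_floor_add_one _
      have h2 : (X.sn 0 X.t + T * X.q) + X.q / 2 ≤ X.sn 0 w₂ - μ / 100 := by linarith [sw.1]
      have h3 := mul_le_mul_of_nonneg_right h2 hJ0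
      have h4 : X.q * J₂ ≤ X.q * J := mul_le_mul_of_nonneg_left (by exact_mod_cast hJ2) q0.le
      linarith
    have hP1 : 1 ≤ P := by
      have h1 : (6 : ℝ) ≤ lP X T J := by exact_mod_cast hP6
      have h2 : (lP X T J : ℝ) ≤ (X.sn 0 X.t + T * X.q) * J :=
        Nat.floor_le (mul_nonneg hst hJ0)
      have h3 : (1 : ℝ) ≤ P := by linarith
      exact_mod_cast h3
    have hy' : |F.x ω (X.c 0) - F.x ω' (X.c 0)| ≤ 1 / 2 ^ (P - 1) := by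
      refine hy.trans (le_of_eq ?_)
      have e1 : (2 : ℝ) ^ P = 2 ^ (P - 1) * 2 := by
        rw [← pow_succ, Nat.sub_add_cancel hP1]
      rw [e1]
      field_simp
    have hEw : (X.sn 0 X.t + T * X.q) * J ≤ ((P - 1 : ℕ) : ℝ) + 4 := by
      have h2 : (P : ℝ) ≤ ((P - 1 : ℕ) : ℝ) + 1 := by
        exact_mod_cast (by omega : P ≤ P - 1 + 1)
      linarith
    constructor
    · exact hk_cx E.fr inj (lx Γ.i₁ (hi₁₂.trans hi₂)) L₁ (by positivity)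
        (hD _ hi₁ (hi₁₂.trans hi₂)) (xw _ (hi₁₂.trans hi₂)) lw.w1 hω hω' hFw ht hy'
        (hk_num (s := s) φμ φ0.le μ0 hJ₁ hJ1 g₁)
        (hk_num' φμ φ0.le μ0 (hY12 _ (hi₁₂.trans hi₂)) hJ2 hEw
          (by linarith [hY _ (hi₁₂.trans hi₂)]) g₁) i
    · exact hk_cx E.fr inj (lx Γ.i₂ hi₂) L₂ (by positivity) (hD _ (hi₁.trans hi₁₂) hi₂)
        (xw _ hi₂) lw.w1 hω hω' hFw ht hy'
        (hk_num (s := s) φμ φ0.le μ0 hJ₁ hJ1 g₂)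
        (hk_num' φμ φ0.le μ0 (hY12 _ hi₂) hJ2 hEw (by linarith [hY _ hi₂]) g₂) i

end Pool.T4J
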