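import Pool.Agent.H4.T4.Pck

/-!
# The labels of the second window

`stL`: the piece `PhL`: the velocities of all samples at one exact point are affine in the direction of
the slope-one place, whose values are far from each other.
-/

set_option autoImplicit false

namespace Pool.T4J

open Finset Real MvPolynomial
open Pool.Agent.H49.Ent Pool.Agent.H32.Dense
open Pool.STK hiding pr2
open Pool.KA Pool.KSAT Pool.K2S Pool.PB Pool.S6C
open Pool.GEN Pool.CHT Pool.CHX Pool.ISO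
open Pool.D2R Pool.GF64
open Pool.D2F2 (hgp vlp ojet_hgp ojet_vlp)
open Pool.RCD Pool.LA91
open Pool.GRD (LbP)
open Pool.CDX (AffL)
open Pool.T4N (Frm FrmP AffAt fX fV fXs fVs cYp fV_eq fVs_two)
open Pool.T4X
open Pool.V0F (LbE cR)
open Pool.AVG57 (upw upw_slam)
open Pool.T4E (vtf)

variable {J : ℕ}

/-- The labels of the frame, as functions of the line with the window `a`. -/
noncomputable def frU (X : Cx) {F : Fam 4 J} (Fr : Frm F) (a : ℕ) (s : LnT F) (l : ℕ) :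
    MvPolynomial (Option (Fin 4)) ℝ :=
  if h : 1 ≤ l ∧ l ≤ 3 then (fun i : Fin 3 => Fr.G i (Fr.z' i (upw (lw X J i) a s))) ⟨l - 1, by omega⟩
  else 0

theorem frU_in (X : Cx) {F : Fam 4 J} (Fr : Frm F) (a : ℕ) (s : LnT F) (i : Fin 3) :
    frU X Fr a s (1 + i) = Fr.G i (Fr.z' i (upw (lw X J i) a s)) := by
  have hi := i.2
  have e : (⟨1 + (i : ℕ) - 1, by omega⟩ : Fin 3) = i := Fin.ext (by simp)
  unfold frU
  rw [dif_pos ⟨by omega, by omega⟩]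
  exact congrArg (fun i : Fin 3 => Fr.G i (Fr.z' i (upw (lw X J i) a s))) e

section

variable {X : Cx} {F : Fam 4 J} {B : F.Ω → Prop} {Fr : Frm F} {P : Fin 3 → ℕ} {a : ℕ}

theorem frU_slam (h : FrmP F X.c (lw X J) P B Fr) (hw : ∀ i, lw X J i ≤ a) (ha : a ≤ J) {ω : F.Ω}
    (hω : B ω) (l : ℕ) (h1 : 1 ≤ l) (h2 : l ≤ 3) :
    frU X Fr a (slam F a ω) l = frG Fr (ptr F J ω) l := by
  obtain ⟨i, hi⟩ : ∃ i : Fin 3, 1 + (i : ℕ) = l := ⟨⟨l - 1, by omega⟩, by simp; omega⟩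
  subst hi
  rw [frG_in, frU_in, upw_slam F (hw i) ha, (h.lab i).cls ω hω]

/-- The velocities. -/
theorem eV_vlp (h : FrmP F X.c (lw X J) P B Fr) (hw : ∀ i, lw X J i ≤ a) (ha : a ≤ J) {ω : F.Ω}
    (hω : B ω) (i : Fin 3) :
    fVs X.c (lw X J) Fr a (slam F a ω) i = vlp F (X.c (i + 1)) (frG Fr (ptr F J ω) (i + 1)) ω := by
  rw [fV_eq h hw ha]
  show ojet F (X.c (1 + i)) 1 (Fr.G i (Fr.z' i (slam F (lw X J i) ω))) ω = _
  rw [ojet_vlp, ← (h.lab i).cls ω hω, Nat.add_comm (i : ℕ) 1, frG_in]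

end

/-- **The labels of the second window.** -/
theorem stL : StLw lbH := by
  intro s hr Γ hs _ _ hΓ hGA δ hδ
  have hA0 := hGA.1 0 (by norm_num) (by norm_num)
  have hA5 := hGA.1 5 (by norm_num) (by norm_num)
  have hm1 := hΓ.m1
  have hi₁ : 1 ≤ Γ.i₁ := by
    rw [hΓ.ei₁]
    exact Nat.mul_pos hA0 hm1
  have hi₂ : Γ.i₂ ≤ Γ.L := hΓ.iL
  have hk₂ : Γ.k₂ ≤ Γ.i₂ := by
    rw [hΓ.ei₂]
    exact Nat.le_add_right _ _
  have hik := hΓ.ik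
  have hk1 : 1 ≤ Γ.k₂ := by omega
  have hkL : Γ.k₂ ≤ Γ.L := hk₂.trans hi₂
  -- the lengths
  have hA4 : Γ.A 4 + 3 ≤ Γ.A 0 := by
    have h1 := hΓ.kl
    have h2 := hΓ.nn
    have h3 : (Γ.k₂ : ℝ) ≤ Γ.i₂ := by exact_mod_cast hk₂
    have h4 : (s - 1) * ((Γ.k₂ : ℝ) - Γ.i₁) ≤ (s - 1) * ((Γ.i₂ : ℝ) - Γ.i₁) :=
      mul_le_mul_of_nonneg_left (by linarith) (by linarith)
    have h5 : ((Γ.A 4 : ℝ) + 1) * Γ.m < Γ.A 6 * Γ.m := by linarith
    have h6 : (Γ.A 4 : ℝ) + 1 < Γ.A 6 := lt_of_mul_lt_mul_right h5 (Nat.cast_nonneg _)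
    have h7 : Γ.A 4 + 1 < Γ.A 6 := by exact_mod_cast h6
    have h8 := hGA.2
    omega
  refine ⟨1, s + 3, one_pos, fun κ₀ T N₀ _ _ hT hN => ⟨T + 3, 100, 1 / 2, by norm_num,
    fun Λ e hΛ he hec X hX μ w₂ hμ hμ' hw hw1 hw2 => ?_⟩⟩
  have G := gw hX hs (by linarith) hΛ he hec (by omega) hμ (by linarith [hX.ρ0]) hw hw1 hw2
  obtain ⟨q0, ρ0, μ0, μρ, ρq, φ0, φμ, inj, xG, xq, xρ, xw, wG, lx, lw', -⟩ := G
  have hΛ1 : 1 ≤ Λ := by linarith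
  have hΛq : X.q ≤ Λ * X.q := le_mul_of_one_le_left q0.le hΛ1
  have hTq : (s + 3) * X.q ≤ T * X.q := mul_le_mul_of_nonneg_right hT q0.le
  have hsq : X.q ≤ s * X.q := le_mul_of_one_le_left q0.le hs.le
  have hs0 : |X.sn 0 X.t - X.t| ≤ e * X.q := hX.s0 X.t hX.box.wG le_rfl (by linarith)
  have heμ : e * X.q ≤ μ / 100 := by
    rw [le_div_iff₀ (by norm_num)]
    linarith
  rw [abs_le] at hs0
  -- the directions are far from each other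
  have hact : Pool.T4A95.ActI X.S (X.c 0) X.a 0 (X.ρ / 2) := hX.act 0 (X.ρ / 2) le_rfl
    (by linarith) (by linarith)
  have hsep := sep_cls (m := 4) hX.pos hact hX.a0 (by linarith) hδ
  -- the thresholds
  obtain ⟨J₁, hJ₁⟩ := exists_nat_ge (30 / X.ρ)
  rw [div_le_iff₀ ρ0] at hJ₁
  refine ⟨1, one_pos, {X.x Γ.k₂}, fun v hv => ?_, Bas.mono J₁ hsep ?_⟩
  · rw [Finset.mem_singleton] at hv
    rw [hv]
    exact xG _ hkL
  intro J hJ F B hsp Fr k ν E hLb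
  have hJ0 : (0 : ℝ) ≤ J := Nat.cast_nonneg J
  have hJρ : 30 ≤ X.ρ * J := by
    have h1 : (J₁ : ℝ) ≤ J := by exact_mod_cast hJ
    have h2 := mul_le_mul_of_nonneg_left h1 ρ0.le
    linarith
  have nm := E.nm
  have hp : IsLaw (lq F B) := isLaw_cond F.isLaw E.pos
  have hpB : ∀ ω, 0 < lq F B ω → B ω := fun ω hω => by
    have h := ((cond_pos_iff F.isLaw.nonneg B True ω).1 hω).2
    simpa using h
  have Lk : Lbx X (μ / 100) F B Fr (X.x Γ.k₂) := hLb _ (Finset.mem_singleton_self _)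
  obtain ⟨⟨GB, HB, L⟩, -⟩ := Lk
  have Lv := lx Γ.k₂ hkL
  have ea : ν.a = ⌊X.x 0 * J⌋₊ := nm.ea
  have ea₂ : ν.a₂ = ⌊X.x Γ.k₂ * J⌋₊ := nm.ea₂
  have haJ : ν.a ≤ J := nm.haa.trans nm.ha₂
  have hwa : ∀ i, lw X J i ≤ ν.a := fun i => by
    rw [ea]
    exact Nat.floor_le_floor (mul_le_mul_of_nonneg_right ((lx 0 (Nat.zero_le _)).bl i) hJ0)
  have hwa₂ : ∀ i, lw X J i ≤ ν.a₂ := fun i => (hwa i).trans nm.haa
  have hVV : ∀ ω : F.Ω, eV₂ X F Fr ν (slam F ν.a₂ ω) = eV X F Fr ν (slam F ν.a ω) :=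
    fun ω => fVs_two E.fr hwa nm.haa nm.ha₂ ω
  -- the unit
  obtain ⟨υ, hυ⟩ : ∃ υ : ℝ, υ = Γ.m * X.ρ := ⟨_, rfl⟩
  have hυρ : X.ρ ≤ υ := by
    rw [hυ]
    exact le_mul_of_one_le_left ρ0.le (by exact_mod_cast hm1)
  have hυJ : X.ρ * J ≤ υ * J := mul_le_mul_of_nonneg_right hυρ hJ0
  have hul : υ * J ≤ ν.u + 1 := by
    rw [hυ]
    exact nm.ul
  have hu1 : 1 ≤ ν.u := by
    have h1 : (1 : ℝ) ≤ ν.u := by linarith
    exact_mod_cast h1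
  have hyM : Γ.A 4 * ν.u + 2 ≤ Γ.A 0 * ν.u := by
    have h1 := Nat.mul_le_mul_right ν.u hA4
    rw [Nat.add_mul] at h1
    omega
  have dk : ∀ i : Fin 3, (Γ.A 4 : ℝ) * ν.u + ν.n i + υ * J ≤
      (X.sn (1 + i) (X.x Γ.k₂) - X.x Γ.k₂) * J := fun i => by
    rw [hυ]
    exact nm.dk i
  have eg : ∀ i : Fin 3, (ν.g i : ℝ) = ν.a + (Γ.A 0 : ℝ) * ν.u + ν.n i := fun i => by
    rw [nm.eg i]
    push_cast
    ring
  have hφJ : X.φ * J ≤ X.ρ * J / 100 := by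
    have h1 : X.φ ≤ X.ρ / 100 := by linarith
    have h2 := mul_le_mul_of_nonneg_right h1 hJ0
    linarith
  have hμJ : μ * J ≤ X.ρ * J := mul_le_mul_of_nonneg_right μρ hJ0
  have hlL : (X.sn 0 X.t - X.t + T * X.q) * J < (lL X T J : ℝ) + 1 := Nat.lt_floor_add_one _
  have hD : X.φ ≤ s * (X.x Γ.k₂ - X.t) := by
    have h3 := xρ Γ.k₂ hk1 hkL
    have h4 : 1 * (X.x Γ.k₂ - X.t) ≤ s * (X.x Γ.k₂ - X.t) :=
      mul_le_mul_of_nonneg_right hs.le (by linarith)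
    linarith
  refine ⟨jj X.c ν.a (lL X T J) ν.g (frU X Fr ν.a₂) HB (eV₂ X F Fr ν),
    fun ω => dfl (lL X T J) (F.d ω (X.c 0)), ?_, ?_, ?_, ?_, ?_⟩
  · intro ω ω' hω hω' hG
    have h1 : lCy X T F ν.a (slam F ν.a ω) = lCy X T F ν.a (slam F ν.a ω') :=
      (Prod.ext_iff.1 (Prod.ext_iff.1 hG).2).1
    have h2 : ⌊(2 : ℝ) ^ lL X T J * F.d ω (X.c 0)⌋ = ⌊(2 : ℝ) ^ lL X T J * F.d ω' (X.c 0)⌋ :=
      (Prod.ext_iff.1 h1).2
    show dfl (lL X T J) (F.d ω (X.c 0)) = dfl (lL X T J) (F.d ω' (X.c 0))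
    unfold dfl
    rw [h2]
  · intro ω _
    exact dfl_one (F.dir ω (X.c 0))
  · exact j1_of hp (fun ω _ => hVV ω) hyM hδ.le
  · refine j2_re (v := X.x Γ.k₂) (D := s * (X.x Γ.k₂ - X.t) - X.φ) (GA := frG Fr) L hp hpB inj
      (frG_dg E.fr) (by positivity) Lv.t0 Lv.v0 Lv.w0 (by linarith) Lv.up ea₂
      (fun ω hω => frU_slam E.fr hwa₂ nm.ha₂ hω) (fun ω hω => eV_vlp E.fr hwa haJ hω)
      (fun ω _ => hVV ω) (fun ω ω' hω hω' hF l h1 h2 => ?_) hyM (fun i => ?_) (fun i => ?_) hδ.le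
    · have hFw : cR F B w₂ ω = cR F B w₂ ω' := (Prod.ext_iff.1 hF).1
      exact ⟨eA_of E.fr lw'.bl lw'.w1 hω hω' hFw l h1 h2,
        eB_of L (xw _ hkL) lw'.w1 hω hω' hFw l h1 h2⟩
    · have h3 := dk i
      have h4 := eg i
      have h5 := mul_le_mul_of_nonneg_right (Lv.dn (1 + i) (by omega) (by omega)) hJ0
      rw [Nat.add_comm (i : ℕ) 1]
      push_cast
      linarith
    · have h3 := dk i
      have h4 := eg i
      have h5 := mul_le_mul_of_nonneg_right (Lv.dn (1 + i) (by omega) (by omega)) hJ0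
      have h6 : (s - 1) * (X.x Γ.k₂ - X.t) ≤ (s - 1) * X.q :=
        mul_le_mul_of_nonneg_left (by linarith [xq _ hkL]) (by linarith)
      have h7 := mul_le_mul_of_nonneg_right h6 hJ0
      have h8 := mul_le_mul_of_nonneg_right hTq hJ0
      have h9 : X.ρ * J ≤ X.q * J := mul_le_mul_of_nonneg_right ρq hJ0
      rw [Nat.add_comm (i : ℕ) 1]
      push_cast
      linarith
  · refine hsp _ (lFp F B w₂) (fun ω ω' hω hω' hp' => ?_) ν.u (lL X T J) ?_ ?_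
    · exact Prod.ext (cR_pt (hpB ω hω) (hpB ω' hω') hp') (Prod.ext_iff.1 hp').2
    · have h1 : X.ρ / 2 * J ≤ ν.u := by linarith
      exact Nat.floor_le_of_le h1
    · refine Nat.floor_le_floor (mul_le_mul_of_nonneg_right ?_ hJ0)
      linarith [hs0.1]

end Pool.T4J
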