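import Pool.Agent.H4.T4.Lin

/-!
# The relative gradients of affine labels of two windows

`frA`: the frame of affine labels, zero at the place `0`. `rho_nat`: labels `GA` near the charts of the
first window of a chain and labels `GB` near the charts of the last one: the relative gradients are
natural at the first window.
-/

set_option autoImplicit false

namespace Pool.T4J

open Finset Real MvPolynomial
open Pool.Agent.H49.Ent Pool.Agent.H32.Dense Pool.STK Pool.KA Pool.KSAT Pool.K2S Pool.PB Pool.S6C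
open Pool.GEN Pool.CHT Pool.CHX Pool.ISO
open Pool.D2R Pool.GF64

/-- **The frame of the labels** of the places `1, …, r`. -/
noncomputable def frA {m : ℕ} (r : ℕ) (GB : ℕ → MvPolynomial (Option (Fin m)) ℝ) (l : ℕ) :
    MvPolynomial (Option (Fin m)) ℝ := if 1 ≤ l ∧ l ≤ r then GB l else 0

theorem frA_in {m r l : ℕ} {GB : ℕ → MvPolynomial (Option (Fin m)) ℝ} (h1 : 1 ≤ l) (h2 : l ≤ r) :
    frA r GB l = GB l := if_pos ⟨h1, h2⟩

theorem frA_zero {m r : ℕ} {GB : ℕ → MvPolynomial (Option (Fin m)) ℝ} : frA r GB 0 = 0 :=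
  if_neg fun h => absurd h.1 (by norm_num)

theorem frA_dep {m r : ℕ} {c : ℕ → Fin m} {GB : ℕ → MvPolynomial (Option (Fin m)) ℝ}
    (h : ∀ l, 1 ≤ l → l ≤ r → DepC c l (GB l)) (l : ℕ) : DepC c l (frA r GB l) := by
  unfold frA
  split_ifs with h1
  · exact h l h1.1 h1.2
  · exact fun b b' _ _ => by rw [map_zero, map_zero]

theorem frA_deg {m r D : ℕ} {GB : ℕ → MvPolynomial (Option (Fin m)) ℝ}
    (h : ∀ l, 1 ≤ l → l ≤ r → (GB l).totalDegree ≤ D) (l : ℕ) :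
    (frA r GB l).totalDegree ≤ D := by
  unfold frA
  split_ifs with h1
  · exact h l h1.1 h1.2
  · rw [totalDegree_zero]
    exact Nat.zero_le _

/-- **The relative gradients are natural.** -/
theorem rho_nat (D D' r : ℕ) : ∃ C : ℕ, 1 ≤ C ∧ ∀ {m J : ℕ} {F : Fam m J} {c : ℕ → Fin m}
    {Dr N M : ℕ} {C₀ a Eb ηm : ℝ} {o η σ : ℕ → ℝ} {lv b : ℕ → ℕ → ℝ} {κ : ℝ}
    {z : ℕ → ℕ → ℕ} {B : F.Ω → Prop} {g₀ : ℕ → ℕ → ℕ}
    {G : ℕ → PtT F → ℕ → MvPolynomial (Option (Fin m)) ℝ}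
    {H : ℕ → LnT F → ℕ → MvPolynomial (Option (Fin m)) ℝ}
    (_ : WinB F c r D Dr N M C₀ a Eb ηm o η σ lv b κ z B g₀ G H)
    {GA GB : PtT F → ℕ → MvPolynomial (Option (Fin m)) ℝ} {κA κB : ℕ → F.Ω → ℝ}
    {f jj : ℕ → ℕ} {n Y : ℕ} {s : ℝ},
    Set.InjOn c (Set.Iio (r + 1)) → 1 ≤ n → (∀ t ≤ n, f t ≤ N) →
    (∀ t < n, jj t ≤ M ∧ z (f t) (jj t) = ⌊o (f (t + 1)) * J⌋₊ - ⌊o (f t) * J⌋₊ ∧
      o (f t) ≤ o (f (t + 1))) →
    C₀ * (ηm * J) ≤ Y → 4 ≤ Y → (n : ℝ) ≤ 2 ^ Y → 1 ≤ s →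
    (∀ t < n, ∀ l ≤ r, (lv (f (t + 1)) l - lv (f t) l) * J ≤ Y ∧
      (lv (f t) l - lv (f (t + 1)) l) * J ≤ Y) →
    (∀ t < n, s * ((o (f (t + 1)) - o (f t)) * J) ≤ Y) →
    -- the slopes
    (∀ t t', t ≤ t' → t' ≤ n →
      (lv (f t') 0 - lv (f t) 0) * J ≤ (o (f t') - o (f t)) * J + Y) →
    (∀ t t', t ≤ t' → t' ≤ n → ∀ l, 1 ≤ l → l ≤ r →
      s * ((o (f t') - o (f t)) * J) ≤ (lv (f t') l - lv (f t) l) * J + Y) →
    (∀ t t', t ≤ t' → t' ≤ n → ∀ j l, 1 ≤ j → j < l → l ≤ r →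
      (lv (f t') j - lv (f t) j) * J ≤ (lv (f t') l - lv (f t) l) * J + Y) →
    -- the labels
    (∀ l, 1 ≤ l → l ≤ r → ∀ y, (GA y l).totalDegree ≤ D' ∧ DepC c l (GA y l)) →
    (∀ l, 1 ≤ l → l ≤ r → ∀ y, (GB y l).totalDegree ≤ D' ∧ DepC c l (GB y l)) →
    (∀ l, 1 ≤ l → l ≤ r → ∀ ω, B ω → ∀ x,
      NBx c (G (f 0) (ptr F J ω)) (g₀ (f 0)) ⌊o (f 0) * J⌋₊ (F.t ω) l x →
      |eval x (GA (ptr F J ω) l) + κA l ω - eval x (G (f 0) (ptr F J ω) l)| ≤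
        2 ^ Y / 2 ^ g₀ (f 0) l) →
    (∀ l, 1 ≤ l → l ≤ r → ∀ ω, B ω → ∀ x,
      NBx c (G (f n) (ptr F J ω)) (g₀ (f n)) ⌊o (f n) * J⌋₊ (F.t ω) l x →
      |eval x (GB (ptr F J ω) l) + κB l ω - eval x (G (f n) (ptr F J ω) l)| ≤
        2 ^ Y / 2 ^ g₀ (f n) l) →
    ∀ ω, B ω → ∀ i, 1 ≤ i → i ≤ r → ∀ j < i,
      |ncp c i (frA r (GB (ptr F J ω))) (GB (ptr F J ω) i - GA (ptr F J ω) i) (bt F ω) j| ≤
        2 ^ (C * Y) * (2 ^ g₀ (f 0) j / 2 ^ g₀ (f 0) i) := by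
  obtain ⟨C₁, hC₁, hg⟩ := gfr D D' r
  obtain ⟨C₂, hC₂, ha⟩ := rho_alg (r + 1) (max D D')
  refine ⟨C₂ * (C₁ + 5), Nat.mul_pos hC₂ (by omega), ?_⟩
  intro m J F c Dr N M C₀ a Eb ηm o η σ lv b κ z B g₀ G H W GA GB κA κB f jj n Y s hc hn hf hst
    hY hY4 hnY hs hlv hos hs0 hsl hsj hA hB hnA hnB ω hω i hi1 hir
  have hJ : (0 : ℝ) ≤ J := Nat.cast_nonneg J
  have hY4R : (4 : ℝ) ≤ Y := by exact_mod_cast hY4
  have hηm0 : 0 ≤ ηm := (W.hη (f 0) (hf 0 (Nat.zero_le n))).1.trans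
    (W.hη (f 0) (hf 0 (Nat.zero_le n))).2
  have hηY : ηm * J ≤ Y := by
    have h1 : ηm * J ≤ C₀ * (ηm * J) := le_mul_of_one_le_left (mul_nonneg hηm0 hJ) W.C1
    linarith
  have homon : ∀ k k', k ≤ k' → k' ≤ n → o (f k) ≤ o (f k') := by
    intro k k' hk
    induction hk with
    | refl => exact fun _ => le_rfl
    | step h ih => exact fun hk' => (ih (by omega)).trans (hst _ (by omega)).2.2
  obtain ⟨Δ, hΔ⟩ : ∃ Δ : ℝ, Δ = (o (f n) - o (f 0)) * J := ⟨_, rfl⟩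
  have hΔ0 : 0 ≤ Δ := by
    rw [hΔ]
    exact mul_nonneg (by linarith [homon 0 n (Nat.zero_le n) le_rfl]) hJ
  have hsΔ : Δ ≤ s * Δ := le_mul_of_one_le_left hΔ0 hs
  have hcq : (⌈Δ⌉₊ : ℝ) < Δ + 1 := Nat.ceil_lt_add_one hΔ0
  have hcq' : Δ ≤ ⌈Δ⌉₊ := Nat.le_ceil Δ
  have hi0 : i ≠ 0 := by omega
  have hgr := (hg W (GN := fun y => GA y i) (κN := κA i) (fb := fun _ => f 0) (jb := fun _ => 0)
    (f := f) (jj := jj) (k := 1) (i := i) (nb := 0) (n := n) (ks := n) (q := ⌈Δ⌉₊ + 3) (X := 0)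
    (Y := Y) (S := 1) (b' := s) hi1 hir (fun t _ => hf 0 (Nat.zero_le n))
    (fun t ht => absurd ht (Nat.not_lt_zero t)) (by
      rw [Nat.cast_zero]
      positivity) (fun t _ l _ => by
      constructor <;> · rw [sub_self, zero_mul]; linarith) rfl hc hn hf hst hY (by omega) hnY
    zero_le_one hs (fun t ht l hl => hlv t ht l (by omega)) hos
    (fun t t' h1 h2 l hl => by
      have : l = 0 := by omega
      subst this
      rw [one_mul]
      exact hs0 t t' h1 h2) (fun t t' h1 h2 l h3 h4 => hsl t t' h1 h2 l h3 (by omega))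
    (fun y => (hA i hi1 hir y).1) (fun y => (hA i hi1 hir y).2) (hnA i hi1 hir)
    (by
      rw [one_mul, ← hΔ]
      push_cast
      linarith) (by
      rw [← hΔ]
      push_cast
      linarith) (Nat.zero_le _) le_rfl (by
      rw [← hΔ, Nat.cast_zero]
      have : 0 ≤ (s - 1) * Δ := mul_nonneg (by linarith) hΔ0
      linarith)).1 ω hω
  obtain ⟨fr, hfr⟩ : ∃ fr : ℕ → MvPolynomial (Option (Fin m)) ℝ,
    fr = fol G (fun y => GA y i) (f 0) (f n) 1 i (ptr F J ω) := ⟨_, rfl⟩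
  have hfri : fr i = GA (ptr F J ω) i := by
    rw [hfr]
    unfold fol
    rw [if_neg (by omega), if_neg (lt_irrefl i)]
  have hfN : ∀ k ≤ n, ∀ l, (G (f k) (ptr F J ω) l).totalDegree ≤ D := fun k hk l =>
    (W.ev (f k) (hf k hk)).ball.degG _ l
  have hfD : ∀ k ≤ n, ∀ l, DepC c l (G (f k) (ptr F J ω) l) := fun k hk l =>
    (W.ev (f k) (hf k hk)).ball.depG _ l
  intro j hj
  have hmain := ha (c := c) (ψ := G (f n) (ptr F J ω)) (fr := fr) (GB := frA r (GB (ptr F J ω)))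
    (GA := GA (ptr F J ω) i) (g := g₀ (f n)) (γ := g₀ (f 0)) (a := ⌊o (f n) * J⌋₊) (U := C₁ * Y)
    (Y := 4 * Y) (i := i) (κ := fun l => κB l ω) (x := bt F ω) hc (by omega)
    (fun l => (hfN n le_rfl l).trans (le_max_left _ _)) (hfD n le_rfl)
    (fun l => (frA_deg (D := D') (fun l h1 h2 => (hB l h1 h2 _).1) l).trans (le_max_right _ _))
    (frA_dep fun l h1 h2 => (hB l h1 h2 _).2) (hA i hi1 hir _).2
    (fun l => by
      rw [hfr]
      unfold fol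
      split_ifs with h1 h2
      · exact hfD 0 (Nat.zero_le n) l
      · exact hfD n le_rfl l
      · exact depC_mono (hA i hi1 hir _).2 (by omega))
    (fun l h1 h2 => by
      rw [hfr]
      unfold fol
      rw [if_neg (by omega), if_pos h2])
    (fun l h1 h2 x hx => by
      rw [frA_in h1 (by omega)]
      refine (hnB l h1 (by omega) ω hω x hx).trans (div_le_div_of_nonneg_right
        (pow_le_pow_right₀ (by norm_num) (by omega)) (by positivity)))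
    (fun l hl => (W.ev (f n) (hf n le_rfl)).ball.pos ω hω l (by omega))
    (fun l hl => by
      have h1 := hgr l hl (fun h1 t t' h2 h3 l' h4 h5 => hsj t t' h2 h3 l l' h1 h4 (by omega))
      unfold gnh at h1
      rw [← hfr, hfri, abs_mul, abs_of_pos (by positivity)] at h1
      have p1 : (0 : ℝ) < 2 ^ g₀ (f 0) i / 2 ^ g₀ (f 0) l := by positivity
      have e1 : (2 : ℝ) ^ (C₁ * Y) * (2 ^ g₀ (f 0) l / 2 ^ g₀ (f 0) i) =
        2 ^ (C₁ * Y) / (2 ^ g₀ (f 0) i / 2 ^ g₀ (f 0) l) := by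
        field_simp
      rw [e1, le_div_iff₀ p1, mul_comm]
      exact h1)
    (fun j' l h1 h2 => by
      obtain ⟨-, -, a1, a2⟩ := W.g_num (hf 0 (Nat.zero_le n)) (show l ≤ r by omega)
      obtain ⟨-, -, a3, a4⟩ := W.g_num (hf n le_rfl) (show l ≤ r by omega)
      obtain ⟨-, -, a5, a6⟩ := W.g_num (hf 0 (Nat.zero_le n)) (show j' ≤ r by omega)
      obtain ⟨-, -, a7, a8⟩ := W.g_num (hf n le_rfl) (show j' ≤ r by omega)
      have h3 : (lv (f n) j' - lv (f 0) j') * J ≤ (lv (f n) l - lv (f 0) l) * J + 2 * Y := by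
        rcases Nat.eq_zero_or_pos j' with h4 | h4
        · have h5 := hs0 0 n (Nat.zero_le n) le_rfl
          have h6 := hsl 0 n (Nat.zero_le n) le_rfl l (by omega) (by omega)
          rw [← hΔ] at h5 h6
          rw [h4]
          linarith
        · have h5 := hsj 0 n (Nat.zero_le n) le_rfl j' l h4 h1 (by omega)
          linarith
      have h7 : ((g₀ (f 0) l + g₀ (f n) j' : ℕ) : ℝ) ≤
          ((g₀ (f n) l + g₀ (f 0) j' + 4 * Y : ℕ) : ℝ) := by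
        push_cast
        linarith
      exact_mod_cast h7) hi1 j hj
  rw [frA_in hi1 hir] at hmain
  refine hmain.trans (mul_le_mul_of_nonneg_right (pow_le_pow_right₀ (by norm_num) ?_)
    (by positivity))
  rw [mul_assoc]
  refine Nat.mul_le_mul_left _ ?_
  nlinarith

end Pool.T4J
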