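import Pool.Agent.H4.T4.Jj
import Pool.Agent.H36.T4.AlvR

/-!
# The data of the rows

`rowH_of`: `RowH` for the record `wG`, the exact point `Fp` and the direction of the coordinate `k`.
`fp_free`: fewer data in the condition.
-/

set_option autoImplicit false

namespace Pool.T4J

open Finset Real MvPolynomial
open Pool.Agent.H49.Ent Pool.Agent.H32.Dense Pool.STK Pool.KA Pool.KSAT Pool.K2S Pool.PB Pool.S6C
open Pool.GEN Pool.CHT Pool.CHX Pool.ISO
open Pool.D2R Pool.GF64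
open Pool.LA91 (ojet bd_le)
open Pool.T4G (wD wN wG AffX)
open Pool.AVG57 (upw upw_slam)
open Pool.T4H (Tau)
open Pool.PR46 (P1 P1_law P1_pos)
open Pool.T4M (RowH)

variable {m J : ℕ}

/-- **Near integer vectors** over one value of the condition. -/
theorem ch_near {Ω T : Type} [Fintype Ω] {q : Ω → ℝ} (hq : IsLaw q) {d K : ℕ}
    (X : Ω → Fin d → ℤ) (Z : Ω → T)
    (h : ∀ ω ω', 0 < q ω → 0 < q ω' → Z ω = Z ω' → ∀ i, |(X ω i : ℝ) - X ω' i| ≤ K) :
    CH q X Z ≤ d * Real.log (2 * K + 1) := by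
  have h1 := CH_le_vec hq.nonneg hq.sum_one X Z (fun _ => (K : ℝ)) (fun ω ω' a b e i => by
    push_cast
    exact h ω ω' a b e i)
  refine h1.trans (le_of_eq ?_)
  unfold Ex
  rw [← Finset.sum_mul, hq.sum_one, one_mul]

/-- Floors of near numbers. -/
theorem fl_sub {x y K : ℝ} (h : |x - y| ≤ K) : |(⌊x⌋ : ℝ) - ⌊y⌋| ≤ K + 1 := by
  have h1 := Int.floor_le x
  have h2 := Int.lt_floor_add_one x
  have h3 := Int.floor_le y
  have h4 := Int.lt_floor_add_one y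
  rw [abs_le] at h ⊢
  constructor <;> linarith [h.1, h.2]

/-- Upper digits of near numbers. -/
theorem fl_div {x y : ℝ} {q K : ℕ} (h : |x - y| ≤ K * 2 ^ q) :
    |((⌊x⌋ / 2 ^ q : ℤ) : ℝ) - ((⌊y⌋ / 2 ^ q : ℤ) : ℝ)| ≤ K + 1 := by
  have e1 : ∀ z : ℝ, (⌊z⌋ / 2 ^ q : ℤ) = ⌊z / 2 ^ q⌋ := fun z => by
    have h1 := Int.floor_div_natCast z (2 ^ q)
    push_cast at h1
    exact h1.symm
  rw [e1, e1]
  refine fl_sub ?_
  rw [← sub_div, abs_div, abs_of_pos (by positivity : (0 : ℝ) < 2 ^ q), div_le_iff₀ (by positivity)]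
  exact h

/-- The time behind a window has at most the full entropy. -/
theorem tm_le {Ω : Type} [Fintype Ω] {p : Ω → ℝ} (hp : IsLaw p) (t : Ω → ℕ) (M : ℕ)
    (ht : ∀ ω, 0 < p ω → t ω < 2 ^ M) : CH p t (fun _ => ()) ≤ M * Real.log 2 := by
  refine (CH_le_card hp.nonneg hp.sum_one t (fun _ => ()) (fun _ => Finset.range (2 ^ M))
    (fun ω hω => Finset.mem_range.2 (ht ω hω))).trans (le_of_eq ?_)
  unfold Ex
  rw [← Finset.sum_mul, hp.sum_one, one_mul, Finset.card_range]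
  push_cast
  rw [Real.log_pow]

/-- **The data of the rows** for the record `wG`. -/
theorem rowH_of {F : Fam m J} {p : F.Ω → ℝ} (hp : IsLaw p) {n a a₂ q P E K : ℕ}
    {g : Fin n → ℕ} {k : Fin m} {κ Φ : Type} {Kb : F.Ω → κ} {Fp : F.Ω → Φ}
    {Vs : LnT F → Fin n → ℝ} {e : ℝ} (haa : a ≤ a₂) (ha₂ : a₂ ≤ J) (hPE : P ≤ E + a)
    -- the record is a function of the exact point, and of the line with the window `a₂`
    (hKF : ∀ ω ω', 0 < p ω → 0 < p ω' → Fp ω = Fp ω' → Kb ω = Kb ω' ∧ F.T ω = F.T ω')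
    (hKL : ∀ ω ω', 0 < p ω → 0 < p ω' → slam F a₂ ω = slam F a₂ ω' → Kb ω = Kb ω')
    -- the upper digits of the velocities, given the record and the direction of `k`
    (hV : ∀ ω ω', 0 < p ω → 0 < p ω' → Kb ω = Kb ω' →
      ⌊(2 : ℝ) ^ E * F.d ω k⌋ = ⌊(2 : ℝ) ^ E * F.d ω' k⌋ → ∀ i,
      |2 ^ g i / 2 ^ a * Vs (slam F a ω) i - 2 ^ g i / 2 ^ a * Vs (slam F a ω') i| ≤ K * 2 ^ q)
    -- the exact point knows the position of `k`
    (hy : ∀ ω ω', 0 < p ω → 0 < p ω' → Fp ω = Fp ω' → |F.x ω k - F.x ω' k| ≤ K / 2 ^ P)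
    (full : J * Real.log 2 - e ≤ CH p F.T (fun ω => (F.l ω, F.Z ω)))
    (fr : CH p (fun ω => ⌊(2 : ℝ) ^ E * F.d ω k⌋) (fun ω => (Kb ω, F.T ω)) - e ≤
      CH p (fun ω => ⌊(2 : ℝ) ^ E * F.d ω k⌋) Fp)
    (he : ((n : ℝ) + 1) * Real.log (2 * (2 * K + 4) + 1) ≤ e) :
    RowH p (slam F a₂) (wG Vs a g q Kb (cyq k a P E)) Fp (fun ω => (Kb ω, F.T ω))
      (fun ω => ⌊(2 : ℝ) ^ E * F.d ω k⌋) (fun ω => F.T ω % 2 ^ (J - a₂)) e where
  law := hp
  GA := fun ω ω' _ _ h => Prod.ext (Prod.ext_iff.1 h).1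
    (Prod.ext_iff.1 (Prod.ext_iff.1 (Prod.ext_iff.1 h).2).2).1
  FA := fun ω ω' h1 h2 h => Prod.ext (hKF ω ω' h1 h2 h).1 (hKF ω ω' h1 h2 h).2
  fr := fr
  tm := by
    have h1 := Pool.T4E.full_evt hp ha₂ full
    have h2 := tm_le hp (fun ω => F.T ω % 2 ^ (J - a₂)) (J - a₂)
      (fun ω _ => Nat.mod_lt _ (by positivity))
    rw [Nat.cast_sub ha₂] at h2
    linarith
  r1 := by
    obtain ⟨Z, hZ⟩ : ∃ Z : F.Ω × F.Ω → (κ × ((ℤ × ℤ) × (ℕ × (Fin n → ℤ)))) × ℤ, Z = fun v =>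
      (wG Vs a g q Kb (cyq k a P E) v.1, ⌊(2 : ℝ) ^ E * F.d v.2 k⌋) := ⟨_, rfl⟩
    obtain ⟨X, hX⟩ : ∃ X : F.Ω × F.Ω → Fin (n + 1) → ℤ, X = fun v =>
      Fin.cons (⌊(2 : ℝ) ^ P * lpt a (slam F a v.2) (some k)⌋)
        (wN Vs a g q (slam F a v.2)) := ⟨_, rfl⟩
    have hP1 := P1_law hp Fp
    have hX0 : ∀ v, X v 0 = ⌊(2 : ℝ) ^ P * lpt a (slam F a v.2) (some k)⌋ := fun v => by
      rw [hX]
      rfl
    have hXs : ∀ v (i : Fin n), X v i.succ = wN Vs a g q (slam F a v.2) i := fun v i => by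
      rw [hX]
      rfl
    rw [← hZ]
    -- equal conditions
    have key : ∀ v v', 0 < P1 p Fp v → 0 < P1 p Fp v' → Z v = Z v' →
        Kb v.2 = Kb v'.2 ∧ F.T v.2 = F.T v'.2 ∧
        ⌊(2 : ℝ) ^ E * F.d v.2 k⌋ = ⌊(2 : ℝ) ^ E * F.d v'.2 k⌋ ∧
        cyq k a P E (slam F a v.1) = cyq k a P E (slam F a v'.1) ∧ F.T v.1 = F.T v'.1 := by
      intro v v' hv hv' h
      rw [hZ] at h
      obtain ⟨h1, h2⟩ := Prod.ext_iff.1 h
      obtain ⟨h3, h4⟩ := Prod.ext_iff.1 h1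
      obtain ⟨h5, h6⟩ := Prod.ext_iff.1 h4
      have h7 := (Prod.ext_iff.1 h6).1
      obtain ⟨a1, a2, a3⟩ := P1_pos hp Fp hv
      obtain ⟨b1, b2, b3⟩ := P1_pos hp Fp hv'
      obtain ⟨c1, c2⟩ := hKF _ _ a1 a2 a3
      obtain ⟨d1, d2⟩ := hKF _ _ b1 b2 b3
      exact ⟨c1.symm.trans (h3.trans d1), c2.symm.trans (h7.trans d2), h2, h5, h7⟩
    have hXn : CH (P1 p Fp) X Z ≤ ((n + 1 : ℕ) : ℝ) * Real.log (2 * ((2 * K + 4 : ℕ) : ℝ) + 1) := by
      refine ch_near hP1 X Z fun v v' hv hv' h => ?_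
      obtain ⟨k1, k2, k3, k4, k5⟩ := key v v' hv hv' h
      obtain ⟨a1, a2, a3⟩ := P1_pos hp Fp hv
      obtain ⟨b1, b2, b3⟩ := P1_pos hp Fp hv'
      refine Fin.cases ?_ fun i => ?_
      · rw [hX0, hX0]
        have e1 := hy _ _ a1 a2 a3
        have e2 := hy _ _ b1 b2 b3
        have e3 := cyq_pos (haa.trans ha₂) k5 k4
        have e4 : |F.d v.2 k - F.d v'.2 k| ≤ 1 / 2 ^ E := floor_near k3
        have e5 := bt_lpt F a v.2 (some k)
        have e6 := bt_lpt F a v'.2 (some k)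
        have e7 : F.t v'.2 = F.t v.2 := by
          unfold Fam.t
          rw [k2]
        have e8 : F.T1 a v'.2 = F.T1 a v.2 := by
          unfold Fam.T1
          rw [k2]
        rw [e7, e8] at e6
        have hσ1 := win_len (haa.trans ha₂) v.2
        obtain ⟨σ, hσ⟩ : ∃ σ : ℝ, σ = F.t v.2 - (F.T1 a v.2 : ℝ) / 2 ^ a := ⟨_, rfl⟩
        rw [← hσ] at e5 e6 hσ1
        have e5' : F.x v.2 k = lpt a (slam F a v.2) (some k) + σ * F.d v.2 k := e5
        have e6' : F.x v'.2 k = lpt a (slam F a v'.2) (some k) + σ * F.d v'.2 k := e6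
        have hE : |σ * (F.d v.2 k - F.d v'.2 k)| ≤ 1 / 2 ^ P := by
          rw [abs_mul]
          calc |σ| * |F.d v.2 k - F.d v'.2 k| ≤ 1 / 2 ^ a * (1 / 2 ^ E) :=
                mul_le_mul hσ1 e4 (abs_nonneg _) (by positivity)
            _ = 1 / 2 ^ (E + a) := by
                rw [pow_add]
                field_simp
            _ ≤ 1 / 2 ^ P := Pool.PB.inv_mono hPE
        have e9 : (1 : ℝ) / 2 ^ (E + a) ≤ 1 / 2 ^ P := Pool.PB.inv_mono hPE
        have e10 : |lpt a (slam F a v.2) (some k) - lpt a (slam F a v'.2) (some k)| ≤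
            (2 * K + 3) / 2 ^ P := by
          have e11 : lpt a (slam F a v.2) (some k) - lpt a (slam F a v'.2) (some k) =
              (F.x v.2 k - F.x v.1 k) + (F.x v.1 k - F.x v'.1 k) + (F.x v'.1 k - F.x v'.2 k) -
                σ * (F.d v.2 k - F.d v'.2 k) := by
            rw [e5', e6']
            ring
          rw [e11]
          have e12 : (2 * (K : ℝ) + 3) / 2 ^ P =
              K / 2 ^ P + (1 / 2 ^ P + 1 / 2 ^ P) + K / 2 ^ P + 1 / 2 ^ P := by ring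
          rw [e12]
          rw [abs_le] at e1 e2 e3 hE ⊢
          constructor <;> linarith only [e1.1, e1.2, e2.1, e2.2, e3.1, e3.2, hE.1, hE.2, e9]
        have e13 : |(2 : ℝ) ^ P * lpt a (slam F a v.2) (some k) -
            2 ^ P * lpt a (slam F a v'.2) (some k)| ≤ 2 * K + 3 := by
          rw [← mul_sub, abs_mul, abs_of_pos (by positivity : (0 : ℝ) < 2 ^ P)]
          rw [le_div_iff₀ (by positivity)] at e10
          linarith
        refine (fl_sub e13).trans (le_of_eq ?_)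
        push_cast
        ring
      · rw [hXs, hXs]
        have e1 := hV _ _ a2 b2 k1 k3 i
        refine (fl_div e1).trans ?_
        push_cast
        have : (0 : ℝ) ≤ K := Nat.cast_nonneg K
        linarith
    have h2 : CH (P1 p Fp) (fun v => wG Vs a g q Kb (cyq k a P E) v.2) (fun v => (X v, Z v)) = 0 := by
      refine CH_eq_zero hP1.nonneg fun v v' hv hv' h => ?_
      have h3 : X v = X v' := (Prod.ext_iff.1 h).1
      have h4 : Z v = Z v' := (Prod.ext_iff.1 h).2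
      obtain ⟨k1, k2, k3, k4, k5⟩ := key v v' hv hv' h4
      have h5 := congrFun h3 0
      rw [hX0, hX0] at h5
      have h6 : ∀ i : Fin n, wN Vs a g q (slam F a v.2) i = wN Vs a g q (slam F a v'.2) i :=
        fun i => by
          have h7 := congrFun h3 i.succ
          rw [hXs, hXs] at h7
          exact h7
      exact Prod.ext k1 (Prod.ext (Prod.ext h5 k3) (Prod.ext k2 (funext h6)))
    have h3 := CH_le_add hP1.nonneg (fun v => wG Vs a g q Kb (cyq k a P E) v.2) X Z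
    rw [h2, add_zero] at h3
    refine h3.trans (hXn.trans (le_trans (le_of_eq ?_) he))
    push_cast
    ring
  r2 := by
    have hP1 := P1_law hp (slam F a₂)
    have h2 : CH (P1 p (slam F a₂)) (fun v => wG Vs a g q Kb (cyq k a P E) v.2)
        (fun v => (wG Vs a g q Kb (cyq k a P E) v.1, F.T v.2 % 2 ^ (J - a₂))) = 0 := by
      refine CH_eq_zero hP1.nonneg fun v v' hv hv' h => ?_
      obtain ⟨h3, h4⟩ := Prod.ext_iff.1 h
      obtain ⟨h5, h6⟩ := Prod.ext_iff.1 h3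
      obtain ⟨h7, h8⟩ := Prod.ext_iff.1 h6
      obtain ⟨h9, h10⟩ := Prod.ext_iff.1 h8
      obtain ⟨a1, a2, a3⟩ := P1_pos hp (slam F a₂) hv
      obtain ⟨b1, b2, b3⟩ := P1_pos hp (slam F a₂) hv'
      have c1 := Pool.T4E.ll_evt haa ha₂ _ _ a1 a2 a3
      have c2 := Pool.T4E.ll_evt haa ha₂ _ _ b1 b2 b3
      have t1 : F.T1 a₂ v.1 = F.T1 a₂ v.2 := (Prod.ext_iff.1 (Prod.ext_iff.1 a3).2).2
      have t2 : F.T1 a₂ v'.1 = F.T1 a₂ v'.2 := (Prod.ext_iff.1 (Prod.ext_iff.1 b3).2).2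
      have t3 : F.T1 a₂ v.1 = F.T1 a₂ v'.1 := by
        unfold Fam.T1
        rw [show F.T v.1 = F.T v'.1 from h9]
      have t4 : F.T v.2 / 2 ^ (J - a₂) = F.T v'.2 / 2 ^ (J - a₂) := by
        have t5 : F.T1 a₂ v.2 = F.T1 a₂ v'.2 := by rw [← t1, t3, t2]
        unfold Fam.T1 at t5
        exact t5
      have t5 : F.T v.2 = F.T v'.2 := by
        rw [← Nat.div_add_mod (F.T v.2) (2 ^ (J - a₂)), ← Nat.div_add_mod (F.T v'.2) (2 ^ (J - a₂)),
          t4]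
        have h11 : F.T v.2 % 2 ^ (J - a₂) = F.T v'.2 % 2 ^ (J - a₂) := h4
        rw [h11]
      show (Kb v.2, (cyq k a P E (slam F a v.2), (F.T v.2, wN Vs a g q (slam F a v.2)))) =
        (Kb v'.2, (cyq k a P E (slam F a v'.2), (F.T v'.2, wN Vs a g q (slam F a v'.2))))
      rw [← c1, ← c2, ← hKL _ _ a1 a2 a3, ← hKL _ _ b1 b2 b3, t5]
      exact Prod.ext h5 (Prod.ext h7 (Prod.ext rfl h10))
    rw [h2]
    refine le_trans ?_ he
    refine mul_nonneg (by positivity) (Real.log_nonneg ?_)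
    have : (0 : ℝ) ≤ K := Nat.cast_nonneg K
    linarith

end Pool.T4J
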