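import Pool.Agent.H4.T4.Vec

/-!
# Affine labels along a chain of windows

`stair`: if the differences of consecutive labels of a chain are natural over the finer ones, up to the
factor `A`, then the difference of the first and the last labels is natural over the last ones, up to
`(1 + R A) ^ n`.
-/

set_option autoImplicit false

namespace Pool.T4J

open Finset Real MvPolynomial
open Pool.Agent.H49.Ent Pool.Agent.H32.Dense Pool.STK Pool.KA Pool.KSAT Pool.K2S Pool.PB Pool.S6C
open Pool.GEN Pool.CHT Pool.CHX Pool.ISO
open Pool.D2R Pool.GF64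

variable {m : ℕ}

/-- The components of a vector over labels. -/
noncomputable def cmp (c : ℕ → Fin m) (L : ℕ → MvPolynomial (Option (Fin m)) ℝ)
    (x V : Option (Fin m) → ℝ) (l : ℕ) : ℝ :=
  if l = 0 then V (some (c 0)) else V (some (c l)) - dd (L l) x V

/-- A backward sum. -/
theorem back_sum {b : ℕ → ℝ} {R : ℕ} {B : ℝ} (hR : b R = 0)
    (h : ∀ r < R, b r ≤ b (r + 1) + B) (hB : 0 ≤ B) : ∀ r ≤ R, b r ≤ R * B := by
  have key : ∀ k ≤ R, b (R - k) ≤ k * B := by
    intro k
    induction k with
    | zero =>
      intro _
      rw [Nat.sub_zero, hR, Nat.cast_zero, zero_mul]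
    | succ k ih =>
      intro hk
      have h1 := h (R - (k + 1)) (by omega)
      have e1 : R - (k + 1) + 1 = R - k := by omega
      rw [e1] at h1
      have h2 := ih (by omega)
      push_cast
      linarith
  intro r hr
  have h1 := key (R - r) (by omega)
  have e1 : R - (R - r) = r := by omega
  rw [e1] at h1
  refine h1.trans (mul_le_mul_of_nonneg_right ?_ hB)
  exact_mod_cast Nat.sub_le R r

/-- **Affine labels along a chain of windows.** -/
theorem stair {c : ℕ → Fin m} {n R : ℕ} (hc : Set.InjOn c (Set.Iio (n + 1)))
    {L : ℕ → ℕ → MvPolynomial (Option (Fin m)) ℝ}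
    (hL : ∀ r ≤ R, ∀ l, 1 ≤ l → l ≤ n → (L r l).totalDegree ≤ 1 ∧ DepC c l (L r l))
    {w : ℕ → ℝ} (hw : ∀ l ≤ n, 0 < w l) {A : ℝ} (hA : 0 ≤ A) {x : Option (Fin m) → ℝ}
    (H : ∀ r < R, ∀ i, 1 ≤ i → i ≤ n → ∀ V : Option (Fin m) → ℝ, V none = 0 →
      |dd (L (r + 1) i - L r i) x V| ≤ A * ∑ l ∈ range i, w l / w i * |cmp c (L (r + 1)) x V l|)
    {i : ℕ} (hi1 : 1 ≤ i) (hi : i ≤ n) {r : ℕ} (hr : r ≤ R) {j : ℕ} (hj : j < i) :
    |ncp c i (frA n (L R)) (L R i - L r i) x j| ≤ (1 + R * A) ^ n * (w j / w i) := by
  have hfd : ∀ l, DepC c l (frA n (L R) l) := frA_dep fun l h1 h2 => (hL R le_rfl l h1 h2).2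
  have hcn : Set.InjOn c (Set.Iio (n + 1)) := hc
  obtain ⟨V, hV0, hV⟩ := vec_adapt hcn hfd x 0 (fun l => if l = j then 1 else 0) (n + 1) le_rfl
  have hdep : ∀ r ≤ R, ∀ l, 1 ≤ l → l ≤ n → DepC c l (L R l - L r l) := fun r hr l h1 h2 b b' g1 g2 => by
    rw [map_sub, map_sub, (hL R le_rfl l h1 h2).2 b b' g1 g2, (hL r hr l h1 h2).2 b b' g1 g2]
  rw [ncp_eq hfd (hdep r hr i hi1 hi) hV0 fun l hl => hV l (by omega)]
  -- the components of the vector over the last labels
  have hcR : ∀ l ≤ n, cmp c (L R) x V l = if l = j then 1 else 0 := by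
    intro l hl
    have h1 := hV l (by omega)
    unfold cmp
    by_cases hl0 : l = 0
    · subst hl0
      rw [if_pos rfl]
      rw [frA_zero] at h1
      have e0 : dd (0 : MvPolynomial (Option (Fin m)) ℝ) x V = 0 := by
        unfold dd
        simp
      rw [e0, sub_zero] at h1
      exact h1
    · rw [if_neg hl0]
      rw [frA_in (by omega) hl] at h1
      exact h1
  -- the first components vanish
  have hz : ∀ l ≤ n, l < j → V (some (c l)) = 0 := by
    intro l
    induction l using Nat.strong_induction_on with
    | _ l ih =>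
      intro hl hlj
      have h1 := hV l (by omega)
      rw [if_neg (by omega), dd_zero (hfd l) hV0 fun l' hl' => ih l' hl' (by omega) (by omega),
        sub_zero] at h1
      exact h1
  have hd0 : ∀ r ≤ R, ∀ l, 1 ≤ l → l ≤ n → l ≤ j → dd (L R l - L r l) x V = 0 :=
    fun r hr l h1 h2 h3 => dd_zero (hdep r hr l h1 h2) hV0 fun l' hl' =>
      hz l' (by omega) (by omega)
  -- the components over the labels `r`
  have hcr : ∀ r ≤ R, ∀ l ≤ n, |cmp c (L r) x V l| ≤ (if l = j then 1 else 0) +
      (if 1 ≤ l then |dd (L R l - L r l) x V| else 0) := by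
    intro r hr l hl
    by_cases hl0 : l = 0
    · subst hl0
      have h1 := hcR 0 (Nat.zero_le _)
      unfold cmp at h1 ⊢
      rw [if_pos rfl] at h1 ⊢
      rw [h1, if_neg (show ¬ 1 ≤ 0 by norm_num), add_zero]
      split_ifs <;> simp
    · have h1 := hcR l hl
      unfold cmp at h1 ⊢
      rw [if_neg hl0] at h1 ⊢
      rw [if_pos (show 1 ≤ l by omega)]
      have e1 : V (some (c l)) - dd (L r l) x V = (V (some (c l)) - dd (L R l) x V) +
          dd (L R l - L r l) x V := by
        rw [dd_sub]
        ring
      rw [e1, h1]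
      refine (abs_add_le _ _).trans (add_le_add ?_ le_rfl)
      split_ifs <;> simp
  have hwj : 0 < w j := hw j (by omega)
  -- the main induction
  obtain ⟨Q, hQ⟩ : ∃ Q : ℝ, Q = 1 + R * A := ⟨_, rfl⟩
  have hRA : 0 ≤ R * A := mul_nonneg (Nat.cast_nonneg R) hA
  have hQ1 : 1 ≤ Q := by
    rw [hQ]
    linarith
  -- the sum of the bounds
  have hgeo : ∀ k', ∑ l ∈ range (j + (k' + 1)), (if l < j then 0 else if l = j then 1 else
      Q ^ (l - j) - Q ^ (l - j - 1)) = Q ^ k' := by
    intro k'
    induction k' with
    | zero =>
      rw [zero_add, Finset.sum_range_succ, if_neg (lt_irrefl j), if_pos rfl, pow_zero,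
        Finset.sum_eq_zero, zero_add]
      intro l hl
      rw [if_pos (Finset.mem_range.1 hl)]
    | succ k' ih' =>
      rw [← add_assoc, Finset.sum_range_succ, ih', if_neg (by omega), if_neg (by omega)]
      have e1 : j + (k' + 1) - j = k' + 1 := by omega
      rw [e1, Nat.add_sub_cancel]
      ring
  have key : ∀ k, ∀ i, 1 ≤ i → i ≤ n → i = j + (k + 1) → ∀ r ≤ R,
      |dd (L R i - L r i) x V| * (w i / w j) ≤ Q ^ (k + 1) - Q ^ k := by
    intro k
    induction k using Nat.strong_induction_on with
    | _ k ih =>
      intro i hi1 hi hik r hr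
      have hwi : 0 < w i := hw i hi
      -- the sum of the components
      have hS : ∀ r < R, ∑ l ∈ range i, w l / w i * |cmp c (L (r + 1)) x V l| ≤
          Q ^ k * (w j / w i) := by
        intro r hr
        have h1 : ∀ l ∈ range i, w l / w i * |cmp c (L (r + 1)) x V l| ≤
            (if l < j then 0 else if l = j then 1 else Q ^ (l - j) - Q ^ (l - j - 1)) *
              (w j / w i) := by
          intro l hl
          have hli := Finset.mem_range.1 hl
          have hwl : 0 < w l := hw l (by omega)
          have h2 := hcr (r + 1) (by omega) l (by omega)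
          rcases Nat.lt_trichotomy l j with h3 | h3 | h3
          · have h4 : |cmp c (L (r + 1)) x V l| ≤ 0 := by
              refine h2.trans (le_of_eq ?_)
              rw [if_neg (by omega)]
              split_ifs with h5
              · rw [hd0 (r + 1) (by omega) l h5 (by omega) (by omega), abs_zero, add_zero]
              · rw [add_zero]
            have h5 : |cmp c (L (r + 1)) x V l| = 0 := le_antisymm h4 (abs_nonneg _)
            rw [if_pos h3, zero_mul, h5, mul_zero]
          · have h4 : |cmp c (L (r + 1)) x V l| ≤ 1 := by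
              refine h2.trans (le_of_eq ?_)
              rw [if_pos h3]
              split_ifs with h5
              · rw [hd0 (r + 1) (by omega) l h5 (by omega) (by omega), abs_zero, add_zero]
              · rw [add_zero]
            rw [if_neg (by omega), if_pos h3, one_mul, h3]
            rw [h3] at h4
            exact mul_le_of_le_one_right (by positivity) h4
          · rw [if_neg (by omega), if_neg (by omega)]
            have h4 : |cmp c (L (r + 1)) x V l| * (w l / w j) ≤
                Q ^ (l - j) - Q ^ (l - j - 1) := by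
              rw [if_neg (by omega), if_pos (by omega), zero_add] at h2
              have h5 := mul_le_mul_of_nonneg_right h2 (show 0 ≤ w l / w j by positivity)
              refine h5.trans ?_
              have h6 := ih (l - j - 1) (by omega) l (by omega) (by omega) (by omega) (r + 1)
                (by omega)
              have e1 : l - j - 1 + 1 = l - j := by omega
              rw [e1] at h6
              exact h6
            have e1 : w l / w i * |cmp c (L (r + 1)) x V l| =
                |cmp c (L (r + 1)) x V l| * (w l / w j) * (w j / w i) := by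
              field_simp
            rw [e1]
            exact mul_le_mul_of_nonneg_right h4 (by positivity)
        refine (Finset.sum_le_sum h1).trans (le_of_eq ?_)
        rw [← Finset.sum_mul, hik, hgeo k]
      -- the chain
      have hb := back_sum (b := fun r => |dd (L R i - L r i) x V| * (w i / w j)) (R := R)
        (B := A * Q ^ k) (by
          show |dd (L R i - L R i) x V| * (w i / w j) = 0
          rw [dd_sub, sub_self, abs_zero, zero_mul]) (fun r hr => by
          show |dd (L R i - L r i) x V| * (w i / w j) ≤
            |dd (L R i - L (r + 1) i) x V| * (w i / w j) + A * Q ^ k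
          have e1 : dd (L R i - L r i) x V = dd (L R i - L (r + 1) i) x V +
              dd (L (r + 1) i - L r i) x V := by
            rw [dd_sub, dd_sub, dd_sub]
            ring
          rw [e1]
          have h3 := (H r hr i hi1 hi V hV0).trans (mul_le_mul_of_nonneg_left (hS r hr) hA)
          have h4 : |dd (L (r + 1) i - L r i) x V| * (w i / w j) ≤ A * Q ^ k := by
            refine (mul_le_mul_of_nonneg_right h3 (by positivity)).trans (le_of_eq ?_)
            field_simp
          have h5 := mul_le_mul_of_nonneg_right (abs_add_le (dd (L R i - L (r + 1) i) x V)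
            (dd (L (r + 1) i - L r i) x V)) (show 0 ≤ w i / w j by positivity)
          rw [add_mul] at h5
          linarith) (by positivity) r hr
      refine hb.trans (le_of_eq ?_)
      rw [hQ]
      ring
  have hwi : 0 < w i := hw i hi
  have h1 := key (i - j - 1) i hi1 hi (by omega) r hr
  have h2 : Q ^ (i - j - 1 + 1) - Q ^ (i - j - 1) ≤ Q ^ n := by
    have h3 : Q ^ (i - j - 1 + 1) ≤ Q ^ n := pow_le_pow_right₀ hQ1 (by omega)
    have h4 : 0 ≤ Q ^ (i - j - 1) := by positivity
    linarith
  rw [← hQ]
  have h3 := h1.trans h2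
  have e1 : |dd (L R i - L r i) x V| = |dd (L R i - L r i) x V| * (w i / w j) * (w j / w i) := by
    field_simp
  rw [e1]
  exact mul_le_mul_of_nonneg_right h3 (by positivity)

end Pool.T4J
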