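import Pool.Agent.H4.T4.Rho
import Pool.Agent.H4.D2.Hvf

/-!
# Two samples over affine labels of two windows

`vec_nat`: a vector with natural coordinates over the labels `GB` of the second window, over the label
`GA` of the first one. `vel_nat`: the own velocities of two samples with the same labels. `pos_nat`:
the heights of two samples with the same labels and the same time.
-/

set_option autoImplicit false

namespace Pool.T4J

open Finset Real MvPolynomial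
open Pool.Agent.H49.Ent Pool.Agent.H32.Dense Pool.STK Pool.KA Pool.KSAT Pool.K2S Pool.PB Pool.S6C
open Pool.GEN Pool.CHT Pool.CHX Pool.ISO
open Pool.D2R Pool.GF64
open Pool.D2F2 (hgp vlp ojet_hgp ojet_vlp)
open Pool.LA91 (ojet bd_le)

variable {m J : ℕ}

/-- The natural components of affine data do not depend on the point. -/
theorem ncp_aff {c : ℕ → Fin m} {i : ℕ} (hc : Set.InjOn c (Set.Iio i))
    {GB : ℕ → MvPolynomial (Option (Fin m)) ℝ} {Q : MvPolynomial (Option (Fin m)) ℝ}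
    (hB : ∀ l, DepC c l (GB l)) (hBd : ∀ l, (GB l).totalDegree ≤ 1) (hQ : DepC c i Q)
    (hQd : Q.totalDegree ≤ 1) (x y : Option (Fin m) → ℝ) (j : ℕ) :
    ncp c i GB Q x j = ncp c i GB Q y j := by
  obtain ⟨W, hW0, hW⟩ := vec_adapt hc hB x 0 (fun l => if l = j then 1 else 0) i le_rfl
  rw [ncp_eq hB hQ hW0 hW, ncp_eq hB hQ hW0 (fun l hl => by rw [dd_aff (hBd l) y x]; exact hW l hl),
    dd_aff hQd x y]

theorem dd_vsub {G : MvPolynomial (Option (Fin m)) ℝ} (x V W : Option (Fin m) → ℝ) :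
    dd G x (fun o => V o - W o) = dd G x V - dd G x W := by
  unfold dd
  rw [← Finset.sum_sub_distrib]
  exact Finset.sum_congr rfl fun o _ => by ring

/-- **A vector with natural coordinates over the labels of the second window.** -/
theorem vec_nat {c : ℕ → Fin m} {r i U e : ℕ} (hc : Set.InjOn c (Set.Iio (r + 1)))
    {GB : ℕ → MvPolynomial (Option (Fin m)) ℝ} {GA : MvPolynomial (Option (Fin m)) ℝ}
    (hB : ∀ l, 1 ≤ l → l ≤ r → DepC c l (GB l)) (hA : DepC c i GA)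
    {x V : Option (Fin m) → ℝ} {γ g : ℕ → ℕ} {T : ℝ} (hT : 0 ≤ T) (hi1 : 1 ≤ i) (hir : i ≤ r)
    (hV : V none = 0)
    (hρ : ∀ j < i, |ncp c i (frA r GB) (GB i - GA) x j| ≤ 2 ^ U * (2 ^ γ j / 2 ^ γ i))
    (hg : ∀ j, 1 ≤ j → j ≤ i → γ j + e ≤ g j)
    (hb : ∀ j, 1 ≤ j → j ≤ i → |V (some (c j)) - dd (GB j) x V| ≤ T / 2 ^ g j) :
    |V (some (c i)) - dd GA x V - ncp c i (frA r GB) (GB i - GA) x 0 * V (some (c 0))| ≤
      2 ^ (U + r) * T / 2 ^ (γ i + e) := by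
  have hci : Set.InjOn c (Set.Iio i) := hc.mono fun y hy => by
    rw [Set.mem_Iio] at hy ⊢
    omega
  have h1 := lin_id hci (frA_dep hB) hA (x := x) hV
  rw [frA_in hi1 hir] at h1
  obtain ⟨N, rfl⟩ : ∃ N, i = N + 1 := ⟨i - 1, by omega⟩
  rw [Finset.sum_range_succ'] at h1
  have e0 : V (some (c 0)) - dd (frA r GB 0) x V = V (some (c 0)) := by
    rw [frA_zero]
    unfold dd
    simp
  rw [e0] at h1
  have e1 : V (some (c (N + 1))) - dd GA x V -
      ncp c (N + 1) (frA r GB) (GB (N + 1) - GA) x 0 * V (some (c 0)) =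
      (V (some (c (N + 1))) - dd (GB (N + 1)) x V) +
        ∑ j ∈ range N, ncp c (N + 1) (frA r GB) (GB (N + 1) - GA) x (j + 1) *
          (V (some (c (j + 1))) - dd (frA r GB (j + 1)) x V) := by
    rw [h1]
    ring
  rw [e1]
  have hgT : ∀ j, 1 ≤ j → j ≤ N + 1 → T / 2 ^ g j ≤ T / 2 ^ (γ j + e) := fun j h2 h3 =>
    div_le_div_of_nonneg_left hT (by positivity) (pow_le_pow_right₀ (by norm_num) (hg j h2 h3))
  have hterm : ∀ j ∈ range N, |ncp c (N + 1) (frA r GB) (GB (N + 1) - GA) x (j + 1) *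
      (V (some (c (j + 1))) - dd (frA r GB (j + 1)) x V)| ≤
      2 ^ U * (T / 2 ^ (γ (N + 1) + e)) := by
    intro j hj
    have hj1 := Finset.mem_range.1 hj
    rw [abs_mul, frA_in (by omega) (by omega)]
    refine (mul_le_mul (hρ (j + 1) (by omega)) ((hb (j + 1) (by omega) (by omega)).trans
      (hgT _ (by omega) (by omega))) (abs_nonneg _) (by positivity)).trans (le_of_eq ?_)
    rw [pow_add, pow_add]
    field_simp
  have hU1 : (1 : ℝ) ≤ 2 ^ U := one_le_pow₀ (by norm_num)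
  have hq : 0 ≤ T / 2 ^ (γ (N + 1) + e) := by positivity
  calc _ ≤ T / 2 ^ (γ (N + 1) + e) + ∑ _j ∈ range N, 2 ^ U * (T / 2 ^ (γ (N + 1) + e)) := by
        refine (abs_add_le _ _).trans (add_le_add ((hb (N + 1) (by omega) le_rfl).trans
          (hgT _ (by omega) le_rfl)) ((Finset.abs_sum_le_sum_abs _ _).trans
          (Finset.sum_le_sum hterm)))
    _ = (1 + N * 2 ^ U) * (T / 2 ^ (γ (N + 1) + e)) := by
        rw [Finset.sum_const, Finset.card_range, nsmul_eq_mul]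
        ring
    _ ≤ (2 ^ r * 2 ^ U) * (T / 2 ^ (γ (N + 1) + e)) := by
        refine mul_le_mul_of_nonneg_right ?_ hq
        have h5 : ((N + 1 : ℕ) : ℝ) ≤ ((2 ^ r : ℕ) : ℝ) := by
          exact_mod_cast hir.trans (Nat.lt_two_pow_self).le
        push_cast at h5
        nlinarith
    _ = _ := by
        rw [pow_add]
        ring

/-- **The velocities of two samples over affine labels.** -/
theorem vel_nat {F : Fam m J} {c : ℕ → Fin m} {r i U e : ℕ} (hc : Set.InjOn c (Set.Iio (r + 1)))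
    {GA GB : ℕ → MvPolynomial (Option (Fin m)) ℝ}
    (hA : ∀ l, 1 ≤ l → l ≤ r → (GA l).totalDegree ≤ 1 ∧ DepC c l (GA l))
    (hB : ∀ l, 1 ≤ l → l ≤ r → (GB l).totalDegree ≤ 1 ∧ DepC c l (GB l))
    {x : Option (Fin m) → ℝ} {γ g : ℕ → ℕ} {T : ℝ} (hT : 0 ≤ T) (hi1 : 1 ≤ i) (hir : i ≤ r)
    (hρ : ∀ j < i, |ncp c i (frA r GB) (GB i - GA i) x j| ≤ 2 ^ U * (2 ^ γ j / 2 ^ γ i))
    (hg : ∀ j, 1 ≤ j → j ≤ i → γ j + e ≤ g j) {ω ω' : F.Ω}
    (hω : ∀ j, 1 ≤ j → j ≤ i → |vlp F (c j) (GB j) ω| ≤ T / 2 ^ g j)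
    (hω' : ∀ j, 1 ≤ j → j ≤ i → |vlp F (c j) (GB j) ω'| ≤ T / 2 ^ g j) :
    |vlp F (c i) (GA i) ω' - vlp F (c i) (GA i) ω -
      ncp c i (frA r GB) (GB i - GA i) x 0 * (F.d ω' (c 0) - F.d ω (c 0))| ≤
      2 ^ (U + r + 1) * T / 2 ^ (γ i + e) := by
  have hv : ∀ (Q : MvPolynomial (Option (Fin m)) ℝ), Q.totalDegree ≤ 1 → ∀ j,
      vlp F (c j) Q ω' - vlp F (c j) Q ω = (bd F ω' (some (c j)) - bd F ω (some (c j))) -
        dd Q x (fun o => bd F ω' o - bd F ω o) := by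
    intro Q hQ j
    rw [dd_vsub]
    unfold vlp
    rw [dd_aff hQ (bt F ω) x, dd_aff hQ (bt F ω') x]
    show _ = (F.d ω' (c j) - F.d ω (c j)) - _
    ring
  have h1 := vec_nat (r := r) (x := x) (V := fun o => bd F ω' o - bd F ω o) (T := 2 * T) hc
    (fun l h2 h3 => (hB l h2 h3).2) (hA i hi1 hir).2 (by positivity) hi1 hir
    (by simp [bd]) hρ hg (fun j h2 h3 => by
      have h4 := hv (GB j) (hB j h2 (h3.trans hir)).1 j
      show |(bd F ω' (some (c j)) - bd F ω (some (c j))) -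
        dd (GB j) x (fun o => bd F ω' o - bd F ω o)| ≤ _
      rw [← h4]
      refine (abs_sub _ _).trans ?_
      have h5 := hω j h2 h3
      have h6 := hω' j h2 h3
      rw [mul_div_assoc]
      linarith)
  have h4 := hv (GA i) (hA i hi1 hir).1 i
  rw [← h4] at h1
  refine h1.trans (le_of_eq ?_)
  rw [pow_succ]
  ring

/-- **The heights of two samples over affine labels**, at the same time. -/
theorem pos_nat {F : Fam m J} {c : ℕ → Fin m} {r i U e : ℕ} (hc : Set.InjOn c (Set.Iio (r + 1)))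
    {GA GB : ℕ → MvPolynomial (Option (Fin m)) ℝ}
    (hA : ∀ l, 1 ≤ l → l ≤ r → (GA l).totalDegree ≤ 1 ∧ DepC c l (GA l))
    (hB : ∀ l, 1 ≤ l → l ≤ r → (GB l).totalDegree ≤ 1 ∧ DepC c l (GB l))
    {x : Option (Fin m) → ℝ} {γ g : ℕ → ℕ} {T : ℝ} (hT : 0 ≤ T) (hi1 : 1 ≤ i) (hir : i ≤ r)
    (hρ : ∀ j < i, |ncp c i (frA r GB) (GB i - GA i) x j| ≤ 2 ^ U * (2 ^ γ j / 2 ^ γ i))
    (hg : ∀ j, 1 ≤ j → j ≤ i → γ j + e ≤ g j) {ω ω' : F.Ω} (ht : F.T ω = F.T ω')
    (hω : ∀ j, 1 ≤ j → j ≤ i → |hgp F (c j) (GB j) ω| ≤ T / 2 ^ g j)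
    (hω' : ∀ j, 1 ≤ j → j ≤ i → |hgp F (c j) (GB j) ω'| ≤ T / 2 ^ g j) :
    |hgp F (c i) (GA i) ω' - hgp F (c i) (GA i) ω -
      ncp c i (frA r GB) (GB i - GA i) x 0 * (F.x ω' (c 0) - F.x ω (c 0))| ≤
      2 ^ (U + r + 1) * T / 2 ^ (γ i + e) := by
  have hv : ∀ (Q : MvPolynomial (Option (Fin m)) ℝ), Q.totalDegree ≤ 1 → ∀ j,
      hgp F (c j) Q ω' - hgp F (c j) Q ω = (bt F ω' (some (c j)) - bt F ω (some (c j))) -
        dd Q x (fun o => bt F ω' o - bt F ω o) := by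
    intro Q hQ j
    have h1 := ev_aff hQ (bt F ω) (bt F ω')
    rw [dd_aff hQ (bt F ω) x] at h1
    rw [← h1]
    unfold hgp
    show _ = (F.x ω' (c j) - F.x ω (c j)) - _
    ring
  have h1 := vec_nat (r := r) (x := x) (V := fun o => bt F ω' o - bt F ω o) (T := 2 * T) hc
    (fun l h2 h3 => (hB l h2 h3).2) (hA i hi1 hir).2 (by positivity) hi1 hir
    (by
      show F.t ω' - F.t ω = 0
      unfold Fam.t
      rw [ht, sub_self]) hρ hg (fun j h2 h3 => by
      have h4 := hv (GB j) (hB j h2 (h3.trans hir)).1 j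
      show |(bt F ω' (some (c j)) - bt F ω (some (c j))) -
        dd (GB j) x (fun o => bt F ω' o - bt F ω o)| ≤ _
      rw [← h4]
      refine (abs_sub _ _).trans ?_
      have h5 := hω j h2 h3
      have h6 := hω' j h2 h3
      rw [mul_div_assoc]
      linarith)
  have h4 := hv (GA i) (hA i hi1 hir).1 i
  rw [← h4] at h1
  refine h1.trans (le_of_eq ?_)
  rw [pow_succ]
  ring

end Pool.T4J
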